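import Pool.Agent.T3h73.SD.T_KAP

set_option autoImplicit false

open Filter Topology

namespace Pool.Agent.T3h73.TK.Num

theorem tail (q : ℝ) (h0 : 0 < q) (n : ℕ) (c : ℕ) :
    1 - ∑ i ∈ Finset.range n, q ^ (c + i + 1) ≤ ∏ i ∈ Finset.range n, (1 + q ^ (c + i + 1))⁻¹ := by
  induction n with
  | zero => simp
  | succ n ih =>
    rw [Finset.sum_range_succ, Finset.prod_range_succ]
    have h3 : 0 < q ^ (c + n + 1) := pow_pos h0 _
    have h4 : (1 : ℝ) - q ^ (c + n + 1) ≤ (1 + q ^ (c + n + 1))⁻¹ := by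
      have h6 : (1 + q ^ (c + n + 1))⁻¹ - (1 - q ^ (c + n + 1)) =
          (q ^ (c + n + 1)) ^ 2 / (1 + q ^ (c + n + 1)) := by
        field_simp
        ring
      have h7 : 0 ≤ (q ^ (c + n + 1)) ^ 2 / (1 + q ^ (c + n + 1)) := by positivity
      linarith
    have h5 : ∏ i ∈ Finset.range n, (1 + q ^ (c + i + 1))⁻¹ ≤ 1 := by
      apply Finset.prod_le_one (fun i _ => by positivity)
      intro i _
      apply inv_le_one_of_one_le₀
      have : 0 < q ^ (c + i + 1) := pow_pos h0 _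
      linarith
    have h6 : 0 < ∏ i ∈ Finset.range n, (1 + q ^ (c + i + 1))⁻¹ :=
      Finset.prod_pos fun i _ => by positivity
    nlinarith

theorem num : (0.425 : ℝ) < 2 / 3 * ∏' i : ℕ, (1 + ((3 : ℝ) ^ (i + 1))⁻¹)⁻¹ := by
  have hq0 : (0 : ℝ) ≤ 3⁻¹ := by norm_num
  have hq1 : (3 : ℝ)⁻¹ ≤ 1 / 2 := by norm_num
  have hlim := SD.KAP.hasProd hq0 hq1
  have e0 : ∀ i : ℕ, ((3 : ℝ) ^ (i + 1))⁻¹ = (3 : ℝ)⁻¹ ^ (i + 1) := fun i => (inv_pow _ _).symm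
  simp_rw [e0]
  have h1 : (0.638 : ℝ) ≤ ∏' i : ℕ, (1 + (3 : ℝ)⁻¹ ^ (i + 1))⁻¹ := by
    refine ge_of_tendsto hlim ?_
    filter_upwards [eventually_ge_atTop 4] with n hn
    obtain ⟨m, rfl⟩ := Nat.exists_eq_add_of_le hn
    rw [Finset.prod_range_add]
    have h2 : ∏ i ∈ Finset.range 4, (1 + (3 : ℝ)⁻¹ ^ (i + 1))⁻¹ = 59049 / 91840 := by
      simp only [Finset.prod_range_succ, Finset.prod_range_zero]
      norm_num
    rw [h2]
    have h3 := tail (3 : ℝ)⁻¹ (by norm_num) m 4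
    have h4 := SD.KAP.geo_le hq0 hq1 m
    have h5 : ∑ i ∈ Finset.range m, (3 : ℝ)⁻¹ ^ (4 + i + 1) =
        (3 : ℝ)⁻¹ ^ 4 * ∑ i ∈ Finset.range m, (3 : ℝ)⁻¹ ^ (i + 1) := by
      rw [Finset.mul_sum]
      exact Finset.sum_congr rfl fun i _ => by ring
    have h6 : (161 / 162 : ℝ) ≤ ∏ i ∈ Finset.range m, (1 + (3 : ℝ)⁻¹ ^ (4 + i + 1))⁻¹ := by
      refine le_trans ?_ h3
      rw [h5]
      have : (3 : ℝ)⁻¹ ^ 4 * ∑ i ∈ Finset.range m, (3 : ℝ)⁻¹ ^ (i + 1) ≤ (3 : ℝ)⁻¹ ^ 4 * (1 / 2) := by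
        refine mul_le_mul_of_nonneg_left (h4.trans ?_) (by positivity)
        norm_num
      norm_num at this ⊢
      linarith
    calc (0.638 : ℝ) ≤ 59049 / 91840 * (161 / 162) := by norm_num
      _ ≤ _ := mul_le_mul_of_nonneg_left h6 (by norm_num)
  linarith

end Pool.Agent.T3h73.TK.Num
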