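import Pool.Agent.T3h73.TK.Stm

set_option autoImplicit false
set_option linter.all false

open NumberField IsDedekindDomain Filter Topology

namespace Pool.Agent.T3h73.TK

open Pool.Agent.T3h73.SL (Pl)
open Pool.Agent.T3h73.SD (kap)
open Pool.Agent.Y715.T.St (Eis nrm omega)
open Pool.Agent.T3h73.TK.Def

open Classical in
theorem t_MAIN (hFLD : S_FLD) (hSYS : S_SYSQ) (hDIST : S_DISTQ) (hFAM : S_FAM) (hTQL : S_TQL) :
    S_MAIN := by
  intro k hk
  obtain ⟨K, _, _, ⟨f⟩⟩ := hFLD
  obtain ⟨S, hS, hQ⟩ := hSYS K f k (by omega)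
  have hw : 1 ≤ 3 ^ (k - 1) := Nat.one_le_pow _ _ (by norm_num)
  have hfam := hFAM K f k hk
  obtain ⟨hT1, -⟩ := hTQL K (Qk f k) (3 ^ k) (Nat.one_le_pow _ _ (by norm_num)) hQ.dens
    (2 * ((3 ^ (k - 1) : ℕ) : ℝ)) (by positivity)
  have hkap : kap 3 = ∏' i : ℕ, (1 + ((3 : ℝ) ^ (i + 1))⁻¹)⁻¹ := by
    unfold kap
    norm_num
  refine ⟨?_, ?_⟩
  · intro s hs
    by_cases hs2 : s ≤ 2
    · exact (hfam s hs hs2).1
    · refine Summable.of_nonneg_of_le (fun x => ?_) (fun x => ?_) (hfam 2 (by norm_num) le_rfl).1
      · split_ifs with h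
        · refine Real.rpow_nonneg ?_ _
          unfold Def.cond
          refine Finset.prod_nonneg fun π _ => ?_
          have : 0 ≤ nrm π := by
            unfold nrm
            nlinarith [sq_nonneg (2 * π.re - π.im), sq_nonneg π.im]
          exact_mod_cast this
        · exact le_rfl
      · split_ifs with h
        · have h1 : 1 ≤ cond x := by
            unfold Def.cond
            refine Finset.one_le_prod fun π hπ => ?_
            have h2 := (h ⟨π, hπ⟩).1.1
            have h3 : 1 ≤ nrm π := by
              have h4 : nrm π ≠ 0 := by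
                intro h5
                apply h2.ne_zero
                unfold nrm at h5
                have h6 : (2 * π.re - π.im) ^ 2 + 3 * π.im ^ 2 = 0 := by linarith
                have h7 : π.im = 0 := by nlinarith [sq_nonneg (2 * π.re - π.im), sq_nonneg π.im]
                have h8 : π.re = 0 := by
                  rw [h7] at h6
                  nlinarith [sq_nonneg π.re]
                exact QuadraticAlgebra.ext h8 h7
              have h9 : 0 ≤ nrm π := by
                unfold nrm
                nlinarith [sq_nonneg (2 * π.re - π.im), sq_nonneg π.im]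
              omega
            exact_mod_cast h3
          exact Real.rpow_le_rpow_of_exponent_le h1 (by linarith)
        · exact le_rfl
  · intro ε hε
    have hd := hDIST K S _ _ _ _ _ _ _ hQ (3 ^ (k - 1)) hw ε hε
    have hev : ∀ᶠ s : ℝ in 𝓝[>] 1, 1 < s ∧ s ≤ 2 := by
      have h1 : Set.Ioc (1 : ℝ) 2 ∈ 𝓝[>] (1 : ℝ) := Ioc_mem_nhdsGT (by norm_num)
      exact Filter.mem_of_superset h1 fun s hs => hs
    filter_upwards [hd, hev] with s h1 h2
    obtain ⟨-, h3, h4⟩ := hfam s h2.1 h2.2
    rw [← hkap, h3]
    exact ⟨zero_lt_one.trans_le (hT1 s h2.1 h2.2).2, h1.trans h4⟩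

end Pool.Agent.T3h73.TK
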