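import Mathlib
import Pool.Agent.T2h16.TT.St

/-!
# The family of all products of characters of order `3 ^ k`
-/

set_option autoImplicit false

namespace Pool.Agent.T3h73.TK.Def

open Pool.Agent.Y715.T.St T2h16.TT.St

/-- A finite set `P` of Eisenstein integers and a multiplicative character modulo each of them. -/
abbrev Fam : Type := Σ P : Finset Eis, ∀ π : P, MulChar (Eis ⧸ Ideal.span {(π : Eis)}) ℂ

/-- The members of the family: the elements of `P` are primes which are `1` modulo `3`, of norm `1`
modulo `3 ^ (k + 1)`, and the characters have exact order `3 ^ k`. -/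
def Mem (k : ℕ) (x : Fam) : Prop := ∀ π : x.1, Adm k π ∧ orderOf (x.2 π) = 3 ^ k

/-- The norm of the conductor of the product of the characters. -/
def cond (x : Fam) : ℝ := ∏ π ∈ x.1, (nrm π : ℝ)

/-- The sum of `cond ^ (-s)` over the members of the family with the property `T`. -/
noncomputable def fsum (k : ℕ) (T : Fam → Prop) (s : ℝ) : ℝ :=
  open Classical in ∑' x : Fam, if Mem k x ∧ T x then cond x ^ (-s) else 0

/-- The statement on the twist by the product of the characters (see `Concl`), in any order. -/
def Nice (k : ℕ) (x : Fam) : Prop :=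
  ∀ (σ : Fin x.1.card ≃ x.1) (ζ : ℂ), ζ ^ 3 ^ (k - 1) = omega →
    Concl k x.1.card (fun j => (σ j : Eis)) (fun j => x.2 (σ j)) ζ

end Pool.Agent.T3h73.TK.Def
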