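import Pool.Agent.T3h73.SD.Stm3
import Pool.Agent.T3h73.SD.Fam
import Pool.Agent.T3h73.TK.Def

/-!
# Project TK (helper73, MP_a43263): twists of `y² + y = x³` by characters of order `3 ^ k`

Goal (`S_MAIN`): for `k ≥ 2` the twists by at least `(2/3) ∏ (1 + 3 ^ (-i))⁻¹ = 0.426...` of ALL
products of characters of exact order `3 ^ k` modulo distinct admissible Eisenstein primes (lower
Dirichlet density, ordered by the norm of the conductor) have nonvanishing `L`-value and exact `3`-part.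

Part A: coloured sums over finite subsets of a set `Q` of places (adaptation of project SD, directory
`Pool/Agent/T3h73/SD`, files `T_MASS`, `Fam`, `T_T0L`, `T_EUL`, `EULa`, `T_TUP`, `T_AN1`, `T_AN2`,
`An3A`, `An3B`, `T_AN3`, `T_AN`).
Part B: moments (adaptation of `T_EXP`, `T_UNL`, `T_CNTU`, `T_MOM`, `T_DIST`).
Part C: arithmetic of the Eisenstein integers (libraries `Pool.Agent.Y715.T.*`, `Pool.Agent.T2h16.TT.*`).
-/

set_option autoImplicit false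
set_option linter.all false

open NumberField IsDedekindDomain Filter Topology

namespace Pool.Agent.T3h73.TK

open Pool.Agent.T3h73.SL (Pl)
open Pool.Agent.Y773.G (IsModChar)
open Pool.Agent.T3h73.SD (ee NA gA syA SymSys trm Cl Rc kap S_BL S_LU S_UNL S_CNTU S_KAP)
open Pool.Agent.T3h73.SD.Fam (wt)
open Pool.Agent.Y715.T.St (Eis nrm omega)
open T2h16.TT.St (Adm IsExp Concl sy)
open Pool.Agent.T3h73.TK.Def

section
variable {K : Type} [Field K] [NumberField K]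

/-- all elements of `A` are in `Q` -/
def In (Q : Set (Pl K)) (A : Finset (Pl K)) : Prop := ∀ q ∈ A, q ∈ Q

open Classical in
/-- `∑ t ^ |P| N(P) ^ (-s)` over the finite subsets of `Q` -/
noncomputable def TQ (Q : Set (Pl K)) (t s : ℝ) : ℝ :=
  ∑' P : Finset (Pl K), if In Q P then t ^ P.card * (NA P : ℝ) ^ (-s) else 0

open Classical in
/-- `Q` has Dirichlet density `1 / n` -/
def Dens (Q : Set (Pl K)) (n : ℕ) : Prop :=
  Tendsto (fun s : ℝ => (∑' q : Pl K, if q ∈ Q then (Ideal.absNorm q.asIdeal : ℝ) ^ (-s) else 0) /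
    Real.log (1 / (s - 1))) (𝓝[>] 1) (𝓝 (1 / (n : ℝ)))

end

/-- a system of symbols (`SymSys`, project SD) together with a set `Q` of places of density `1 / n`
whose characteristic function is the mean of the functions `Ψ i` -/
structure SymQ (ℓ : ℕ) (K : Type) [Field K] [NumberField K] (S : Finset (Pl K))
    (𝔪 : Ideal (𝓞 K)) (Λ : Type) [AddCommGroup Λ] (χ : Λ → Pl K → ZMod ℓ)
    (sy : Pl K → Pl K → ZMod ℓ) (Q : Set (Pl K)) (n : ℕ) (ι : Type) [Fintype ι]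
    (Ψ : ι → Pl K → ℂ) : Prop where
  sys : SymSys ℓ K S 𝔪 Λ χ sy
  pos : 1 ≤ n
  ne : Nonempty ι
  disj : ∀ q ∈ Q, q ∉ S
  dens : Dens Q n
  psi_le : ∀ i q, ‖Ψ i q‖ ≤ 1
  ind : ∀ q ∈ Q, ∑ i, Ψ i q = Fintype.card ι
  ind' : ∀ q, q ∉ S → q ∉ Q → ∑ i, Ψ i q = 0
  char : ∀ (h : Λ) (j : Pl K → ZMod ℓ) (B : Finset (Pl K)), Disjoint B S →
    (∀ b, j b ≠ 0 ↔ b ∈ B) → (h ≠ 0 ∨ B.Nonempty) → ∀ i : ι,
    ∃ η : Ideal (𝓞 K) →*₀ ℂ, IsModChar (𝔪 * ∏ b ∈ B, b.asIdeal) (fun _ => 0) η ∧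
      (∀ 𝔞, ‖η 𝔞‖ ≤ 1) ∧
      (∀ q : Pl K, q ∉ S → q ∉ B →
        η q.asIdeal = Ψ i q * ee ℓ (χ h q + ∑ b ∈ B, j b * sy b q)) ∧
      ∃ 𝔞, IsCoprime 𝔞 (𝔪 * ∏ b ∈ B, b.asIdeal) ∧ η 𝔞 ≠ 1

/-! ### Part A: analysis -/

open Classical in
/-- MASSQ: sums of absolute values over the finite subsets of `Q`.
Proof: adapt `SD/T_MASS.lean` (theorem `key` there): by `Prs.fsum` the sum is at most
`exp (∑_{q ∈ Q} m⁻¹ N q^{-s} (1 + 1/N q)^D)`, the exponent is at most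
`m⁻¹ ∑_{q ∈ Q} N q^{-s} + 3^⌈D⌉ ∑_q N q^{-2}` (`fac_le`), and by `Dens Q n` one has
`∑_{q ∈ Q} N q^{-s} ≤ (1/n + ε) log (1/(s-1))` for `s` near `1` (the logarithm is positive there). -/
def S_MASSQ : Prop := ∀ (K : Type) [Field K] [NumberField K] (Q : Set (Pl K)) (n : ℕ), 1 ≤ n →
  Dens Q n → ∀ (m : ℕ) (D ε : ℝ), 1 ≤ m → 0 ≤ D → 0 < ε → ∃ C s₀ : ℝ, 0 < C ∧ 1 < s₀ ∧
  ∀ s : ℝ, 1 < s → s < s₀ →
    Summable (fun A : Finset (Pl K) => if In Q A then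
      ((m : ℝ) ^ A.card)⁻¹ * (NA A : ℝ) ^ (-s) * gA A ^ D else 0) ∧
    ∑' A : Finset (Pl K), (if In Q A then
      ((m : ℝ) ^ A.card)⁻¹ * (NA A : ℝ) ^ (-s) * gA A ^ D else 0) ≤
      C * (1 / (s - 1)) ^ (1 / ((m : ℝ) * n) + ε)

open Classical in
/-- TQL: the sums `TQ`: summability, `TQ ≥ 1` (the term of `∅`), lower bound.
Proof: adapt `SD/T_T0L.lean`. `TQ Q t s = ∏_{q ∈ Q} (1 + t N q^{-s})` (`Prs.fsum` etc. with
`f q = if q ∈ Q then t N q^{-s} else 0`). For `x ≥ 0`: `exp (x - x²/2) ≤ 1 + x` (the function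
`log (1+x) - x + x²/2` has derivative `x²/(1+x) ≥ 0`). So `TQ ≥ exp (t ∑_{q ∈ Q} N q^{-s} - C)`,
`C = t²/2 ∑ N q^{-2}`, and by `Dens Q n` `t ∑_{q ∈ Q} N q^{-s} ≥ (t/n - ε/2) log (1/(s-1))` near `1`;
the constant `C` is absorbed by `(ε/2) log (1/(s-1))`. (To get the bound for the infinite sum it is
enough to bound finite products: `∏_{q ∈ F} (1 + f q) = ∑_{A ⊆ F} ∏_{q ∈ A} f q ≤ TQ`.) -/
def S_TQL : Prop := ∀ (K : Type) [Field K] [NumberField K] (Q : Set (Pl K)) (n : ℕ), 1 ≤ n →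
  Dens Q n → ∀ t : ℝ, 0 ≤ t →
  (∀ s : ℝ, 1 < s → s ≤ 2 → Summable (fun P : Finset (Pl K) => if In Q P then
    t ^ P.card * (NA P : ℝ) ^ (-s) else 0) ∧ 1 ≤ TQ Q t s) ∧
  ∀ ε : ℝ, 0 < ε → ∀ᶠ s : ℝ in 𝓝[>] 1, (1 / (s - 1)) ^ (t / n - ε) ≤ TQ Q t s

open Classical in
/-- EULQ: the sums over one variable, restricted to `Q`.
Proof: adapt `SD/EULa.lean`, `SD/T_EUL.lean`. Put `e q = ee ℓ (χ h q + ∑ j b sy b q)` and
`z q = m⁻¹ e q N q^{-s}` for `q ∈ Q`, `q ∉ B ∪ F`, and `0` otherwise. The sum is `∏ (1 + z q)`, of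
absolute value `≤ exp (∑ Re z q + ∑ |z q|²/2)` (`core`). For `q ∈ Q`, `q ∉ B`:
`|ι| e q = ∑_i Ψ i q e q = ∑_i η_i(q)` with the characters `η_i` of `char`, for `q ∉ Q ∪ S ∪ B`
`0 = ∑_i η_i(q)`, and `η_i(q) = 0` for `q ∈ S ∪ B` (support of a `IsModChar`). Hence
`∑_q Re z q = (m |ι|)⁻¹ ∑_i ∑_q Re η_i(q) N q^{-s} - m⁻¹ ∑_{q ∈ F \ B, q ∈ Q} Re (e q) N q^{-s}`, and
for each `i` the lower bound part of `core` (`h2`, `h3` there, with `w q = η_i(q) N q^{-s}`,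
`L = LI η_i s`) gives `∑_q Re η_i(q) N q^{-s} ≤ log ‖L‖ + ½ ∑ N q^{-2}`, and `‖L‖` is bounded by `S_LU`
(as in `T_EUL`). The sum over `F` is at most `∑_{q ∈ F} 1 / N q ≤ 2 log gA F`. -/
def S_EULQ : Prop := ∀ (ℓ : ℕ) (_ : ℓ.Prime) (K : Type) [Field K] [NumberField K] (S : Finset (Pl K))
  (𝔪 : Ideal (𝓞 K)) (Λ : Type) [AddCommGroup Λ] (χ : Λ → Pl K → ZMod ℓ)
  (sy : Pl K → Pl K → ZMod ℓ) (Q : Set (Pl K)) (n : ℕ) (ι : Type) [Fintype ι] (Ψ : ι → Pl K → ℂ),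
  SymQ ℓ K S 𝔪 Λ χ sy Q n ι Ψ → ∀ m : ℕ, 1 ≤ m → ∃ C : ℝ, 0 < C ∧
  ∀ (h : Λ) (j : Pl K → ZMod ℓ) (B F : Finset (Pl K)), Disjoint B S → (∀ b, j b ≠ 0 ↔ b ∈ B) →
  (h ≠ 0 ∨ B.Nonempty) → ∀ s : ℝ, 1 < s → s ≤ 2 →
  ‖∑' A : Finset (Pl K), if In Q A ∧ Disjoint A B ∧ Disjoint A F then
    ((((m : ℝ) ^ A.card)⁻¹ * (NA A : ℝ) ^ (-s) : ℝ) : ℂ) *
      ee ℓ (∑ q ∈ A, (χ h q + ∑ b ∈ B, j b * sy b q)) else 0‖ ≤
    C * (1 + Real.log (NA B)) ^ C * gA F ^ C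

section
variable {K : Type} [Field K] [NumberField K]

open Classical in
/-- the sum over all finite subsets `P` of `Q` with a colouring -/
noncomputable def MhQ {ℓ : ℕ} (Q : Set (Pl K)) {Λ : Type} (χ : Λ → Pl K → ZMod ℓ)
    (sy : Pl K → Pl K → ZMod ℓ) {C : Type} [Fintype C] (R : C → C → ZMod ℓ) (m : ℕ) (h : C → Λ)
    (s : ℝ) : ℂ :=
  ∑' P : Finset (Pl K), if In Q P then
    ((((m : ℝ) ^ P.card)⁻¹ * (NA P : ℝ) ^ (-s) : ℝ) : ℂ) * ∑ col : P → C,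
      ee ℓ (∑ q : P, χ (h (col q)) q +
        ∑ p : P, ∑ q : P, if p = q then 0 else R (col p) (col q) * sy p q) else 0

/-- families of disjoint finite subsets of `Q` -/
def TupQ {C : Type} (Q : Set (Pl K)) (A : C → Finset (Pl K)) : Prop :=
  (∀ c, In Q (A c)) ∧ ∀ c c', c ≠ c' → Disjoint (A c) (A c')

open Classical in
/-- the part of the sum where exactly the sets with colours in `W` have norm larger than `Z` -/
noncomputable def MWQ {ℓ : ℕ} (Q : Set (Pl K)) {Λ : Type} (χ : Λ → Pl K → ZMod ℓ)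
    (sy : Pl K → Pl K → ZMod ℓ) {C : Type} [Fintype C] (R : C → C → ZMod ℓ) (m : ℕ) (h : C → Λ)
    (Z : ℝ) (W : Finset C) (s : ℝ) : ℂ :=
  ∑' A : C → Finset (Pl K), if TupQ Q A ∧ ∀ c, c ∈ W ↔ Z < (NA (A c) : ℝ) then
    trm χ sy R m h s A else 0

end

/-- TUPQ: from colourings to families. Proof: adapt `SD/T_TUP.lean` (`Disjoint P S` becomes
`In Q P`). -/
def S_TUPQ : Prop := ∀ (ℓ : ℕ) (_ : ℓ.Prime) (K : Type) [Field K] [NumberField K] (Q : Set (Pl K))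
  (Λ : Type) (χ : Λ → Pl K → ZMod ℓ) (sy : Pl K → Pl K → ZMod ℓ) (C : Type) [Fintype C]
  (R : C → C → ZMod ℓ) (m : ℕ) (h : C → Λ), 1 ≤ m → (∀ a, R a a = 0) →
  ∀ (s Z : ℝ), 1 < s → s ≤ 2 → MhQ Q χ sy R m h s = ∑ W : Finset C, MWQ Q χ sy R m h Z W s

/-- AN1Q: two large linked variables. Proof: adapt `SD/T_AN1.lean`: the restriction to `Q` is put into
the coefficients `α`, `β` of `fixed_r` (`Ok`, `Adm` there get `In Q` instead of disjointness from `S`;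
`In Q A` implies `Disjoint A S` by `SymQ.disj`), `BL` is used for `SymQ.sys`. In the last step one has
`κ θ ≥ N + 2 n + 1`, so `Z ^ (-θ) ≤ u ^ (-(N + 2 n + 1))` and `‖MWQ‖ ≤ Q / u = Q (s - 1)`. -/
def S_AN1Q : Prop := ∀ (ℓ : ℕ) (_ : ℓ.Prime) (K : Type) [Field K] [NumberField K] (S : Finset (Pl K))
  (𝔪 : Ideal (𝓞 K)) (Λ : Type) [AddCommGroup Λ] (χ : Λ → Pl K → ZMod ℓ)
  (sy : Pl K → Pl K → ZMod ℓ) (Q : Set (Pl K)), SymSys ℓ K S 𝔪 Λ χ sy → (∀ q ∈ Q, q ∉ S) →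
  ∀ (C : Type) [Fintype C] (R : C → C → ZMod ℓ) (m : ℕ) (h : C → Λ), 1 ≤ m → (∀ a, R a a = 0) →
  ∃ κ₀ : ℝ, 0 < κ₀ ∧ ∀ κ : ℝ, κ₀ ≤ κ → ∀ (W : Finset C) (a b : C), a ∈ W → b ∈ W →
    R a b + R b a ≠ 0 →
    Tendsto (fun s : ℝ => MWQ Q χ sy R m h ((1 / (s - 1)) ^ κ) W s) (𝓝[>] 1) (𝓝 0)

/-- AN2Q: less than `M` large variables. Proof: adapt `SD/T_AN2.lean`. With `u = 1/(s-1)`: each of the
`|W| ≤ M - 1` large variables gives at most `C u^(1/(m n) + ε)` (`S_MASSQ`, `D = 0`), each other one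
at most `C (1 + κ log u)` (`Fam.one_var`, second part), and `TQ Q (M/m) s ≥ u^(M/(m n) - ε)`
(`S_TQL`). With `ε = 1/(2 m n (M + 1))` the quotient is at most
`C' u^(-1/(m n) + (M + 1) ε) (1 + κ log u)^N → 0` (`Fam.lim_log`). -/
def S_AN2Q : Prop := ∀ (ℓ : ℕ) (_ : ℓ.Prime) (K : Type) [Field K] [NumberField K] (Q : Set (Pl K))
  (n : ℕ), 1 ≤ n → Dens Q n →
  ∀ (Λ : Type) (χ : Λ → Pl K → ZMod ℓ) (sy : Pl K → Pl K → ZMod ℓ) (C : Type) [Fintype C]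
  (R : C → C → ZMod ℓ) (m M : ℕ) (h : C → Λ), 1 ≤ m → ∀ κ : ℝ, 0 < κ → ∀ W : Finset C, W.card < M →
    Tendsto (fun s : ℝ => MWQ Q χ sy R m h ((1 / (s - 1)) ^ κ) W s /
      ((TQ Q ((M : ℝ) / m) s : ℝ) : ℂ)) (𝓝[>] 1) (𝓝 0)

open Classical in
/-- OUTQ: a sum over families with cancellation in one set `A a`. Proof: adapt `inner` of
`SD/An3A.lean` and `outer` of `SD/An3B.lean` (the lemmas on `ex`, `coef`, `BB`, `FF`, `trm_update`, `e2`
and `SD.TUP` can be cited: `In Q X` implies `Disjoint X S`). The sum over `X = A a`, `Z < NA X`, for fixed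
other sets is the full sum (bounded by `hE` with `B` = union of the `A c` with `R a c + R c a ≠ 0`, all
`≤ Z`, and `F` = union of the others) minus the part `NA X ≤ Z` (bounded by `C₁ (1 + log Z)`). The sum
over the other sets: `wt m s A * gA A ^ E` over `In Q A` (`≤ U`) for `c ∈ W`, over `NA A ≤ Z` (`≤ V`) for
`c ∉ W`. -/
def S_OUTQ : Prop := ∀ (ℓ : ℕ) (_ : ℓ.Prime) (K : Type) [Field K] [NumberField K] (S : Finset (Pl K))
  (𝔪 : Ideal (𝓞 K)) (Λ : Type) [AddCommGroup Λ] (χ : Λ → Pl K → ZMod ℓ)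
  (sy : Pl K → Pl K → ZMod ℓ) (Q : Set (Pl K)), SymSys ℓ K S 𝔪 Λ χ sy → (∀ q ∈ Q, q ∉ S) →
  ∀ (C : Type) [Fintype C] (R : C → C → ZMod ℓ) (m : ℕ) (h : C → Λ), 1 ≤ m → (∀ a, R a a = 0) →
  ∀ E : ℝ, 0 < E →
  (∀ (h : Λ) (j : Pl K → ZMod ℓ) (B F : Finset (Pl K)), Disjoint B S → (∀ b, j b ≠ 0 ↔ b ∈ B) →
    (h ≠ 0 ∨ B.Nonempty) → ∀ s : ℝ, 1 < s → s ≤ 2 →
    ‖∑' A : Finset (Pl K), if In Q A ∧ Disjoint A B ∧ Disjoint A F then
      ((((m : ℝ) ^ A.card)⁻¹ * (NA A : ℝ) ^ (-s) : ℝ) : ℂ) *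
        ee ℓ (∑ q ∈ A, (χ h q + ∑ b ∈ B, j b * sy b q)) else 0‖ ≤
      E * (1 + Real.log (NA B)) ^ E * gA F ^ E) →
  ∀ C₁ s Z U V : ℝ, 0 ≤ C₁ → 1 < s → s ≤ 2 → 1 ≤ Z → 1 ≤ U → 1 ≤ V →
  ∑' A : Finset (Pl K), (if (NA A : ℝ) ≤ Z then wt m s A else 0) ≤ C₁ * (1 + Real.log Z) →
  Summable (fun A : Finset (Pl K) => if In Q A then wt m s A * gA A ^ E else 0) →
  ∑' A : Finset (Pl K), (if In Q A then wt m s A * gA A ^ E else 0) ≤ U →
  Summable (fun A : Finset (Pl K) => if (NA A : ℝ) ≤ Z then wt m s A * gA A ^ E else 0) →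
  ∑' A : Finset (Pl K), (if (NA A : ℝ) ≤ Z then wt m s A * gA A ^ E else 0) ≤ V →
  ∀ (W : Finset C) (a : C), a ∈ W → (∀ c ∈ W, R a c + R c a = 0) →
  ∀ T : (C → Finset (Pl K)) → Prop, (∀ A X, T (Function.update A a X) ↔ T A) →
  (∀ A, T A → h a ≠ 0 ∨ ∃ c, c ≠ a ∧ R a c + R c a ≠ 0 ∧ (A c).Nonempty) →
  ‖∑' A : C → Finset (Pl K), if (TupQ Q A ∧ ∀ c, c ∈ W ↔ Z < (NA (A c) : ℝ)) ∧ T A then
    trm χ sy R m h s A else 0‖ ≤
    (E * (1 + Fintype.card C * Real.log Z) ^ E + C₁ * (1 + Real.log Z)) *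
      (V ^ Fintype.card C * U ^ (W.card - 1))

open Classical in
/-- AN3Q: exactly `M` large variables, not linked. Proof: adapt `SD/T_AN3.lean` (with `S_EULQ` for `hE`
and `S_OUTQ` instead of `outer`; the bounds for `U`, `V` from `S_MASSQ`, `Fam.one_var`, `AN3.one_varD`). The bound `C (s-1)^{-(m-1)/m} log^C` becomes `C u^((M-1)(1/(m n) + ε)) (1 + κ log u)^C`
(`S_MASSQ`), compared with `TQ Q (M/m) s ≥ u^(M/(m n) - ε)` (`S_TQL`). For the main term use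
`MhQ = TQ Q (M/m)` for `M` colours without characters and symbols, `S_TUPQ` and `S_AN2Q`. -/
def S_AN3Q : Prop := ∀ (ℓ : ℕ) (_ : ℓ.Prime) (K : Type) [Field K] [NumberField K] (S : Finset (Pl K))
  (𝔪 : Ideal (𝓞 K)) (Λ : Type) [AddCommGroup Λ] (χ : Λ → Pl K → ZMod ℓ)
  (sy : Pl K → Pl K → ZMod ℓ) (Q : Set (Pl K)) (n : ℕ) (ι : Type) [Fintype ι] (Ψ : ι → Pl K → ℂ),
  SymQ ℓ K S 𝔪 Λ χ sy Q n ι Ψ →
  ∀ (C : Type) [Fintype C] (R : C → C → ZMod ℓ) (m M : ℕ) (h : C → Λ), 1 ≤ m → 1 ≤ M →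
  (∀ a, R a a = 0) →
  (∀ U : Finset C, (∀ a ∈ U, ∀ b ∈ U, R a b + R b a = 0) → U.card ≤ M) →
  ∀ κ : ℝ, 0 < κ → ∀ W : Finset C, W.card = M → (∀ a ∈ W, ∀ b ∈ W, R a b + R b a = 0) →
    Tendsto (fun s : ℝ => MWQ Q χ sy R m h ((1 / (s - 1)) ^ κ) W s /
      ((TQ Q ((M : ℝ) / m) s : ℝ) : ℂ)) (𝓝[>] 1) (𝓝 (if ∀ a ∈ W, h a = 0 then 1 else 0))

/-- ANQ: the asymptotics of the coloured sums. Proof: adapt `SD/T_AN.lean` (`S_TUPQ`, `S_AN1Q`,
`S_AN2Q`, `S_AN3Q`; for AN1Q divide by `TQ ≥ 1`, `S_TQL`). -/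
def S_ANQ : Prop := ∀ (ℓ : ℕ) (_ : ℓ.Prime) (K : Type) [Field K] [NumberField K] (S : Finset (Pl K))
  (𝔪 : Ideal (𝓞 K)) (Λ : Type) [AddCommGroup Λ] (χ : Λ → Pl K → ZMod ℓ)
  (sy : Pl K → Pl K → ZMod ℓ) (Q : Set (Pl K)) (n : ℕ) (ι : Type) [Fintype ι] (Ψ : ι → Pl K → ℂ),
  SymQ ℓ K S 𝔪 Λ χ sy Q n ι Ψ →
  ∀ (C : Type) [Fintype C] (R : C → C → ZMod ℓ) (m M : ℕ) (h : C → Λ), 1 ≤ m → 1 ≤ M →
  (∀ a, R a a = 0) →
  (∀ U : Finset C, (∀ a ∈ U, ∀ b ∈ U, R a b + R b a = 0) → U.card ≤ M) →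
    Tendsto (fun s : ℝ => MhQ Q χ sy R m h s / ((TQ Q ((M : ℝ) / m) s : ℝ) : ℂ)) (𝓝[>] 1)
      (𝓝 (Nat.card {U : Finset C // (∀ a ∈ U, ∀ b ∈ U, R a b + R b a = 0) ∧ U.card = M ∧
        ∀ a ∈ U, h a = 0}))

/-! ### Part B: moments -/

/-- the nonzero elements of the field with three elements -/
abbrev EE : Type := {x : ZMod 3 // x ≠ 0}

section
variable {K : Type} [Field K] [NumberField K]

/-- the kernel of the weighted Laplacian of `P` -/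
def VV (sy : Pl K → Pl K → ZMod 3) (P : Finset (Pl K)) (e : P → EE) : Set (P → ZMod 3) :=
  {v | ∀ j : P, ∑ i : P, (e i : ZMod 3) * sy i j * (v i - v j) = 0}

/-- its order -/
noncomputable def nV (sy : Pl K → Pl K → ZMod 3) (P : Finset (Pl K)) (e : P → EE) : ℕ :=
  Nat.card (VV sy P e)

/-- `∑ e(q) a(q)` -/
def aS (a : Pl K → ZMod 3) (P : Finset (Pl K)) (e : P → EE) : ZMod 3 :=
  ∑ q : P, (e q : ZMod 3) * a q

open Classical in
/-- the sum over the finite subsets `P` of `Q` and the weights `e` -/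
noncomputable def SQ (Q : Set (Pl K)) (w : ℕ) (F : (P : Finset (Pl K)) → (P → EE) → ℝ) (s : ℝ) : ℝ :=
  ∑' P : Finset (Pl K), if In Q P then
    (w : ℝ) ^ P.card * (NA P : ℝ) ^ (-s) * ∑ e : P → EE, F P e else 0

end

/-- the colours -/
abbrev CC (r w : ℕ) : Type := Cl 3 r × EE × Fin w

/-- the linking -/
def RR (r w : ℕ) (a b : CC r w) : ZMod 3 := (a.2.1 : ZMod 3) * b.2.1 * Rc 3 r a.1 b.1

open Classical in
/-- EXPQ: the moments in terms of the coloured sums.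
Proof (compare `SD/T_EXP.lean`): `[aS = c] = (1/3) ∑_α ee 3 (α aS) ee 3 (-α c)`. The `r`-th power of
`nV sy P e` counts the `(v¹, …, vʳ)`, `vⁱ ∈ F₃^P`, with `e_j ∑_i e_i sy i j (v^l_i - v^l_j) = 0` for all
`l`, `j` (`e_j ≠ 0`), so it is `3^(-r |P|) ∑_v ∑_b ee 3 (∑_l ∑_j b^l_j e_j ∑_i e_i sy i j (v^l_i - v^l_j))`
(orthogonality: `∑_{b ∈ F₃} ee 3 (b x) = 3 [x = 0]`). A colouring `P → Cl 3 r × EE × Fin w` is a triple
`((v, b), e, f)`; the sum over `f` gives `w ^ |P|`. The terms `i = j` vanish, and the phase is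
`∑_{i ≠ j} RR (col i) (col j) * sy i j` by the definitions of `RR` and `Rc`. -/
def S_EXPQ : Prop := ∀ (K : Type) [Field K] [NumberField K] (Q : Set (Pl K))
  (sy : Pl K → Pl K → ZMod 3) (a : Pl K → ZMod 3) (w r : ℕ) (c : ZMod 3) (s : ℝ), 1 < s → s ≤ 2 →
  ((SQ Q w (fun P e => if aS a P e = c then (nV sy P e : ℝ) ^ r else 0) s : ℝ) : ℂ) =
    (1 / 3 : ℂ) * ∑ α : ZMod 3, ee 3 (-(α * c)) *
      MhQ Q (fun (h : ZMod 3) q => h * a q) sy (RR r w) (3 ^ r) (fun col => α * (col.2.1 : ZMod 3)) s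

/-- UNLQ: maximal unlinked sets of colours.
Proof: `RR x y + RR y x = e_x e_y (Rc x.1 y.1 + Rc y.1 x.1)`, so `U` is unlinked iff its projection to
`Cl 3 r` is. The projection has at most `3 ^ r` elements (`S_UNL`, `ℓ = 3`) and the fibres at most
`2 w`; equality holds iff `U` is the full preimage of an unlinked set with `3 ^ r` elements, and the
number of these is given by `S_CNTU`. If `α ≠ 0` no element of the nonempty set `U` has
`α * a.2.1 = 0`. -/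
def S_UNLQ : Prop := ∀ (r w : ℕ), 1 ≤ w → (∀ a : CC r w, RR r w a a = 0) ∧
  (∀ U : Finset (CC r w), (∀ a ∈ U, ∀ b ∈ U, RR r w a b + RR r w b a = 0) →
    U.card ≤ 2 * w * 3 ^ r) ∧
  ∀ α : ZMod 3, Nat.card {U : Finset (CC r w) // (∀ a ∈ U, ∀ b ∈ U, RR r w a b + RR r w b a = 0) ∧
    U.card = 2 * w * 3 ^ r ∧ ∀ a ∈ U, α * (a.2.1 : ZMod 3) = 0} =
    if α = 0 then 3 ^ r * ∏ i ∈ Finset.range r, (1 + 3 ^ i) else 0

open Classical in
/-- MOMQ: the moments. Proof: `S_EXPQ`, `S_ANQ` (with `m = 3 ^ r`, `M = 2 w 3 ^ r`, so `M / m = 2 w`)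
and `S_UNLQ`; compare `SD/T_MOM.lean`. -/
def S_MOMQ : Prop := ∀ (K : Type) [Field K] [NumberField K] (S : Finset (Pl K)) (𝔪 : Ideal (𝓞 K))
  (a : Pl K → ZMod 3) (sy : Pl K → Pl K → ZMod 3) (Q : Set (Pl K)) (n : ℕ) (ι : Type) [Fintype ι]
  (Ψ : ι → Pl K → ℂ), SymQ 3 K S 𝔪 (ZMod 3) (fun h q => h * a q) sy Q n ι Ψ →
  ∀ (w r : ℕ) (c : ZMod 3), 1 ≤ w →
  Tendsto (fun s : ℝ => SQ Q w (fun P e => if aS a P e = c then (nV sy P e : ℝ) ^ r else 0) s /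
    TQ Q (2 * w) s) (𝓝[>] 1) (𝓝 (1 / 3 * ((3 : ℝ) ^ r * ∏ i ∈ Finset.range r, (1 + (3 : ℝ) ^ i))))

open Classical in
/-- DISTQ: the proportion. Proof: adapt `SD/T_DIST.lean` (polynomials `BB`, `Lf`, `BB_le` can be cited).
`VV sy P e` is a subspace which contains the constants, so `nV = 3 ^ (d + 1)` for nonempty `P`. For
`c = 1, 2` the condition `aS = c` implies that `P` is nonempty, and
`SQ ([aS = c] BB(nV / 3)) / TQ → (1/3) Lf 3 BB` by `S_MOMQ`, while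
`BB(nV / 3) ≤ [nV = 3]`. Add the results for `c = 1` and `c = 2`. -/
def S_DISTQ : Prop := ∀ (K : Type) [Field K] [NumberField K] (S : Finset (Pl K)) (𝔪 : Ideal (𝓞 K))
  (a : Pl K → ZMod 3) (sy : Pl K → Pl K → ZMod 3) (Q : Set (Pl K)) (n : ℕ) (ι : Type) [Fintype ι]
  (Ψ : ι → Pl K → ℂ), SymQ 3 K S 𝔪 (ZMod 3) (fun h q => h * a q) sy Q n ι Ψ →
  ∀ w : ℕ, 1 ≤ w → ∀ ε : ℝ, 0 < ε → ∀ᶠ s : ℝ in 𝓝[>] 1,
  (2 / 3 * kap 3 - ε) * TQ Q (2 * w) s ≤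
    SQ Q w (fun P e => if nV sy P e = 3 ∧ aS a P e ≠ 0 then 1 else 0) s

/-! ### Part C: arithmetic -/

/-- SYMM: cubic reciprocity for all primary primes. Proof: `sy = cs` (`T2h16.TT.sy_eq`). For
`nrm π ≠ nrm ρ` this is `Pool.Agent.Y715.T.RecG.cs_comm`. Otherwise `ρ = star π` (both are primary and
`ρ` divides `N π = π * star π`), and `cs π (star π) = 0` for every primary prime `π` which does not
divide `star π`: adapt `Pool.Agent.Y715.T.RecC.conj_zero` (`Pr` becomes `RecG.Pq`, the lemmas of `Rec`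
are replaced by those of `RecG`): with `t = -(π + star π) ≡ 1 (mod 3)` an integer,
`cs π (star π) = cs π (-t) = cs π t`; the prime factors `ρ'` of `t` in `ℤ[w]` (taken primary) have norms
different from `N π`, so `cs π t = ∑ cs π ρ' = ∑ cs ρ' π`, and these sums vanish because
`π ≡ - star π (mod ρ')`. -/
def S_SYMM : Prop := ∀ π ρ : Eis, Prime π → (3 : Eis) ∣ π - 1 → Prime ρ → (3 : Eis) ∣ ρ - 1 →
  π ≠ ρ → sy π ρ = sy ρ π

/-- FLD: the field. Proof: take a number field `K` with a primitive cube root of unity `z` and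
`[K : ℚ] = 2` (e.g. `CyclotomicField 3 ℚ`); the homomorphism `x + y w ↦ x + y z` from
`QuadraticAlgebra ℤ (-1) (-1)` to `𝓞 K` is injective, and surjective since `Eis` is integrally closed
(it is a principal ideal domain; see `Pool.Agent.Y692.QS`) of finite index:
`Pool.Agent.N545.LB.surj_of_closed` (file `N545/LB/HE.lean`) does exactly this. Or: `𝓞 K = ℤ[ζ₃]`
(`IsCyclotomicExtension.Rat`). -/
def S_FLD : Prop := ∃ (K : Type) (_ : Field K) (_ : NumberField K), Nonempty (Eis ≃+* 𝓞 K)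

section
variable {K : Type} [Field K] [NumberField K]

open Classical in
/-- the primary generator of a place -/
noncomputable def gn (f : Eis ≃+* 𝓞 K) (v : Pl K) : Eis :=
  if h : ∃ π : Eis, Prime π ∧ (3 : Eis) ∣ π - 1 ∧ Ideal.span {f π} = v.asIdeal then h.choose else 1

/-- the coordinate of `(α - 1) / 3` -/
def ap (α : Eis) : ZMod 3 := (((α.re - 1) / 3 : ℤ) : ZMod 3)

/-- the set `Q` -/
def Qk (f : Eis ≃+* 𝓞 K) (k : ℕ) : Set (Pl K) :=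
  {v | (3 : 𝓞 K) ∉ v.asIdeal ∧ (3 : ℤ) ^ (k + 1) ∣ (Ideal.absNorm v.asIdeal : ℤ) - 1}

/-- the functions `Ψ` -/
noncomputable def Ps (K : Type) [Field K] [NumberField K] (k : ℕ)
    (ψ : DirichletCharacter ℂ (3 ^ (k + 1))) (v : Pl K) : ℂ :=
  ψ (Ideal.absNorm v.asIdeal : ZMod (3 ^ (k + 1)))

end

/-- DIC: dictionary. Proof: `𝓞 K` is a principal ideal domain (`f`, `Pool.Agent.Y692.QS`), an element
of `Eis` prime to `3` has exactly one associate which is `1` modulo `3` (the six units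
`± w ^ c` are the units modulo `3` up to squares..., see `RecC.exists_prim`), and the norm of
`Ideal.span {f π}` is the number of elements of `Eis ⧸ span {π}`, which is `nrm π`
(`Rec.card_FF`). There is exactly one place containing `3`, `3 = -w² (1 - w)²`. Two places with the same
`gn` are equal. -/
def S_DIC : Prop := ∀ (K : Type) [Field K] [NumberField K] (f : Eis ≃+* 𝓞 K), ∃ S : Finset (Pl K),
  (∀ v, v ∈ S ↔ (3 : 𝓞 K) ∈ v.asIdeal) ∧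
  (∀ v, v ∉ S → Prime (gn f v) ∧ (3 : Eis) ∣ gn f v - 1 ∧ Ideal.span {f (gn f v)} = v.asIdeal ∧
    nrm (gn f v) = Ideal.absNorm v.asIdeal) ∧
  ∀ π : Eis, Prime π → (3 : Eis) ∣ π - 1 → ∃ v, v ∉ S ∧ gn f v = π

/-- CHR: the ray class characters. Proof: put `𝔐 = (3^(k+1)) ∏ b`. An ideal `𝔞` of `𝓞 K` prime to `3`
has a unique generator `f α` with `α ≡ 1 (mod 3)`, and `α` is multiplicative in `𝔞`. Put
`η 𝔞 = ψ (N 𝔞) ee 3 (h ap α + ∑_{b ∈ B} j b sy (gn b) α)` if `𝔞` is prime to `𝔐` and `0` otherwise.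
`ap` is additive on products of elements `1` modulo `3`: `(1+3x)(1+3y) = 1 + 3(x+y) + 9xy`, `sy (gn b)`
is `cs (gn b)`, additive on elements prime to `gn b` (`RecG.cs_mul`), depending only on the residue
class (`RecG.cs_congr`). `IsModChar`: an element `≡ 1` modulo `𝔐` is its own primary generator, `ap = 0`
because it is `1` modulo `9`, and `N ≡ 1 (mod 3^(k+1))`. Nontriviality, even on the `𝔞` with
`N 𝔞 ≡ 1 (mod 3^(k+1))` (so that `ψ (N 𝔞) = 1`): if `B` is not empty choose `b ∈ B` and, by the Chinese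
remainder theorem, `α ≡ 1` modulo `3^(k+1)` and modulo the other elements of `B`, and `α ≡ x`
modulo `gn b` with `sy (gn b) x ≠ 0` (exists: the residue field has `≡ 1 (mod 3)` nonzero... the unit
group is cyclic of order divisible by `3`; see `Pool.Agent.Y715.T.Ex.exists_ne` or `cs_zero_iff`). If
`B = ∅`, `h ≠ 0`: `z = 1 + 3 la`, `la = 1 + 2w = √-3`, `α = z (star z)^(3^k - 1)`: `star z ≡ 1 (mod 3 la)`,
so `(star z)^(3^k) ≡ 1 (mod 3^(k+1))`, `N α = (N z)^(3^k) ≡ 1 (mod 3^(k+1))` and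
`α ≡ z / star z ≡ 1 + 6 la (mod 9)`, `ap α = 6/3 = 2 ≠ 0`. The same formula with `ψ = 1` gives the
characters for `SymSys` (its last clause: with principal ideals, the same `α`). -/
def S_CHR : Prop := ∀ (K : Type) [Field K] [NumberField K] (f : Eis ≃+* 𝓞 K) (k : ℕ), 1 ≤ k →
  ∀ S : Finset (Pl K), (∀ v, v ∈ S ↔ (3 : 𝓞 K) ∈ v.asIdeal) →
  ∀ (h : ZMod 3) (j : Pl K → ZMod 3) (B : Finset (Pl K)), Disjoint B S → (∀ b, j b ≠ 0 ↔ b ∈ B) →
  ∀ ψ : DirichletCharacter ℂ (3 ^ (k + 1)), ∃ η : Ideal (𝓞 K) →*₀ ℂ,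
    IsModChar (Ideal.span {(3 : 𝓞 K) ^ (k + 1)} * ∏ b ∈ B, b.asIdeal) (fun _ => 0) η ∧
    (∀ 𝔞, ‖η 𝔞‖ ≤ 1) ∧
    (ψ = 1 → ∀ 𝔞, IsCoprime 𝔞 (Ideal.span {(3 : 𝓞 K) ^ (k + 1)} * ∏ b ∈ B, b.asIdeal) →
      η 𝔞 ^ 3 = 1) ∧
    (∀ q : Pl K, q ∉ S → q ∉ B →
      η q.asIdeal = Ps K k ψ q * ee 3 (h * ap (gn f q) + ∑ b ∈ B, j b * sy (gn f b) (gn f q))) ∧
    (h ≠ 0 ∨ B.Nonempty → ∃ α : 𝓞 K,
      IsCoprime (Ideal.span {α}) (Ideal.span {(3 : 𝓞 K) ^ (k + 1)} * ∏ b ∈ B, b.asIdeal) ∧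
      η (Ideal.span {α}) ≠ 1)

/-- PAP: primes in arithmetic progressions, Dirichlet density. Proof: Mathlib
(`ArithmeticFunction.vonMangoldt.LSeries_residueClass_lower_bound`, and for the upper bound
`continuousOn_LFunctionResidueClassAux` / `eqOn_LFunctionResidueClassAux`): near `1`,
`∑ Λ(n) [n ≡ 1] n^{-s} = 1/(φ(q) (s - 1)) + O(1)`. Integrate over `(s, 2)`:
`∑ (Λ(n)/log n) [n ≡ 1] (n^{-s} - n^{-2}) = φ(q)⁻¹ log (1/(s-1)) + O(1)`, and the prime powers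
contribute `O(1)`. -/
def S_PAP : Prop := ∀ q : ℕ, 1 ≤ q → Tendsto (fun s : ℝ =>
  (∑' p : ℕ, if p.Prime ∧ (p : ZMod q) = 1 then (p : ℝ) ^ (-s) else 0) / Real.log (1 / (s - 1)))
  (𝓝[>] 1) (𝓝 (1 / (q.totient : ℝ)))

/-- DENQ: the density of `Qk`. Proof: `φ(3^(k+1)) = 2 · 3^k`. A prime number `p ≡ 1 (mod 3^(k+1))` is
`nrm π` for exactly two places of `Qk` (`p ≡ 1 (mod 3)` splits: `π`, `star π`, not associate), a prime
number `p ≡ 2 (mod 3)` gives one place of norm `p²`, and these contribute at most `∑ p^{-2}`. -/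
def S_DENQ : Prop := ∀ (K : Type) [Field K] [NumberField K] (f : Eis ≃+* 𝓞 K) (k : ℕ), 1 ≤ k →
  Dens (Qk f k) (3 ^ k)

/-- SYSQ: everything together. Proof: `S_DIC`, `S_SYMM`, `S_CHR`, `S_DENQ` and the orthogonality
`∑_ψ ψ(x) = φ(3^(k+1)) [x = 1]` (`DirichletCharacter.sum_characters_eq`). `cop`: a place is coprime to
`(3^(k+1))` iff it does not contain `3`. -/
def S_SYSQ : Prop := ∀ (K : Type) [Field K] [NumberField K] (f : Eis ≃+* 𝓞 K) (k : ℕ), 1 ≤ k →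
  ∃ S : Finset (Pl K), (∀ v, v ∈ S ↔ (3 : 𝓞 K) ∈ v.asIdeal) ∧
  SymQ 3 K S (Ideal.span {(3 : 𝓞 K) ^ (k + 1)}) (ZMod 3) (fun h q => h * ap (gn f q))
    (fun p q => sy (gn f p) (gn f q)) (Qk f k) (3 ^ k) (DirichletCharacter ℂ (3 ^ (k + 1))) (Ps K k)

/-- CHC: the number of the characters with a given exponent, and uniqueness of the exponent.
Proof: the group of the multiplicative characters of the field `Eis ⧸ span {π}` with `nrm π` elements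
is cyclic of order `nrm π - 1`, divisible by `3 ^ (k + 1)` (`MulChar.equivRingHom...`,
`IsCyclic` of the units; or count: `λ ↦ λ(g)` for a generator `g` of the units is a bijection onto the
roots of unity of order dividing `nrm π - 1`). `IsExp k λ e` says `λ ^ 3^(k-1) = μ ^ e` with `μ` the
character `x ↦ omega ^ (sy π x)` of order `3`; in the cyclic group the `3^(k-1)`-th roots of an
element `≠ 1` of order `3` are `3^(k-1)` elements, and all of them have order exactly `3 ^ k`.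
Existence of the exponent: `T2h16.TT.exists_exp`. -/
def S_CHC : Prop := ∀ (k : ℕ), 2 ≤ k → ∀ π : Eis, Adm k π →
  (∀ e : ZMod 3, e ≠ 0 → Nat.card {lam : MulChar (Eis ⧸ Ideal.span {π}) ℂ //
    orderOf lam = 3 ^ k ∧ IsExp k lam e} = 3 ^ (k - 1)) ∧
  (∀ lam : MulChar (Eis ⧸ Ideal.span {π}) ℂ, orderOf lam = 3 ^ k →
    ∃! e : EE, IsExp k lam (e : ZMod 3)) ∧
  Finite {lam : MulChar (Eis ⧸ Ideal.span {π}) ℂ // orderOf lam = 3 ^ k}

/-- CRI: the criterion for one member. Proof: `T2h16.TT.concl_of` (with `π j = σ j`,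
`e j = e (σ j)`, `hres` by `T2h16.TT.res_of`). `hodd`: if `9 ∣ ∏ π ^ e - 1`, then `∑ e ap(π) = 0`,
because `ap` is additive on products of elements `1` modulo `3` and `ap x = 0` for `x ≡ 1 (mod 9)`. -/
def S_CRI : Prop := ∀ (k : ℕ), 2 ≤ k → ∀ x : Fam, Mem k x → ∀ e : x.1 → EE,
  (∀ π : x.1, IsExp k (x.2 π) (e π : ZMod 3)) →
  (∀ v : x.1 → ZMod 3, (∀ j : x.1, ∑ i : x.1, (e i : ZMod 3) * sy (j : Eis) (i : Eis) * (v i - v j) = 0) →
    ∀ i j, v i = v j) →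
  ∑ π : x.1, (e π : ZMod 3) * ap π ≠ 0 → Nice k x

open Classical in
/-- FAM: from the sums over the places to the sums over the family. Proof: `π ↦` the place with
`gn = π` is a bijection from the admissible primes to `Qk f k` (`S_DIC`), preserving norms. The sum over
the family is the sum over the finite sets `P` of admissible primes of `NA P ^ (-s)` times the
sum over the families of characters, and each choice of exponents `e : P → EE` occurs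
`(3 ^ (k - 1)) ^ |P|` times (`S_CHC`). If `nV = 3` the kernel consists of the constants (`P ≠ ∅` because
`aS ≠ 0`; the constants are `3` elements of the kernel), so `Nice` holds by `S_CRI` and `S_SYMM`.
Summability: `S_TQL`. -/
def S_FAM : Prop := ∀ (K : Type) [Field K] [NumberField K] (f : Eis ≃+* 𝓞 K) (k : ℕ), 2 ≤ k →
  ∀ s : ℝ, 1 < s → s ≤ 2 →
  Summable (fun x : Fam => if Mem k x then cond x ^ (-s) else 0) ∧
  fsum k (fun _ => True) s = TQ (Qk f k) (2 * ((3 ^ (k - 1) : ℕ) : ℝ)) s ∧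
  SQ (Qk f k) (3 ^ (k - 1)) (fun P e => if nV (fun p q => sy (gn f p) (gn f q)) P e = 3 ∧
    aS (fun q => ap (gn f q)) P e ≠ 0 then 1 else 0) s ≤ fsum k (Nice k) s

open Classical in
/-- MAIN -/
def S_MAIN : Prop := ∀ k : ℕ, 2 ≤ k →
  (∀ s : ℝ, 1 < s → Summable (fun x : Fam => if Mem k x then cond x ^ (-s) else 0)) ∧
  ∀ ε : ℝ, 0 < ε → ∀ᶠ s : ℝ in 𝓝[>] 1, 0 < fsum k (fun _ => True) s ∧
    (2 / 3 * ∏' i : ℕ, (1 + ((3 : ℝ) ^ (i + 1))⁻¹)⁻¹ - ε) * fsum k (fun _ => True) s ≤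
      fsum k (Nice k) s

end Pool.Agent.T3h73.TK
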