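import Pool.Agent.T3h73.SD.T_AN1
import Pool.Agent.T3h73.TK.Stm

/-!
Task AN1Q of project TK (helper73), by helper62: two large linked variables, sums over subsets of `Q`.
Adapted from `Pool/Agent/T3h73/SD/T_AN1.lean`.
-/

set_option autoImplicit false

open NumberField IsDedekindDomain Filter Topology

namespace Pool.Agent.T3h73.TK.AN1Q

open Pool.Agent.T3h73.SL (Pl)
open Pool.Agent.T3h73.SD (ee NA gA syA SymSys trm S_BL)
open Pool.Agent.T3h73.SD.Fam
open Pool.Agent.T3h73.SD.MASS (one_le_NA)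
open Pool.Agent.T3h73.SD.AN1 (phi_sum dbl BLc inner glue glue_a glue_b glue_d glueE prod_split ee_add
  syA_empty_left syA_empty_right expo expo_mixed syA_symm)

section expo
variable {K : Type} [Field K] [NumberField K]

theorem disj_of_in {S : Finset (Pl K)} {Q : Set (Pl K)} (hQS : ∀ q ∈ Q, q ∉ S)
    {A : Finset (Pl K)} (hA : In Q A) : Disjoint A S :=
  Finset.disjoint_left.mpr fun q hq => hQS q (hA q hq)

/-- the conditions on the rest -/
def AdmQ {C : Type} (Q : Set (Pl K)) (W : Finset C) (Z : ℝ) (a b : C)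
    (r : {c : C // c ≠ a ∧ c ≠ b} → Finset (Pl K)) : Prop :=
  (∀ d, In Q (r d)) ∧ (∀ d d', d ≠ d' → Disjoint (r d) (r d')) ∧
    ∀ d, d.1 ∈ W ↔ Z < (NA (r d) : ℝ)

/-- the conditions on one of the two sets -/
def OkQ {D : Type} (Q : Set (Pl K)) (Z : ℝ) (r : D → Finset (Pl K)) (X : Finset (Pl K)) : Prop :=
  In Q X ∧ (∀ d, Disjoint X (r d)) ∧ Z < (NA X : ℝ)

theorem tup_glue {C : Type} (Q : Set (Pl K)) (W : Finset C) (Z : ℝ) {a b : C} (hab : a ≠ b)
    (haW : a ∈ W) (hbW : b ∈ W) (X Y : Finset (Pl K))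
    (r : {c : C // c ≠ a ∧ c ≠ b} → Finset (Pl K)) :
    (TupQ Q (glue a b X Y r) ∧ ∀ c, c ∈ W ↔ Z < (NA (glue a b X Y r c) : ℝ)) ↔
      AdmQ Q W Z a b r ∧ OkQ Q Z r X ∧ OkQ Q Z r Y ∧ Disjoint X Y := by
  have hba : b ≠ a := Ne.symm hab
  constructor
  · rintro ⟨⟨h1, h2⟩, h3⟩
    have ea := glue_a a b X Y r
    have eb := glue_b hab X Y r
    have ed : ∀ d : {c : C // c ≠ a ∧ c ≠ b}, glue a b X Y r d.1 = r d := fun d =>
      glue_d X Y r d.1 d.2.1 d.2.2
    refine ⟨⟨fun d => ?_, fun d d' hd => ?_, fun d => ?_⟩, ⟨?_, fun d => ?_, ?_⟩,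
      ⟨?_, fun d => ?_, ?_⟩, ?_⟩
    · rw [← ed d]; exact h1 d.1
    · rw [← ed d, ← ed d']; exact h2 d.1 d'.1 fun h => hd (Subtype.ext h)
    · rw [← ed d]; exact h3 d.1
    · have := h1 a; rwa [ea] at this
    · have := h2 a d.1 (Ne.symm d.2.1); rwa [ea, ed] at this
    · have := (h3 a).mp haW; rwa [ea] at this
    · have := h1 b; rwa [eb] at this
    · have := h2 b d.1 (Ne.symm d.2.2); rwa [eb, ed] at this
    · have := (h3 b).mp hbW; rwa [eb] at this
    · have := h2 a b hab; rwa [ea, eb] at this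
  · rintro ⟨⟨h1, h2, h3⟩, ⟨x1, x2, x3⟩, ⟨y1, y2, y3⟩, hXY⟩
    refine ⟨⟨fun c => ?_, fun c c' hc => ?_⟩, fun c => ?_⟩
    · by_cases ha : c = a
      · subst ha; rwa [glue_a]
      by_cases hb : c = b
      · subst hb; rwa [glue_b hab]
      rw [glue_d X Y r c ha hb]; exact h1 _
    · by_cases ha : c = a
      · subst ha
        by_cases hb' : c' = b
        · subst hb'; rwa [glue_a, glue_b hab]
        rw [glue_a, glue_d X Y r c' (Ne.symm hc) hb']; exact x2 _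
      by_cases hb : c = b
      · subst hb
        by_cases ha' : c' = a
        · subst ha'; rw [glue_a, glue_b hab]; exact hXY.symm
        rw [glue_b hab, glue_d X Y r c' ha' (Ne.symm hc)]; exact y2 _
      by_cases ha' : c' = a
      · subst ha'; rw [glue_a, glue_d X Y r c ha hb]; exact (x2 _).symm
      by_cases hb' : c' = b
      · subst hb'; rw [glue_b hab, glue_d X Y r c ha hb]; exact (y2 _).symm
      rw [glue_d X Y r c ha hb, glue_d X Y r c' ha' hb']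
      exact h2 _ _ fun h => hc (congrArg Subtype.val h)
    · by_cases ha : c = a
      · subst ha; rw [glue_a]; exact ⟨fun _ => x3, fun _ => haW⟩
      by_cases hb : c = b
      · subst hb; rw [glue_b hab]; exact ⟨fun _ => y3, fun _ => hbW⟩
      rw [glue_d X Y r c ha hb]; exact h3 ⟨c, ha, hb⟩

open Classical in
/-- the term of MWQ -/
noncomputable def FWQ {ℓ : ℕ} (Q : Set (Pl K)) {Λ : Type} (χ : Λ → Pl K → ZMod ℓ)
    (sy : Pl K → Pl K → ZMod ℓ) {C : Type} [Fintype C] (R : C → C → ZMod ℓ) (m : ℕ) (h : C → Λ)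
    (Z : ℝ) (W : Finset C) (s : ℝ) (A : C → Finset (Pl K)) : ℂ :=
  if TupQ Q A ∧ ∀ c, c ∈ W ↔ Z < (NA (A c) : ℝ) then trm χ sy R m h s A else 0

open Classical in
theorem fixed_r {ℓ : ℕ} (hℓ : ℓ.Prime) {S : Finset (Pl K)} {Q : Set (Pl K)}
    (hQS : ∀ q ∈ Q, q ∉ S) {Λ : Type} (χ : Λ → Pl K → ZMod ℓ)
    {sy : Pl K → Pl K → ZMod ℓ} (hsym : ∀ p q, p ∉ S → q ∉ S → p ≠ q → sy p q = sy q p)
    {C : Type} [Fintype C] (R : C → C → ZMod ℓ) (m : ℕ) (hm : 1 ≤ m) (h : C → Λ) (Z : ℝ)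
    (W : Finset C) {s : ℝ} {a b : C} (hab : a ≠ b)
    (haW : a ∈ W) (hbW : b ∈ W) (r : {c : C // c ≠ a ∧ c ≠ b} → Finset (Pl K)) :
    ∃ α β : Finset (Pl K) → ℂ, (∀ A, ‖α A‖ ≤ (NA A : ℝ) ^ (-s)) ∧
      (∀ A, ‖β A‖ ≤ (NA A : ℝ) ^ (-s)) ∧ (∀ A, α A ≠ 0 → Disjoint A S ∧ Z < (NA A : ℝ)) ∧
      (∀ A, β A ≠ 0 → Disjoint A S ∧ Z < (NA A : ℝ)) ∧ ∃ c : ℂ, ‖c‖ ≤ ∏ d, wt m s (r d) ∧
      ∀ p : Finset (Pl K) × Finset (Pl K), FWQ Q χ sy R m h Z W s (glue a b p.1 p.2 r) =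
        c * dbl sy (R a b + R b a) α β p := by
  have hm1 : (1 : ℝ) ≤ m := by exact_mod_cast hm
  have hwle : ∀ A : Finset (Pl K), wt m s A ≤ (NA A : ℝ) ^ (-s) := fun A =>
    mul_le_of_le_one_left (by positivity) (inv_le_one_of_one_le₀ (one_le_pow₀ hm1))
  set E0 := expo χ sy R h (glue a b ∅ ∅ r) with hE0
  set EX : Finset (Pl K) → ZMod ℓ := fun X => expo χ sy R h (glue a b X ∅ r) - E0 with hEX
  set EY : Finset (Pl K) → ZMod ℓ := fun Y => expo χ sy R h (glue a b ∅ Y r) - E0 with hEY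
  refine ⟨fun X => if OkQ Q Z r X then ((wt m s X : ℝ) : ℂ) * ee ℓ (EX X) else 0,
    fun Y => if OkQ Q Z r Y then ((wt m s Y : ℝ) : ℂ) * ee ℓ (EY Y) else 0, ?_, ?_, ?_, ?_,
    if AdmQ Q W Z a b r then ((∏ d, wt m s (r d) : ℝ) : ℂ) * ee ℓ E0 else 0, ?_, ?_⟩
  · intro A
    beta_reduce
    split_ifs
    · rw [norm_mul, norm_ee, mul_one, Complex.norm_real, Real.norm_eq_abs,
        abs_of_nonneg (wt_nonneg m s A)]
      exact hwle A
    · rw [norm_zero]; positivity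
  · intro A
    beta_reduce
    split_ifs
    · rw [norm_mul, norm_ee, mul_one, Complex.norm_real, Real.norm_eq_abs,
        abs_of_nonneg (wt_nonneg m s A)]
      exact hwle A
    · rw [norm_zero]; positivity
  · intro A hA
    have : OkQ Q Z r A := by
      by_contra hno
      simp only [if_neg hno, ne_eq, not_true_eq_false] at hA
    exact ⟨disj_of_in hQS this.1, this.2.2⟩
  · intro A hA
    have : OkQ Q Z r A := by
      by_contra hno
      simp only [if_neg hno, ne_eq, not_true_eq_false] at hA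
    exact ⟨disj_of_in hQS this.1, this.2.2⟩
  · have h0 : 0 ≤ ∏ d, wt m s (r d) := Finset.prod_nonneg fun d _ => wt_nonneg m s _
    split_ifs
    · rw [norm_mul, norm_ee, mul_one, Complex.norm_real, Real.norm_eq_abs, abs_of_nonneg h0]
    · rw [norm_zero]; exact h0
  · rintro ⟨X, Y⟩
    unfold FWQ dbl
    by_cases hc : AdmQ Q W Z a b r ∧ OkQ Q Z r X ∧ OkQ Q Z r Y ∧ Disjoint X Y
    · rw [if_pos ((tup_glue Q W Z hab haW hbW X Y r).mpr hc)]
      obtain ⟨h1, h2, h3, h4⟩ := hc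
      rw [if_pos h1, if_pos h4]
      simp only [if_pos h2, if_pos h3]
      have hexp : expo χ sy R h (glue a b X Y r) = E0 + EX X + EY Y +
          (R a b + R b a) * syA sy X Y := by
        rw [expo_mixed χ sy R h hab X Y r,
          syA_symm hsym (disj_of_in hQS h2.1) (disj_of_in hQS h3.1) h4]
        ring
      have htrm : trm χ sy R m h s (glue a b X Y r) =
          ((∏ c, wt m s (glue a b X Y r c) : ℝ) : ℂ) * ee ℓ (expo χ sy R h (glue a b X Y r)) := by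
        unfold trm expo wt
        rfl
      rw [htrm, hexp, prod_split hab (fun c => wt m s (glue a b X Y r c)), glue_a, glue_b hab,
        ee_add ℓ hℓ, ee_add ℓ hℓ, ee_add ℓ hℓ]
      have hd : ∏ d : {c : C // c ≠ a ∧ c ≠ b}, wt m s (glue a b X Y r d.1) =
          ∏ d, wt m s (r d) := by
        refine Finset.prod_congr rfl fun d _ => ?_
        rw [glue_d X Y r d.1 d.2.1 d.2.2]
      rw [hd]
      push_cast
      ring
    · rw [if_neg fun hh => hc ((tup_glue Q W Z hab haW hbW X Y r).mp hh)]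
      by_cases h1 : AdmQ Q W Z a b r
      · by_cases h2 : OkQ Q Z r X
        · by_cases h3 : OkQ Q Z r Y
          · have h4 : ¬ Disjoint X Y := fun h4 => hc ⟨h1, h2, h3, h4⟩
            simp only [if_neg h4, mul_zero]
          · simp only [if_neg h3]
            simp
        · simp only [if_neg h2]
          simp
      · simp only [if_neg h1, zero_mul]

end expo

open Classical in
theorem t_AN1Q (hBL : S_BL) : S_AN1Q := by
  intro ℓ hℓ K _ _ S 𝔪 Λ _ χ sy Q hsys hQS C _ R m h hm hR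
  obtain ⟨C₀, θ, hC₀, hθ, hbl⟩ := hBL ℓ hℓ K S 𝔪 Λ χ sy hsys
  obtain ⟨B, n, hB, hphi⟩ := phi_sum C₀ hC₀
  obtain ⟨C₁, hC₁, h1, -⟩ := one_var K m hm
  obtain ⟨C₂, hC₂, h2, -⟩ := one_var K 1 le_rfl
  set N := Fintype.card C with hN
  refine ⟨((N : ℝ) + 2 * n + 1) / θ, by positivity, fun κ hκ W a b haW hbW hRab => ?_⟩
  have hab : a ≠ b := by
    rintro rfl
    rw [hR a, add_zero] at hRab
    exact hRab rfl
  have hκθ : (N : ℝ) + 2 * n + 1 ≤ κ * θ := by rwa [div_le_iff₀ hθ] at hκ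
  have hκ0 : 0 < κ := lt_of_lt_of_le (by positivity) hκ
  -- the limit
  set P0 : ℝ := C₁ ^ N * (4 * C₀ * B ^ 2) with hP0
  have hlim : Tendsto (fun s : ℝ => P0 * (s - 1)) (𝓝[>] 1) (𝓝 0) := by
    have : Tendsto (fun s : ℝ => P0 * (s - 1)) (𝓝 1) (𝓝 (P0 * (1 - 1))) :=
      ((continuous_id.sub continuous_const).const_mul P0).tendsto 1
    rw [sub_self, mul_zero] at this
    exact this.mono_left nhdsWithin_le_nhds
  rw [tendsto_zero_iff_norm_tendsto_zero]
  refine squeeze_zero' (Eventually.of_forall fun s => norm_nonneg _) ?_ hlim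
  have hev : ∀ᶠ s : ℝ in 𝓝[>] 1, s ≤ 2 :=
    (eventually_le_nhds (show (1 : ℝ) < 2 by norm_num)).filter_mono nhdsWithin_le_nhds
  filter_upwards [self_mem_nhdsWithin, hev] with s hs hs2
  have hs1 : 1 < s := hs
  have hs0 : 0 < s - 1 := by linarith
  set u : ℝ := 1 / (s - 1) with hu
  have hu1 : 1 ≤ u := by rw [hu, le_div_iff₀ hs0]; linarith
  have hu0 : 0 < u := by linarith
  have hsu : (s - 1) * u = 1 := by rw [hu]; field_simp
  set Z : ℝ := u ^ κ with hZ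
  have hZ1 : 1 ≤ Z := Real.one_le_rpow hu1 hκ0.le
  obtain ⟨hb1, hb2⟩ := h1 s hs1 hs2
  have hsum1 : Summable (fun A : Finset (Pl K) => (NA A : ℝ) ^ (-s)) := by
    refine (h2 s hs1 hs2).1.congr fun A => ?_
    unfold wt
    rw [Nat.cast_one, one_pow, inv_one, one_mul]
  obtain ⟨hφ1, hφ2⟩ := hphi (s - 1) hs0 (by linarith)
  set Φ : ℝ := ∑' i : ℕ, ((2 : ℝ) ^ i) ^ (-(s - 1)) * (3 + i) ^ C₀ with hΦ
  have hΦ0 : 0 ≤ Φ := tsum_nonneg fun i => by positivity
  -- summability of the terms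
  have hFW : Summable (FWQ Q χ sy R m h Z W s) := by
    refine Summable.of_norm_bounded
      (pi_sum (fun _ : C => wt m s) (fun _ A => wt_nonneg m s A) (fun _ => hb1)).1 fun A => ?_
    unfold FWQ
    split_ifs
    · rw [norm_trm]
    · rw [norm_zero]; exact Finset.prod_nonneg fun c _ => wt_nonneg m s _
  have hFW' : Summable (fun p => FWQ Q χ sy R m h Z W s (glueE hab p)) :=
    (Equiv.summable_iff (glueE hab)).mpr hFW
  have hMW : MWQ Q χ sy R m h Z W s = ∑' r : {c : C // c ≠ a ∧ c ≠ b} → Finset (Pl K),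
      ∑' p : Finset (Pl K) × Finset (Pl K), FWQ Q χ sy R m h Z W s (glueE hab (r, p)) := by
    rw [← hFW'.tsum_prod, Equiv.tsum_eq (glueE hab) (FWQ Q χ sy R m h Z W s)]
    rfl
  set I : ℝ := (4 * C₀ * Z ^ (-θ)) * Φ ^ 2 with hI
  have hI0 : 0 ≤ I := by positivity
  obtain ⟨hp1, hp2⟩ := pi_sum (fun _ : {c : C // c ≠ a ∧ c ≠ b} => wt (K := K) m s)
    (fun _ A => wt_nonneg m s A) (fun _ => hb1)
  have hMWle : ‖MWQ Q χ sy R m h Z W s‖ ≤
      (∑' r : {c : C // c ≠ a ∧ c ≠ b} → Finset (Pl K), ∏ d, wt m s (r d)) * I := by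
    rw [hMW, ← tsum_mul_right]
    refine tsum_of_norm_bounded (hp1.mul_right I).hasSum fun r => ?_
    obtain ⟨α, β, ha1, hb1', ha2, hb2', c, hc, hcp⟩ := fixed_r hℓ hQS χ hsys.symm R m hm h Z W
      (s := s) hab haW hbW r
    have e : ∑' p : Finset (Pl K) × Finset (Pl K), FWQ Q χ sy R m h Z W s (glueE hab (r, p)) =
        c * ∑' p, dbl sy (R a b + R b a) α β p := by
      rw [← tsum_mul_left]
      exact tsum_congr fun p => hcp p
    rw [e, norm_mul]
    have hin := inner hC₀ hθ hbl hRab hs1 hZ1 hsum1 ha1 hb1' ha2 hb2' hφ1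
    exact mul_le_mul hc hin (norm_nonneg _) (Finset.prod_nonneg fun d _ => wt_nonneg m s _)
  -- the sum over the rest
  have hum : u ^ (1 / (m : ℝ)) ≤ u := by
    have hm1 : (1 : ℝ) ≤ m := by exact_mod_cast hm
    calc u ^ (1 / (m : ℝ)) ≤ u ^ (1 : ℝ) := Real.rpow_le_rpow_of_exponent_le hu1
          (by rw [div_le_one (by linarith)]; exact hm1)
      _ = u := Real.rpow_one u
  have hrest : ∑' r : {c : C // c ≠ a ∧ c ≠ b} → Finset (Pl K), ∏ d, wt m s (r d) ≤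
      (C₁ * u) ^ N := by
    refine hp2.trans ?_
    rw [Finset.prod_const]
    have h3 : ∑' A : Finset (Pl K), wt m s A ≤ C₁ * u :=
      hb2.trans (mul_le_mul_of_nonneg_left hum (by linarith))
    refine (pow_le_pow_left₀ (tsum_nonneg fun A => wt_nonneg m s A) h3 _).trans ?_
    refine pow_le_pow_right₀ ?_ ?_
    · exact one_le_mul_of_one_le_of_one_le hC₁ hu1
    · rw [Finset.card_univ]
      exact Fintype.card_subtype_le _
  have hZθ : Z ^ (-θ) ≤ u ^ (-((N : ℝ) + 2 * n + 1)) := by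
    rw [hZ, ← Real.rpow_mul hu0.le]
    refine Real.rpow_le_rpow_of_exponent_le hu1 ?_
    linarith
  have hIle : I ≤ (4 * C₀ * u ^ (-((N : ℝ) + 2 * n + 1))) * (B * u ^ n) ^ 2 := by
    rw [hI]
    refine mul_le_mul (mul_le_mul_of_nonneg_left hZθ (by positivity))
      (pow_le_pow_left₀ hΦ0 hφ2 2) (by positivity) (by positivity)
  have hun : u ^ N * (u ^ (-((N : ℝ) + 2 * n + 1)) * (u ^ n) ^ 2) = s - 1 := by
    rw [← Real.rpow_natCast u N, ← Real.rpow_natCast u n, ← Real.rpow_natCast (u ^ (n : ℝ)) 2,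
      ← Real.rpow_mul hu0.le, ← Real.rpow_add hu0, ← Real.rpow_add hu0]
    have : (N : ℝ) + (-((N : ℝ) + 2 * n + 1) + n * ((2 : ℕ) : ℝ)) = -1 := by push_cast; ring
    rw [this, Real.rpow_neg_one, hu, one_div, inv_inv]
  calc ‖MWQ Q χ sy R m h Z W s‖
      ≤ (C₁ * u) ^ N * ((4 * C₀ * u ^ (-((N : ℝ) + 2 * n + 1))) * (B * u ^ n) ^ 2) :=
        hMWle.trans (mul_le_mul hrest hIle hI0 (by positivity))
    _ = P0 * (u ^ N * (u ^ (-((N : ℝ) + 2 * n + 1)) * (u ^ n) ^ 2)) := by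
        rw [mul_pow C₁ u N, mul_pow B (u ^ n) 2, hP0]
        generalize u ^ (-((N : ℝ) + 2 * n + 1)) = x1
        generalize u ^ n = x2
        generalize u ^ N = x3
        generalize C₁ ^ N = x4
        ring
    _ = P0 * (s - 1) := by rw [hun]

end Pool.Agent.T3h73.TK.AN1Q
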