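import Pool.Agent.T3h73.TK.Stm

/-!
Task AN2Q of project TK (helper73): families with less than `M` large sets, by helper84.
-/

set_option autoImplicit false
set_option linter.all false

open NumberField IsDedekindDomain Filter Topology

namespace Pool.Agent.T3h73.TK.AN2Q

open Pool.Agent.T3h73.SL (Pl)
open Pool.Agent.T3h73.SD (NA gA trm)
open Pool.Agent.T3h73.SD.Fam

open Classical in
theorem norm_MWQ_le {K : Type} [Field K] [NumberField K] {ℓ : ℕ} (Q : Set (Pl K)) {Λ : Type}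
    (χ : Λ → Pl K → ZMod ℓ) (sy : Pl K → Pl K → ZMod ℓ) {C : Type} [Fintype C]
    (R : C → C → ZMod ℓ) (m : ℕ) (h : C → Λ) (Z : ℝ) (W : Finset C) (s : ℝ)
    (t : C → Finset (Pl K) → ℝ) (ht0 : ∀ c A, 0 ≤ t c A) (ht : ∀ c, Summable (t c))
    (hle : ∀ c A, In Q A → (c ∈ W ↔ Z < (NA A : ℝ)) → wt m s A ≤ t c A) :
    ‖MWQ Q χ sy R m h Z W s‖ ≤ ∏ c, ∑' A, t c A := by
  obtain ⟨h1, h2⟩ := pi_sum t ht0 ht
  refine le_trans ?_ h2
  unfold MWQ
  refine tsum_of_norm_bounded h1.hasSum fun A => ?_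
  split_ifs with hA
  · rw [norm_trm]
    exact Finset.prod_le_prod (fun c _ => wt_nonneg m s _) fun c _ => hle c (A c) (hA.1.1 c) (hA.2 c)
  · rw [norm_zero]
    exact Finset.prod_nonneg fun c _ => ht0 c _

open Classical in
theorem t_AN2Q (hMASSQ : S_MASSQ) (hTQL : S_TQL) : S_AN2Q := by
  intro ℓ hℓ K _ _ Q n hn hD Λ χ sy C _ R m M h hm κ hκ W hW
  obtain ⟨C₁, hC₁, -, h2⟩ := one_var K m hm
  have hm0 : (0 : ℝ) < m := by exact_mod_cast hm
  have hn0 : (0 : ℝ) < n := by exact_mod_cast hn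
  have hM1 : 1 ≤ M := by omega
  have hM0 : (0 : ℝ) < M := by exact_mod_cast hM1
  set ε : ℝ := 1 / (2 * m * n * (M + 1)) with hε
  have hε0 : 0 < ε := by positivity
  obtain ⟨C₂, s₀, hC₂, hs₀, h1⟩ := hMASSQ K Q n hn hD m 0 ε hm le_rfl hε0
  obtain ⟨hT1, hT2⟩ := hTQL K Q n hn hD ((M : ℝ) / m) (by positivity)
  have hT3 := hT2 ε hε0
  set D : ℝ := C₁ + C₂ with hDd
  have hD0 : 0 ≤ D := by rw [hDd]; linarith
  set e : ℝ := 1 / ((m : ℝ) * n) - M * ε with he
  have he0 : 0 < e := by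
    have h3 : M * ε < 1 / ((m : ℝ) * n) := by
      rw [hε, mul_one_div, div_lt_div_iff₀ (by positivity) (by positivity)]
      nlinarith [mul_pos hm0 hn0]
    rw [he]
    linarith
  have hlim := (lim_log κ e hκ he0 (Fintype.card C)).const_mul (D ^ (Fintype.card C))
  rw [mul_zero] at hlim
  rw [tendsto_zero_iff_norm_tendsto_zero]
  refine squeeze_zero' (Eventually.of_forall fun s => norm_nonneg _) ?_ hlim
  have hev : ∀ᶠ s : ℝ in 𝓝[>] 1, s ≤ 2 :=
    (eventually_le_nhds (show (1 : ℝ) < 2 by norm_num)).filter_mono nhdsWithin_le_nhds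
  have hev2 : ∀ᶠ s : ℝ in 𝓝[>] 1, s < s₀ :=
    (eventually_lt_nhds hs₀).filter_mono nhdsWithin_le_nhds
  filter_upwards [self_mem_nhdsWithin, hev, hev2, hT3] with s hs hs2 hss hTs
  have hs1 : 1 < s := hs
  have hs0 : 0 < s - 1 := by linarith
  set u : ℝ := 1 / (s - 1) with hu
  have hu1 : 1 ≤ u := by rw [hu, le_div_iff₀ hs0]; linarith
  have hu0 : 0 < u := by linarith
  set Z : ℝ := u ^ κ with hZ
  have hZ1 : 1 ≤ Z := Real.one_le_rpow hu1 hκ.le
  have hlZ : Real.log Z = κ * Real.log u := by rw [hZ, Real.log_rpow hu0]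
  have hlu : 0 ≤ Real.log u := Real.log_nonneg hu1
  obtain ⟨hb1, hb2⟩ := h1 s hs1 hss
  obtain ⟨hc1, hc2⟩ := h2 Z hZ1 s hs1
  rw [hlZ] at hc2
  have hfun : (fun A : Finset (Pl K) => if In Q A then
      ((m : ℝ) ^ A.card)⁻¹ * (NA A : ℝ) ^ (-s) * gA A ^ (0 : ℝ) else 0) =
      fun A => if In Q A then wt m s A else 0 := by
    funext A
    split_ifs
    · rw [Real.rpow_zero, mul_one]
      rfl
    · rfl
  rw [hfun] at hb1 hb2
  set t : C → Finset (Pl K) → ℝ := fun c A =>
    if c ∈ W then (if In Q A then wt m s A else 0) else (if (NA A : ℝ) ≤ Z then wt m s A else 0)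
    with ht
  have ht0 : ∀ c A, 0 ≤ t c A := by
    intro c A
    simp only [ht]
    split_ifs
    · exact wt_nonneg m s A
    · exact le_rfl
    · exact wt_nonneg m s A
    · exact le_rfl
  have hts : ∀ c, Summable (t c) := by
    intro c
    by_cases hc : c ∈ W
    · simpa only [ht, if_pos hc] using hb1
    · simpa only [ht, if_neg hc] using hc1
  have hb := norm_MWQ_le Q χ sy R m h Z W s t ht0 hts (by
    intro c A hQA hcA
    simp only [ht]
    by_cases hc : c ∈ W
    · rw [if_pos hc, if_pos hQA]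
    · rw [if_neg hc, if_pos (not_lt.mp fun hlt => hc (hcA.mpr hlt))])
  have hcu : 0 ≤ κ * Real.log u := by positivity
  have hcu1 : 1 ≤ 1 + κ * Real.log u := by linarith
  set α : ℝ := 1 / ((m : ℝ) * n) + ε with hα
  have hα0 : 0 < α := by positivity
  -- the product
  have hprod : ∏ c, ∑' A, t c A ≤
      ∏ c, (D * (1 + κ * Real.log u)) * (if c ∈ W then u ^ α else 1) := by
    refine Finset.prod_le_prod (fun c _ => tsum_nonneg (ht0 c)) fun c _ => ?_
    by_cases hc : c ∈ W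
    · simp only [ht, if_pos hc]
      refine hb2.trans ?_
      have h3 : C₂ ≤ D := by rw [hDd]; linarith
      have h4 : D ≤ D * (1 + κ * Real.log u) := le_mul_of_one_le_right hD0 hcu1
      exact mul_le_mul_of_nonneg_right (h3.trans h4) (by positivity)
    · simp only [ht, if_neg hc, mul_one]
      refine hc2.trans (mul_le_mul_of_nonneg_right ?_ (by linarith))
      rw [hDd]
      linarith
  have hprod2 : ∏ c, (D * (1 + κ * Real.log u)) * (if c ∈ W then u ^ α else 1) =
      D ^ (Fintype.card C) * (1 + κ * Real.log u) ^ (Fintype.card C) * (u ^ α) ^ W.card := by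
    rw [Finset.prod_mul_distrib, Finset.prod_const, mul_pow, Finset.card_univ]
    congr 1
    rw [Finset.prod_ite_mem, Finset.univ_inter, Finset.prod_const]
  have hW' : (u ^ α) ^ W.card ≤ u ^ ((M : ℝ) / m / n - ε) * (s - 1) ^ e := by
    have h3 : (u ^ α) ^ W.card ≤ (u ^ α) ^ (M - 1) :=
      pow_le_pow_right₀ (Real.one_le_rpow hu1 hα0.le) (by omega)
    refine h3.trans (le_of_eq ?_)
    have h4 : (s - 1) ^ e = u ^ (-e) := by
      rw [hu, one_div (s - 1), Real.inv_rpow hs0.le, Real.rpow_neg hs0.le, inv_inv]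
    rw [h4, ← Real.rpow_natCast, ← Real.rpow_mul hu0.le, ← Real.rpow_add hu0]
    congr 1
    rw [Nat.cast_sub hM1, hα, he]
    push_cast
    field_simp
    ring
  set T : ℝ := TQ Q ((M : ℝ) / m) s with hT
  have hTpos : 0 < T := by
    have := (hT1 s hs1 hs2).2
    linarith
  rw [norm_div, Complex.norm_real, Real.norm_eq_abs, abs_of_pos hTpos, div_le_iff₀ hTpos]
  have hv : 0 ≤ D ^ (Fintype.card C) * ((s - 1) ^ e * (1 + κ * Real.log u) ^ (Fintype.card C)) := by
    positivity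
  calc ‖MWQ Q χ sy R m h Z W s‖
      ≤ D ^ (Fintype.card C) * (1 + κ * Real.log u) ^ (Fintype.card C) * (u ^ α) ^ W.card := by
        rw [← hprod2]
        exact hb.trans hprod
    _ ≤ D ^ (Fintype.card C) * (1 + κ * Real.log u) ^ (Fintype.card C) *
        (u ^ ((M : ℝ) / m / n - ε) * (s - 1) ^ e) :=
        mul_le_mul_of_nonneg_left hW' (by positivity)
    _ = D ^ (Fintype.card C) * ((s - 1) ^ e * (1 + κ * Real.log u) ^ (Fintype.card C)) *
        u ^ ((M : ℝ) / m / n - ε) := by ring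
    _ ≤ _ := mul_le_mul_of_nonneg_left hTs hv

end Pool.Agent.T3h73.TK.AN2Q
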