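import Pool.Agent.T3h73.TK.Stm

/-! Task ANQ of project TK: the asymptotics of the coloured sums. Adaptation of `SD/T_AN.lean`. -/

set_option autoImplicit false
set_option linter.all false

open NumberField IsDedekindDomain Filter Topology

namespace Pool.Agent.T3h73.TK.ANQ

open Pool.Agent.T3h73.SL (Pl)
open Pool.Agent.T3h73.TK

theorem t_ANQ (hTUPQ : S_TUPQ) (hAN1Q : S_AN1Q) (hAN2Q : S_AN2Q) (hAN3Q : S_AN3Q)
    (hTQL : S_TQL) : S_ANQ := by
  classical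
  intro ℓ hℓ K _ _ S 𝔪 Λ _ χ sy Q n ι _ Ψ hsq C _ R m M h hm hM hR hU
  have hsys := hsq.sys
  have hn := hsq.pos
  have hdens := hsq.dens
  obtain ⟨κ₀, hκ₀, h1⟩ := hAN1Q ℓ hℓ K S 𝔪 Λ χ sy Q hsys hsq.disj C R m h hm hR
  have hT := (hTQL K Q n hn hdens ((M : ℝ) / m) (by positivity)).1
  have h2 : ∀ᶠ s : ℝ in 𝓝[>] 1, 1 < s ∧ s < 2 := Ioo_mem_nhdsGT one_lt_two
  let L : Finset C → ℂ := fun W => if (∀ a ∈ W, ∀ b ∈ W, R a b + R b a = 0) ∧ W.card = M ∧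
    (∀ a ∈ W, h a = 0) then 1 else 0
  have hW : ∀ W : Finset C, Tendsto (fun s : ℝ => MWQ Q χ sy R m h ((1 / (s - 1)) ^ κ₀) W s /
      ((TQ Q ((M : ℝ) / m) s : ℝ) : ℂ)) (𝓝[>] 1) (𝓝 (L W)) := by
    intro W
    by_cases hl : ∀ a ∈ W, ∀ b ∈ W, R a b + R b a = 0
    · rcases (hU W hl).lt_or_eq with hlt | heq
      · have e : L W = 0 := if_neg fun hh => by omega
        rw [e]
        exact hAN2Q ℓ hℓ K Q n hn hdens Λ χ sy C R m M h hm κ₀ hκ₀ W hlt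
      · have e : L W = if ∀ a ∈ W, h a = 0 then 1 else 0 := by
          show (if _ then _ else _) = _
          by_cases h0 : ∀ a ∈ W, h a = 0
          · rw [if_pos h0, if_pos ⟨hl, heq, h0⟩]
          · rw [if_neg h0, if_neg fun hh => h0 hh.2.2]
        rw [e]
        exact hAN3Q ℓ hℓ K S 𝔪 Λ χ sy Q n ι Ψ hsq C R m M h hm hM hR hU κ₀ hκ₀ W heq hl
    · have e : L W = 0 := if_neg fun hh => hl hh.1
      rw [e]
      push Not at hl
      obtain ⟨a, ha, b, hb, hab⟩ := hl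
      have h3 := (h1 κ₀ le_rfl W a b ha hb hab).norm
      rw [norm_zero] at h3
      refine squeeze_zero_norm' ?_ h3
      filter_upwards [h2] with s hs
      have hT1 := (hT s hs.1 hs.2.le).2
      have hTp : 0 < TQ Q ((M : ℝ) / m) s := lt_of_lt_of_le one_pos hT1
      rw [norm_div, Complex.norm_real, Real.norm_eq_abs, abs_of_pos hTp]
      exact div_le_self (norm_nonneg _) hT1
  have hsum : Tendsto (fun s : ℝ => ∑ W : Finset C, MWQ Q χ sy R m h ((1 / (s - 1)) ^ κ₀) W s /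
      ((TQ Q ((M : ℝ) / m) s : ℝ) : ℂ)) (𝓝[>] 1) (𝓝 (∑ W : Finset C, L W)) :=
    tendsto_finsetSum _ fun W _ => hW W
  have hL : ∑ W : Finset C, L W = (Nat.card {U : Finset C //
      (∀ a ∈ U, ∀ b ∈ U, R a b + R b a = 0) ∧ U.card = M ∧ ∀ a ∈ U, h a = 0} : ℂ) := by
    rw [Finset.sum_boole, Nat.card_eq_fintype_card, Fintype.card_subtype]
  rw [hL] at hsum
  refine hsum.congr' ?_
  filter_upwards [h2] with s hs
  rw [hTUPQ ℓ hℓ K Q Λ χ sy C R m h hm hR s ((1 / (s - 1)) ^ κ₀) hs.1 hs.2.le, Finset.sum_div]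

end Pool.Agent.T3h73.TK.ANQ
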