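import Pool.Agent.T3h73.TK.Stm
import Pool.Agent.T2h16.TT.Cri

/-!
# CHC: the characters with a given exponent
-/

set_option autoImplicit false
set_option linter.all false

namespace Pool.Agent.T3h73.TK.CHC

open Pool.Agent.Y715.T
open Pool.Agent.Y715.T.St (Eis nrm omega)
open Pool.Agent.Y715.T.Rec (Pr cs)
open Pool.Agent.Y715.T.Pf (omega_eq)
open T2h16.TT (adm_pr exists_exp)
open T2h16.TT.St (Adm IsExp sy)
open Pool.Agent.T3h73.TK

variable {k : ℕ} {π : Eis}

lemma om3 : omega ^ 3 = 1 := by rw [omega_eq]; exact Fin.toC_w_cube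

lemma om_prim : IsPrimitiveRoot omega 3 := by rw [omega_eq]; exact Fin.prim_w

lemma om_inj {a b : ZMod 3} (h : omega ^ a.val = omega ^ b.val) : a = b :=
  ZMod.val_injective 3 (om_prim.pow_inj (ZMod.val_lt a) (ZMod.val_lt b) h)

lemma om_neg (a : ZMod 3) : omega ^ (-a).val = (omega ^ a.val)⁻¹ := by
  apply eq_inv_of_mul_eq_one_left
  rw [← pow_add]
  have h7 : 3 ∣ (-a).val + a.val := by
    rw [← ZMod.natCast_eq_zero_iff]
    push_cast
    rw [ZMod.natCast_zmod_val, ZMod.natCast_zmod_val]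
    ring
  obtain ⟨d, hd⟩ := h7
  rw [hd, pow_mul, om3, one_pow]

lemma inv_exp {lam : MulChar (Eis ⧸ Ideal.span {π}) ℂ} {e : ZMod 3} (h : IsExp k lam e) :
    IsExp k lam⁻¹ (-e) := by
  intro x hx
  rw [MulChar.inv_apply_eq_inv', inv_pow, h x hx, neg_mul, om_neg]

lemma pow_ne {lam : MulChar (Eis ⧸ Ideal.span {π}) ℂ} (hk : 2 ≤ k) (hl : orderOf lam = 3 ^ k) :
    lam ^ 3 ^ (k - 1) ≠ 1 := by
  intro h1
  have h2 := orderOf_dvd_of_pow_eq_one h1
  rw [hl] at h2
  have h3 := (Nat.pow_dvd_pow_iff_le_right (by norm_num : 1 < 3)).1 h2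
  omega

lemma exp_unique (hk : 2 ≤ k) (hπ : Pr π) {lam : MulChar (Eis ⧸ Ideal.span {π}) ℂ}
    (hl : orderOf lam = 3 ^ k) {e e' : ZMod 3} (h : IsExp k lam e) (h' : IsExp k lam e') :
    e = e' := by
  obtain ⟨x, hx, hx1⟩ := Ex.exists_ne hπ.prime (pow_ne hk hl)
  have h1 : omega ^ (e * sy π x).val ≠ 1 := by rw [← h x hx]; exact hx1
  have h2 : sy π x ≠ 0 := by
    intro h0
    apply h1
    rw [h0, mul_zero, ZMod.val_zero, pow_zero]
  have h3 : e * sy π x = e' * sy π x := om_inj ((h x hx).symm.trans (h' x hx))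
  haveI : Fact (Nat.Prime 3) := ⟨Nat.prime_three⟩
  exact mul_right_cancel₀ h2 h3

lemma fin_mul (hπ : Prime π) : Finite (MulChar (Eis ⧸ Ideal.span {π}) ℂ) := by
  letI := Rec.fld hπ
  letI := Rec.ftp hπ
  infer_instance

/-- the number of the characters of order `3 ^ k` -/
lemma card_ord (hk : 2 ≤ k) (h : Adm k π) :
    Nat.card {lam : MulChar (Eis ⧸ Ideal.span {π}) ℂ // orderOf lam = 3 ^ k} =
      2 * 3 ^ (k - 1) := by
  classical
  have hπ := h.1
  letI := Rec.fld hπ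
  letI := Rec.ftp hπ
  haveI : Finite (MulChar (Eis ⧸ Ideal.span {π}) ℂ) := fin_mul hπ
  letI : Fintype (MulChar (Eis ⧸ Ideal.span {π}) ℂ) := Fintype.ofFinite _
  haveI : NeZero (Monoid.exponent (Eis ⧸ Ideal.span {π})ˣ) :=
    ⟨Monoid.exponent_ne_zero_of_finite⟩
  obtain ⟨eqv⟩ := MulChar.mulEquiv_units (Eis ⧸ Ideal.span {π}) ℂ
  haveI hcyc : IsCyclic (MulChar (Eis ⧸ Ideal.span {π}) ℂ) :=
    isCyclic_of_surjective eqv.symm eqv.symm.surjective
  have hcard : Fintype.card (MulChar (Eis ⧸ Ideal.span {π}) ℂ) =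
      Fintype.card (Rec.FF π) - 1 := by
    rw [← Nat.card_eq_fintype_card, Nat.card_congr eqv.toEquiv, Nat.card_units,
      Nat.card_eq_fintype_card]
  have hc : (Fintype.card (Rec.FF π) : ℤ) = nrm π := Rec.card_FF hπ
  have hpos : 0 < Fintype.card (Rec.FF π) := Fintype.card_pos
  have hd : 3 ^ k ∣ Fintype.card (MulChar (Eis ⧸ Ideal.span {π}) ℂ) := by
    rw [hcard]
    have h1 : ((3 ^ k : ℕ) : ℤ) ∣ ((Fintype.card (Rec.FF π) - 1 : ℕ) : ℤ) := by
      rw [Nat.cast_sub hpos, hc]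
      push_cast
      exact dvd_trans (pow_dvd_pow 3 (Nat.le_succ k)) h.2.2
    exact_mod_cast h1
  have h2 := IsCyclic.card_orderOf_eq_totient hd
  rw [Nat.card_eq_fintype_card, Fintype.card_subtype, h2,
    Nat.totient_prime_pow Nat.prime_three (by omega)]
  ring

theorem t_CHC : S_CHC := by
  intro k hk π hadm
  have hpr : Pr π := adm_pr hk hadm
  haveI hfin : Finite (MulChar (Eis ⧸ Ideal.span {π}) ℂ) := fin_mul hpr.prime
  refine ⟨?_, ?_, inferInstance⟩
  · intro e he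
    -- the two halves
    have hsum : Nat.card {lam : MulChar (Eis ⧸ Ideal.span {π}) ℂ // orderOf lam = 3 ^ k} =
        Nat.card {lam : MulChar (Eis ⧸ Ideal.span {π}) ℂ // orderOf lam = 3 ^ k ∧
          IsExp k lam e} +
        Nat.card {lam : MulChar (Eis ⧸ Ideal.span {π}) ℂ // orderOf lam = 3 ^ k ∧
          IsExp k lam (-e)} := by
      rw [← Nat.card_sum]
      have hne : e ≠ -e := (by decide : ∀ x : ZMod 3, x ≠ 0 → x ≠ -x) e he
      refine (Nat.card_congr (Equiv.ofBijective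
        (fun z : {lam : MulChar (Eis ⧸ Ideal.span {π}) ℂ // orderOf lam = 3 ^ k ∧
          IsExp k lam e} ⊕ {lam : MulChar (Eis ⧸ Ideal.span {π}) ℂ // orderOf lam = 3 ^ k ∧
          IsExp k lam (-e)} => (Sum.elim (fun l => ⟨l.1, l.2.1⟩) (fun l => ⟨l.1, l.2.1⟩) z :
          {lam : MulChar (Eis ⧸ Ideal.span {π}) ℂ // orderOf lam = 3 ^ k})) ⟨?_, ?_⟩)).symm
      · rintro (⟨a, ha⟩ | ⟨a, ha⟩) (⟨b, hb⟩ | ⟨b, hb⟩) hab
        · simp only [Sum.elim_inl, Subtype.mk.injEq] at hab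
          subst hab
          rfl
        · simp only [Sum.elim_inl, Sum.elim_inr, Subtype.mk.injEq] at hab
          subst hab
          exact absurd (exp_unique hk hpr ha.1 ha.2 hb.2) hne
        · simp only [Sum.elim_inl, Sum.elim_inr, Subtype.mk.injEq] at hab
          subst hab
          exact absurd (exp_unique hk hpr ha.1 hb.2 ha.2) hne
        · simp only [Sum.elim_inr, Subtype.mk.injEq] at hab
          subst hab
          rfl
      · rintro ⟨a, ha⟩
        obtain ⟨c, hc, hce⟩ := exists_exp hk hpr ha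
        rcases (by decide : ∀ x y : ZMod 3, x ≠ 0 → y ≠ 0 → y = x ∨ y = -x) e c he hc with
          h1 | h1
        · subst h1
          exact ⟨Sum.inl ⟨a, ha, hce⟩, rfl⟩
        · subst h1
          exact ⟨Sum.inr ⟨a, ha, hce⟩, rfl⟩
    have hinv : Nat.card {lam : MulChar (Eis ⧸ Ideal.span {π}) ℂ // orderOf lam = 3 ^ k ∧
          IsExp k lam e} =
        Nat.card {lam : MulChar (Eis ⧸ Ideal.span {π}) ℂ // orderOf lam = 3 ^ k ∧
          IsExp k lam (-e)} := by
      refine Nat.card_congr ⟨fun l => ⟨l.1⁻¹, by rw [orderOf_inv]; exact l.2.1, inv_exp l.2.2⟩,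
        fun l => ⟨l.1⁻¹, by rw [orderOf_inv]; exact l.2.1, ?_⟩, ?_, ?_⟩
      · have h1 := inv_exp l.2.2
        rwa [neg_neg] at h1
      · intro l
        exact Subtype.ext (inv_inv _)
      · intro l
        exact Subtype.ext (inv_inv _)
    rw [card_ord hk hadm, ← hinv] at hsum
    omega
  · intro lam hl
    obtain ⟨c, hc, hce⟩ := exists_exp hk hpr hl
    refine ⟨⟨c, hc⟩, hce, ?_⟩
    rintro ⟨d, hd⟩ hde
    exact Subtype.ext (exp_unique hk hpr hl hde hce)

end Pool.Agent.T3h73.TK.CHC
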