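import Pool.Agent.T3h73.TK.Stm2
import Pool.Agent.Y715.T.RecG
import Pool.Agent.Y715.T.Rs

/-!
# Project TK (helper73, MP_a43263), task CHR: the ray class characters
-/

set_option autoImplicit false
set_option linter.all false

open NumberField IsDedekindDomain Filter Topology

namespace Pool.Agent.T3h73.TK.CHR

open Pool.Agent.T3h73.SL (Pl)
open Pool.Agent.Y773.G (IsModChar)
open Pool.Agent.T3h73.SD (ee)
open Pool.Agent.Y715.T.St (Eis nrm omega)
open T2h16.TT.St (sy)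
open Pool.Agent.Y692.QS (Ei nr ns ep nr_mul nr_zero_iff nr_one nr_nonneg nr_ns ns_mul ns_one ns_unit ns_fix mul_star
  int_dvd mul_re mul_im nr_int nr_star)
open Pool.Agent.Y715.T.Rec (cs)
open Pool.Agent.Y715.T.Rs (card_quo)

/-! ### roots of unity -/

lemma ee_eq (ℓ : ℕ) [NeZero ℓ] (a : ZMod ℓ) : ee ℓ a = ZMod.stdAddChar a := by
  rw [ZMod.stdAddChar_apply, ZMod.toCircle_apply]
  rfl

lemma ee_add (a b : ZMod 3) : ee 3 (a + b) = ee 3 a * ee 3 b := by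
  rw [ee_eq, ee_eq, ee_eq, AddChar.map_add_eq_mul]

lemma ee_zero : ee 3 0 = 1 := by
  rw [ee_eq, AddChar.map_zero_eq_one]

lemma ee_ne_one {a : ZMod 3} (ha : a ≠ 0) : ee 3 a ≠ 1 := by
  rw [ee_eq]
  intro h
  apply ha
  have := ZMod.injective_stdAddChar (N := 3) (a₁ := a) (a₂ := 0) (by
    rw [h, AddChar.map_zero_eq_one])
  exact this

lemma ee_cube (a : ZMod 3) : ee 3 a ^ 3 = 1 := by
  have h : a + a + a = 0 := by
    revert a
    decide
  rw [pow_succ, pow_two, ← ee_add, ← ee_add, h, ee_zero]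

lemma ee_ne_zero (a : ZMod 3) : ee 3 a ≠ 0 := by
  intro h
  have := ee_cube a
  rw [h] at this
  norm_num at this

lemma ee_norm (a : ZMod 3) : ‖ee 3 a‖ = 1 := by
  have h := congrArg norm (ee_cube a)
  rw [norm_pow, norm_one] at h
  exact (pow_eq_one_iff_of_nonneg (norm_nonneg _) (by norm_num)).1 h

/-! ### elements -/

lemma three_iff {α : Ei} : (3 : Ei) ∣ α - 1 ↔ (3 : ℤ) ∣ α.re - 1 ∧ (3 : ℤ) ∣ α.im := by
  have h : ((3 : Ei) ∣ α - 1) ↔ (((3 : ℤ) : Ei)) ∣ α - 1 := by norm_num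
  rw [h, int_dvd, QuadraticAlgebra.re_sub, QuadraticAlgebra.im_sub]
  have e1 : (1 : Ei).re = 1 := rfl
  have e2 : (1 : Ei).im = 0 := rfl
  rw [e1, e2, sub_zero]

lemma three_mul {α β : Ei} (h : (3 : Ei) ∣ α - 1) (h' : (3 : Ei) ∣ β - 1) : (3 : Ei) ∣ α * β - 1 := by
  have e : α * β - 1 = (α - 1) * β + (β - 1) := by ring
  rw [e]
  exact dvd_add (Dvd.dvd.mul_right h _) h'

lemma ap_mul {α β : Ei} (h : (3 : Ei) ∣ α - 1) (h' : (3 : Ei) ∣ β - 1) : ap (α * β) = ap α + ap β := by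
  obtain ⟨⟨a, ha⟩, ⟨b, hb⟩⟩ := three_iff.1 h
  obtain ⟨⟨c, hc⟩, ⟨d, hd⟩⟩ := three_iff.1 h'
  unfold ap
  rw [mul_re]
  have e1 : (α.re - 1) / 3 = a := by omega
  have e2 : (β.re - 1) / 3 = c := by omega
  have e3 : (α.re * β.re - α.im * β.im - 1) / 3 = a + c + 3 * (a * c - b * d) := by
    have e4 : α.re = 3 * a + 1 := by omega
    have e5 : β.re = 3 * c + 1 := by omega
    have e6 : α.re * β.re - α.im * β.im - 1 = 3 * (a + c + 3 * (a * c - b * d)) := by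
      rw [e4, e5, hb, hd]
      ring
    rw [e6]
    omega
  rw [e1, e2, e3]
  push_cast
  have h3 : (3 : ZMod 3) = 0 := rfl
  rw [h3, zero_mul, add_zero]

lemma ap_nine {α : Ei} (h : (9 : Ei) ∣ α - 1) : ap α = 0 := by
  have h1 : (((9 : ℤ) : Ei)) ∣ α - 1 := by exact_mod_cast h
  rw [int_dvd, QuadraticAlgebra.re_sub] at h1
  have e1 : (1 : Ei).re = 1 := rfl
  rw [e1] at h1
  obtain ⟨⟨a, ha⟩, -⟩ := h1
  unfold ap
  have e : (α.re - 1) / 3 = 3 * a := by omega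
  rw [e]
  push_cast
  have h3 : (3 : ZMod 3) = 0 := rfl
  rw [h3, zero_mul]

lemma ap_one : ap 1 = 0 := ap_nine (by rw [sub_self]; exact dvd_zero _)

lemma nr_sub {n : ℤ} {α : Ei} (h : (n : Ei) ∣ α - 1) : n ∣ nr α - 1 := by
  rw [int_dvd, QuadraticAlgebra.re_sub, QuadraticAlgebra.im_sub] at h
  have e1 : (1 : Ei).re = 1 := rfl
  have e2 : (1 : Ei).im = 0 := rfl
  rw [e1, e2, sub_zero] at h
  obtain ⟨⟨a, ha⟩, ⟨b, hb⟩⟩ := h
  refine ⟨n * a ^ 2 + 2 * a - (n * a + 1) * b + n * b ^ 2, ?_⟩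
  unfold nr
  have e4 : α.re = n * a + 1 := by linarith
  rw [e4, hb]
  ring

lemma nr_three {α : Ei} (h : (3 : Ei) ∣ α - 1) : ¬ (3 : ℤ) ∣ nr α := by
  have h1 : (((3 : ℤ) : Ei)) ∣ α - 1 := by exact_mod_cast h
  have h2 := nr_sub h1
  omega

lemma cop_three {β : Ei} : IsCoprime β 3 ↔ ¬ (3 : ℤ) ∣ nr β := by
  constructor
  · rintro ⟨x, y, hxy⟩ h
    have h1 : (((3 : ℤ) : Ei)) ∣ x * β - 1 := by
      refine ⟨-y, ?_⟩
      push_cast
      linear_combination hxy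
    have h2 := nr_sub h1
    rw [nr_mul] at h2
    have h3 : (3 : ℤ) ∣ nr x * nr β := Dvd.dvd.mul_left h _
    omega
  · intro h
    have h1 : IsCoprime (nr β) 3 := by
      rw [isCoprime_comm, Int.isCoprime_iff_gcd_eq_one]
      have h3 : Nat.Prime 3 := Nat.prime_three
      have : Nat.Coprime 3 (nr β).natAbs := by
        rw [Nat.Prime.coprime_iff_not_dvd h3]
        intro h4
        exact h (by
          have := Int.natCast_dvd_natCast.2 h4
          rwa [Int.dvd_natAbs] at this)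
      exact this
    obtain ⟨x, y, hxy⟩ := h1
    refine ⟨x * star β, y, ?_⟩
    have := congrArg (fun n : ℤ => (n : Ei)) hxy
    push_cast at this
    rw [← mul_star] at this
    linear_combination this

section
variable {K : Type} [Field K] [NumberField K]

/-- the ideals are principal -/
lemma exists_gen (f : Eis ≃+* 𝓞 K) (𝔞 : Ideal (𝓞 K)) : ∃ β : Ei, 𝔞 = Ideal.span {f β} := by
  have : IsPrincipalIdealRing (𝓞 K) :=
    IsPrincipalIdealRing.of_surjective (f : Ei →+* 𝓞 K) f.surjective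
  obtain ⟨x, hx⟩ := (IsPrincipalIdealRing.principal 𝔞).principal
  refine ⟨f.symm x, ?_⟩
  rw [hx, RingEquiv.apply_symm_apply]

/-- the primary generator -/
noncomputable def pg (f : Eis ≃+* 𝓞 K) (𝔞 : Ideal (𝓞 K)) : Ei := ns (exists_gen f 𝔞).choose

lemma pg_span (f : Eis ≃+* 𝓞 K) (β : Ei) : pg f (Ideal.span {f β}) = ns β := by
  unfold pg
  have h := (exists_gen f (Ideal.span {f β})).choose_spec
  set γ := (exists_gen f (Ideal.span {f β})).choose with hγ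
  rw [Ideal.span_singleton_eq_span_singleton] at h
  have h1 : Associated β γ := by
    obtain ⟨u, hu⟩ := h
    refine ⟨⟨f.symm u, f.symm (u⁻¹ : (𝓞 K)ˣ), ?_, ?_⟩, ?_⟩
    · rw [← map_mul, Units.mul_inv, map_one]
    · rw [← map_mul, Units.inv_mul, map_one]
    · apply f.injective
      rw [map_mul]
      simp only [RingEquiv.apply_symm_apply]
      exact hu
  obtain ⟨u, hu⟩ := h1
  rw [← hu, ns_mul, ns_unit u.isUnit, mul_one]

lemma pg_mul (f : Eis ≃+* 𝓞 K) (𝔞 𝔟 : Ideal (𝓞 K)) : pg f (𝔞 * 𝔟) = pg f 𝔞 * pg f 𝔟 := by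
  obtain ⟨β, rfl⟩ := exists_gen f 𝔞
  obtain ⟨γ, rfl⟩ := exists_gen f 𝔟
  rw [Ideal.span_singleton_mul_span_singleton, ← map_mul, pg_span, pg_span, pg_span, ns_mul]

lemma pg_top (f : Eis ≃+* 𝓞 K) : pg f 1 = 1 := by
  have h : (1 : Ideal (𝓞 K)) = Ideal.span {f 1} := by
    rw [map_one, Ideal.span_singleton_one, Ideal.one_eq_top]
  rw [h, pg_span]
  exact ns_unit isUnit_one

lemma norm_span (f : Eis ≃+* 𝓞 K) (β : Ei) : ((Ideal.absNorm (Ideal.span {f β}) : ℕ) : ℤ) = nr β := by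
  rw [← card_quo β, Ideal.absNorm_apply, Submodule.cardQuot_apply]
  norm_cast
  apply Nat.card_congr
  refine (Ideal.quotientEquiv (Ideal.span {β}) (Ideal.span {f β}) f ?_).symm.toEquiv
  rw [Ideal.map_span, Set.image_singleton]
  rfl

lemma cop_span (f : Eis ≃+* 𝓞 K) (β γ : Ei) :
    IsCoprime (Ideal.span {f β}) (Ideal.span {f γ}) ↔ IsCoprime β γ := by
  rw [Ideal.isCoprime_span_singleton_iff]
  constructor
  · intro h
    have := h.map (f.symm : 𝓞 K →+* Ei)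
    simpa using this
  · intro h
    exact h.map (f : Ei →+* 𝓞 K)

lemma f_three (f : Eis ≃+* 𝓞 K) : f (3 : Ei) = 3 := map_ofNat f 3

/-- coprimality -/
lemma cop_iff (f : Eis ≃+* 𝓞 K) (k : ℕ) (B : Finset (Pl K)) (g : Pl K → Ei)
    (hg : ∀ b ∈ B, Prime (g b) ∧ Ideal.span {f (g b)} = b.asIdeal) (β : Ei) :
    IsCoprime (Ideal.span {f β}) (Ideal.span {(3 : 𝓞 K) ^ (k + 1)} * ∏ b ∈ B, b.asIdeal) ↔
      ¬ (3 : ℤ) ∣ nr β ∧ ∀ b ∈ B, ¬ g b ∣ β := by
  rw [IsCoprime.mul_right_iff, IsCoprime.prod_right_iff]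
  refine and_congr ?_ (forall₂_congr fun b hb => ?_)
  · rw [← Ideal.span_singleton_pow, IsCoprime.pow_right_iff (Nat.succ_pos k), ← f_three f, cop_span, cop_three]
  · obtain ⟨h1, h2⟩ := hg b hb
    rw [← h2, cop_span, isCoprime_comm, h1.coprime_iff_not_dvd]

/-- the value at a primary element -/
noncomputable def va (k : ℕ) (h : ZMod 3) (j : Pl K → ZMod 3) (B : Finset (Pl K)) (g : Pl K → Ei)
    (ψ : DirichletCharacter ℂ (3 ^ (k + 1))) (α : Ei) : ℂ :=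
  ψ ((nr α : ℤ) : ZMod (3 ^ (k + 1))) * ee 3 (h * ap α + ∑ b ∈ B, j b * sy (g b) α)

section
variable {k : ℕ} {h : ZMod 3} {j : Pl K → ZMod 3} {B : Finset (Pl K)} {g : Pl K → Ei}
  {ψ : DirichletCharacter ℂ (3 ^ (k + 1))}

lemma va_mul (hg : ∀ b ∈ B, Prime (g b) ∧ ¬ g b ∣ 3) {α β : Ei} (hα : (3 : Ei) ∣ α - 1)
    (hβ : (3 : Ei) ∣ β - 1) (hα' : ∀ b ∈ B, ¬ g b ∣ α) (hβ' : ∀ b ∈ B, ¬ g b ∣ β) :
    va k h j B g ψ (α * β) = va k h j B g ψ α * va k h j B g ψ β := by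
  unfold va
  rw [nr_mul, Int.cast_mul, map_mul, ap_mul hα hβ]
  have e : ∑ b ∈ B, j b * sy (g b) (α * β) = ∑ b ∈ B, j b * sy (g b) α + ∑ b ∈ B, j b * sy (g b) β := by
    rw [← Finset.sum_add_distrib]
    refine Finset.sum_congr rfl fun b hb => ?_
    have h1 : sy (g b) (α * β) = sy (g b) α + sy (g b) β :=
      Pool.Agent.Y715.T.RecG.cs_mul (hg b hb).1 (hg b hb).2 (hα' b hb) (hβ' b hb)
    rw [h1, mul_add]
  rw [e, mul_add, add_add_add_comm, ee_add]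
  ring

lemma va_cong (hk : 1 ≤ k) (hg : ∀ b ∈ B, Prime (g b) ∧ ¬ g b ∣ 3) {α : Ei}
    (hα : ((3 : Ei) ^ (k + 1)) ∣ α - 1) (hα' : ∀ b ∈ B, g b ∣ α - 1) : va k h j B g ψ α = 1 := by
  unfold va
  have h1 : ap α = 0 := ap_nine (dvd_trans ⟨3 ^ (k - 1), by
    have e : k + 1 = 2 + (k - 1) := by omega
    rw [e, pow_add]
    norm_num⟩ hα)
  have h2 : ((nr α : ℤ) : ZMod (3 ^ (k + 1))) = 1 := by
    have h3 : (((3 : ℤ) ^ (k + 1) : ℤ) : Ei) ∣ α - 1 := by
      push_cast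
      exact hα
    have h4 := nr_sub h3
    have h5 : (((nr α - 1 : ℤ)) : ZMod (3 ^ (k + 1))) = 0 := by
      rw [ZMod.intCast_zmod_eq_zero_iff_dvd]
      exact_mod_cast h4
    rw [Int.cast_sub, Int.cast_one, sub_eq_zero] at h5
    exact h5
  have h3 : ∑ b ∈ B, j b * sy (g b) α = 0 := by
    refine Finset.sum_eq_zero fun b hb => ?_
    have h4 : ¬ g b ∣ 1 := fun h => (hg b hb).1.not_isUnit (isUnit_of_dvd_one h)
    have h5 : cs (g b) 1 = cs (g b) α :=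
      Pool.Agent.Y715.T.RecG.cs_congr (hg b hb).1 (hg b hb).2 h4 (by
        rw [← neg_sub]
        exact (dvd_neg).2 (hα' b hb))
    have h6 : sy (g b) α = 0 := by
      show cs (g b) α = 0
      rw [← h5, Pool.Agent.Y715.T.RecG.cs_one (hg b hb).1 (hg b hb).2]
    rw [h6, mul_zero]
  rw [h1, h2, h3, mul_zero, add_zero, ee_zero, map_one, mul_one]

lemma psi_ne {α : Ei} (hα : ¬ (3 : ℤ) ∣ nr α) : IsUnit ((nr α : ℤ) : ZMod (3 ^ (k + 1))) := by
  rw [ZMod.coe_int_isUnit_iff_isCoprime]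
  push_cast
  refine IsCoprime.pow_left ?_
  rw [Int.isCoprime_iff_gcd_eq_one]
  have : Nat.Coprime 3 (nr α).natAbs := by
    rw [Nat.Prime.coprime_iff_not_dvd Nat.prime_three]
    intro h4
    exact hα (by
      have := Int.natCast_dvd_natCast.2 h4
      rwa [Int.dvd_natAbs] at this)
  exact this

lemma va_ne {α : Ei} (hα : ¬ (3 : ℤ) ∣ nr α) : va k h j B g ψ α ≠ 0 := by
  unfold va
  refine mul_ne_zero ?_ (ee_ne_zero _)
  exact ((psi_ne hα).map ψ).ne_zero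

lemma va_norm (α : Ei) : ‖va k h j B g ψ α‖ ≤ 1 := by
  unfold va
  rw [norm_mul, ee_norm, mul_one]
  exact DirichletCharacter.norm_le_one ψ _

end

lemma ns_dvd {g β : Ei} (hβ : ¬ (3 : ℤ) ∣ nr β) (h : g ∣ ns β) : g ∣ β := by
  have h1 : ns β * ep β = β := by
    unfold ns
    have h4 := (Pool.Agent.Y692.QS.ep_cases β hβ).2
    linear_combination β * h4
  rw [← h1]
  exact Dvd.dvd.mul_right h _

lemma data (f : Eis ≃+* 𝓞 K) (k : ℕ) (B : Finset (Pl K)) (g : Pl K → Ei)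
    (hg : ∀ b ∈ B, Prime (g b) ∧ Ideal.span {f (g b)} = b.asIdeal) (𝔞 : Ideal (𝓞 K))
    (hc : IsCoprime 𝔞 (Ideal.span {(3 : 𝓞 K) ^ (k + 1)} * ∏ b ∈ B, b.asIdeal)) :
    (3 : Ei) ∣ pg f 𝔞 - 1 ∧ ¬ (3 : ℤ) ∣ nr (pg f 𝔞) ∧ ∀ b ∈ B, ¬ g b ∣ pg f 𝔞 := by
  obtain ⟨β, rfl⟩ := exists_gen f 𝔞
  obtain ⟨h1, h2⟩ := (cop_iff f k B g hg β).1 hc
  rw [pg_span]
  refine ⟨ns_one h1, ?_, fun b hb hd => h2 b hb (ns_dvd h1 hd)⟩
  rw [nr_ns h1]
  exact h1

end

theorem t_CHR (hDIC : S_DIC) (hNTR : S_NTR) : S_CHR := by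
  classical
  intro K _ _ f k hk S hS h j B hBS hj ψ
  obtain ⟨S', hS', hgen, -⟩ := hDIC K f
  have hg : ∀ b, b ∉ S → Prime (gn f b) ∧ (3 : Eis) ∣ gn f b - 1 ∧
      Ideal.span {f (gn f b)} = b.asIdeal ∧ nrm (gn f b) = Ideal.absNorm b.asIdeal :=
    fun b hb => hgen b (fun h' => hb ((hS b).2 ((hS' b).1 h')))
  have hB : ∀ b ∈ B, b ∉ S := fun b hb => Finset.disjoint_left.1 hBS hb
  have hgB : ∀ b ∈ B, Prime (gn f b) ∧ Ideal.span {f (gn f b)} = b.asIdeal := fun b hb =>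
    ⟨(hg b (hB b hb)).1, (hg b (hB b hb)).2.2.1⟩
  have hgB' : ∀ b ∈ B, Prime (gn f b) ∧ ¬ gn f b ∣ 3 := fun b hb =>
    ⟨(hg b (hB b hb)).1,
      Pool.Agent.Y715.T.RecG.Pq.norm ⟨(hg b (hB b hb)).1, (hg b (hB b hb)).2.1⟩⟩
  have hcop := cop_iff f k B (gn f) hgB
  have hdat := data f k B (gn f) hgB
  set 𝔐 : Ideal (𝓞 K) := Ideal.span {(3 : 𝓞 K) ^ (k + 1)} * ∏ b ∈ B, b.asIdeal with h𝔐
  have hM1 : 𝔐 ≤ Ideal.span {(3 : 𝓞 K) ^ (k + 1)} := by
    rw [h𝔐]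
    exact Ideal.mul_le_left
  have hM2 : 𝔐 ≤ ∏ b ∈ B, b.asIdeal := by
    rw [h𝔐]
    exact Ideal.mul_le_right
  have htop : 𝔐 ≠ ⊤ := by
    intro h1
    have h2 := (hcop 0).1 (by
      rw [h1, ← Ideal.one_eq_top]
      exact isCoprime_one_right)
    apply h2.1
    have h3 : nr 0 = 0 := nr_zero_iff.2 rfl
    rw [h3]
    exact dvd_zero _
  let η : Ideal (𝓞 K) →*₀ ℂ :=
    { toFun := fun 𝔞 => if IsCoprime 𝔞 𝔐 then va k h j B (gn f) ψ (pg f 𝔞) else 0
      map_zero' := by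
        rw [if_neg]
        intro h1
        rw [isCoprime_zero_left, Ideal.isUnit_iff] at h1
        exact htop h1
      map_one' := by
        rw [if_pos isCoprime_one_left, pg_top]
        exact va_cong hk hgB' (by rw [sub_self]; exact dvd_zero _)
          (fun b _ => by rw [sub_self]; exact dvd_zero _)
      map_mul' := fun 𝔞 𝔟 => by
        by_cases h1 : IsCoprime 𝔞 𝔐
        · by_cases h2 : IsCoprime 𝔟 𝔐
          · rw [if_pos h1, if_pos h2, if_pos (h1.mul_left h2), pg_mul]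
            obtain ⟨a1, a2, a3⟩ := hdat 𝔞 h1
            obtain ⟨b1, b2, b3⟩ := hdat 𝔟 h2
            exact va_mul hgB' a1 b1 a3 b3
          · rw [if_neg h2, mul_zero, if_neg]
            intro h3
            exact h2 h3.of_mul_left_right
        · rw [if_neg h1, zero_mul, if_neg]
          intro h3
          exact h1 h3.of_mul_left_left }
  have hη : ∀ 𝔞, η 𝔞 = if IsCoprime 𝔞 𝔐 then va k h j B (gn f) ψ (pg f 𝔞) else 0 := fun _ => rfl
  refine ⟨η, ⟨?_, htop, fun _ => Nat.zero_le _, fun _ _ => rfl, ?_, ?_⟩, ?_, ?_, ?_, ?_⟩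
  · -- `ne_bot`
    rw [h𝔐]
    refine mul_ne_zero ?_ (Finset.prod_ne_zero_iff.2 fun b _ => b.ne_bot)
    rw [Ne, Ideal.zero_eq_bot, Ideal.span_singleton_eq_bot]
    exact pow_ne_zero _ (by norm_num)
  · -- `supp`
    intro 𝔞
    rw [hη]
    constructor
    · intro h1
      by_contra h2
      exact h1 (if_neg h2)
    · intro h1
      rw [if_pos h1]
      exact va_ne (hdat 𝔞 h1).2.1
  · -- `sig`
    intro x hx hx1
    have hsg : Pool.Agent.Y773.G.sg (fun _ => 0) (x : K) = 1 := by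
      unfold Pool.Agent.Y773.G.sg
      simp
    rw [hsg, hη]
    obtain ⟨α, rfl⟩ : ∃ α : Ei, x = f α := ⟨f.symm x, by rw [RingEquiv.apply_symm_apply]⟩
    have hc : IsCoprime (Ideal.span {f α}) 𝔐 := by
      rw [Ideal.isCoprime_iff_exists]
      refine ⟨f α, Ideal.mem_span_singleton_self _, 1 - f α, ?_, by ring⟩
      rw [← neg_sub]
      exact 𝔐.neg_mem hx1
    have hm1 : f α - 1 ∈ Ideal.span {(3 : 𝓞 K) ^ (k + 1)} := hM1 hx1
    have hm2 : ∀ b ∈ B, f α - 1 ∈ b.asIdeal := fun b hb => by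
      have h1 : f α - 1 ∈ ∏ b ∈ B, b.asIdeal := hM2 hx1
      exact (Ideal.prod_le_inf.trans (Finset.inf_le hb)) h1
    have hd : ∀ β γ : Ei, f γ ∣ f β → γ ∣ β := by
      rintro β γ ⟨c, hc⟩
      refine ⟨f.symm c, f.injective ?_⟩
      rw [map_mul, RingEquiv.apply_symm_apply, hc]
    have h1 : ((3 : Ei) ^ (k + 1)) ∣ α - 1 := by
      apply hd
      rw [map_pow, f_three, map_sub, map_one]
      exact Ideal.mem_span_singleton.1 hm1
    have h2 : ∀ b ∈ B, gn f b ∣ α - 1 := by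
      intro b hb
      apply hd
      rw [map_sub, map_one]
      have := hm2 b hb
      rw [← (hgB b hb).2] at this
      exact Ideal.mem_span_singleton.1 this
    have h3 : (3 : Ei) ∣ α - 1 := dvd_trans (dvd_pow_self _ (Nat.succ_ne_zero k)) h1
    rw [if_pos hc, pg_span, ns_fix h3]
    exact va_cong hk hgB' h1 h2
  · -- bound
    intro 𝔞
    rw [hη]
    split_ifs with h1
    · exact va_norm _
    · rw [norm_zero]
      exact zero_le_one
  · -- cube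
    intro hψ 𝔞 h1
    rw [hη, if_pos h1]
    obtain ⟨a1, a2, a3⟩ := hdat 𝔞 h1
    unfold va
    rw [hψ, MulChar.one_apply (psi_ne a2), one_mul, ee_cube]
  · -- primes
    intro q hq hqB
    obtain ⟨h1, h2, h3, h4⟩ := hg q hq
    have hc : IsCoprime q.asIdeal 𝔐 := by
      rw [← h3]
      refine (hcop _).2 ⟨nr_three h2, fun b hb hd => ?_⟩
      have h5 : q.asIdeal ≤ b.asIdeal := by
        rw [← h3, ← (hgB b hb).2, Ideal.span_singleton_le_span_singleton]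
        exact map_dvd f hd
      have h6 : q.asIdeal = b.asIdeal := q.isMaximal.eq_of_le b.isPrime.ne_top h5
      have h7 : q = b := HeightOneSpectrum.ext h6
      exact hqB (h7 ▸ hb)
    rw [hη, if_pos hc]
    have h5 : pg f q.asIdeal = gn f q := by
      rw [← h3, pg_span, ns_fix h2]
    rw [h5]
    unfold va Ps
    have h6 : nr (gn f q) = (Ideal.absNorm q.asIdeal : ℤ) := h4
    rw [h6, Int.cast_natCast]
  · -- not trivial
    intro hor
    set j' : Eis → ZMod 3 := fun e => if h : ∃ b ∈ B, gn f b = e then j h.choose else 0 with hj'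
    have hinj : ∀ b ∈ B, ∀ b' ∈ B, gn f b = gn f b' → b = b' := by
      intro b hb b' hb' h1
      apply HeightOneSpectrum.ext
      rw [← (hgB b hb).2, ← (hgB b' hb').2, h1]
    have hjb : ∀ b ∈ B, j' (gn f b) = j b := by
      intro b hb
      have h1 : ∃ b' ∈ B, gn f b' = gn f b := ⟨b, hb, rfl⟩
      rw [hj']
      simp only
      rw [dif_pos h1]
      congr 1
      exact hinj _ h1.choose_spec.1 _ hb h1.choose_spec.2
    obtain ⟨α, h1, h2, h3, h4⟩ := hNTR k hk h j' (B.image (gn f)) (by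
      intro b₀ hb₀
      obtain ⟨b, hb, rfl⟩ := Finset.mem_image.1 hb₀
      refine ⟨(hg b (hB b hb)).1, (hg b (hB b hb)).2.1, ?_⟩
      rw [hjb b hb]
      exact (hj b).2 hb) (hor.imp id fun h => h.image _)
    have hc : IsCoprime (Ideal.span {f α}) 𝔐 :=
      (hcop α).2 ⟨nr_three h1, fun b hb => h3 _ (Finset.mem_image_of_mem _ hb)⟩
    refine ⟨f α, hc, ?_⟩
    rw [hη, if_pos hc, pg_span, ns_fix h1]
    unfold va
    have h5 : ((nr α : ℤ) : ZMod (3 ^ (k + 1))) = 1 := by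
      have h5 : (((nr α - 1 : ℤ)) : ZMod (3 ^ (k + 1))) = 0 := by
        rw [ZMod.intCast_zmod_eq_zero_iff_dvd]
        exact_mod_cast h2
      rw [Int.cast_sub, Int.cast_one, sub_eq_zero] at h5
      exact h5
    rw [h5, map_one, one_mul]
    apply ee_ne_one
    rw [Finset.sum_image (fun b hb b' hb' => hinj b hb b' hb')] at h4
    have h6 : ∑ b ∈ B, j' (gn f b) * sy (gn f b) α = ∑ b ∈ B, j b * sy (gn f b) α :=
      Finset.sum_congr rfl fun b hb => by rw [hjb b hb]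
    rw [h6] at h4
    exact h4

end Pool.Agent.T3h73.TK.CHR
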