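import Pool.Agent.T3h73.TK.Stm
import Pool.Agent.T2h16.TT.Cri

/-!
# CRI: the criterion for one member
-/

set_option autoImplicit false

open NumberField IsDedekindDomain

namespace Pool.Agent.T3h73.TK.CRI

open Pool.Agent.T3h73.TK
open Pool.Agent.Y715.T.St (Eis nrm omega)
open Pool.Agent.Y715.T
open T2h16.TT.St (Adm IsExp Concl sy)
open Pool.Agent.T3h73.TK.Def

theorem re3 (y : Eis) : (3 * y).re = 3 * y.re := by
  have h : (3 : Eis).re = 3 := rfl
  have h' : (3 : Eis).im = 0 := rfl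
  rw [QuadraticAlgebra.re_mul, h, h']
  ring

theorem im3 (y : Eis) : (3 * y).im = 3 * y.im := by
  have h : (3 : Eis).re = 3 := rfl
  have h' : (3 : Eis).im = 0 := rfl
  rw [QuadraticAlgebra.im_mul, h, h']
  ring

theorem re9 (y : Eis) : (9 * y).re = 9 * y.re := by
  have h : (9 : Eis).re = 9 := rfl
  have h' : (9 : Eis).im = 0 := rfl
  rw [QuadraticAlgebra.re_mul, h, h']
  ring

theorem re1 (x : Eis) : (x - 1).re = x.re - 1 := rfl

theorem im1 (x : Eis) : (x - 1).im = x.im := by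
  show x.im - 0 = x.im
  rw [sub_zero]

theorem dvd_three {x : Eis} (h : (3 : Eis) ∣ x - 1) :
    ∃ a b : ℤ, x.re = 1 + 3 * a ∧ x.im = 3 * b := by
  obtain ⟨y, hy⟩ := h
  refine ⟨y.re, y.im, ?_, ?_⟩
  · have h1 := congrArg QuadraticAlgebra.re hy
    rw [re3, re1] at h1
    linarith
  · have h1 := congrArg QuadraticAlgebra.im hy
    rw [im3, im1] at h1
    exact h1

theorem ap_eq {x : Eis} {a : ℤ} (h : x.re = 1 + 3 * a) : ap x = (a : ZMod 3) := by
  unfold ap
  congr 1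
  rw [h]
  omega

theorem dvd_mul {x y : Eis} (hx : (3 : Eis) ∣ x - 1) (hy : (3 : Eis) ∣ y - 1) :
    (3 : Eis) ∣ x * y - 1 := by
  have : x * y - 1 = (x - 1) * y + (y - 1) := by ring
  rw [this]
  exact dvd_add (Dvd.dvd.mul_right hx y) hy

theorem ap_mul {x y : Eis} (hx : (3 : Eis) ∣ x - 1) (hy : (3 : Eis) ∣ y - 1) :
    ap (x * y) = ap x + ap y := by
  obtain ⟨a, b, h1, h2⟩ := dvd_three hx
  obtain ⟨c, d, h3, h4⟩ := dvd_three hy
  have h5 : (x * y).re = 1 + 3 * (a + c + 3 * (a * c - b * d)) := by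
    rw [QuadraticAlgebra.re_mul, h1, h2, h3, h4]
    ring
  rw [ap_eq h5, ap_eq h1, ap_eq h3]
  push_cast
  have : (3 : ZMod 3) = 0 := by decide
  rw [this]
  ring

theorem ap_one : ap 1 = 0 := by
  have h : (1 : Eis).re = 1 + 3 * 0 := rfl
  rw [ap_eq h]
  simp

theorem ap_pow {x : Eis} (hx : (3 : Eis) ∣ x - 1) (n : ℕ) :
    (3 : Eis) ∣ x ^ n - 1 ∧ ap (x ^ n) = (n : ZMod 3) * ap x := by
  induction n with
  | zero =>
    rw [pow_zero, sub_self]
    exact ⟨dvd_zero _, by rw [ap_one, Nat.cast_zero, zero_mul]⟩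
  | succ n ih =>
    rw [pow_succ]
    refine ⟨dvd_mul ih.1 hx, ?_⟩
    rw [ap_mul ih.1 hx, ih.2]
    push_cast
    ring

theorem ap_prod {ι : Type} (s : Finset ι) (g : ι → Eis) (n : ι → ℕ)
    (hg : ∀ i ∈ s, (3 : Eis) ∣ g i - 1) :
    (3 : Eis) ∣ ∏ i ∈ s, g i ^ n i - 1 ∧
      ap (∏ i ∈ s, g i ^ n i) = ∑ i ∈ s, (n i : ZMod 3) * ap (g i) := by
  classical
  induction s using Finset.induction_on with
  | empty =>
    rw [Finset.prod_empty, Finset.sum_empty, sub_self]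
    exact ⟨dvd_zero _, ap_one⟩
  | insert a s ha ih =>
    obtain ⟨h1, h2⟩ := ih fun i hi => hg i (Finset.mem_insert_of_mem hi)
    obtain ⟨h3, h4⟩ := ap_pow (hg a (Finset.mem_insert_self a s)) (n a)
    rw [Finset.prod_insert ha, Finset.sum_insert ha]
    exact ⟨dvd_mul h3 h1, by rw [ap_mul h3 h1, h4, h2]⟩

theorem ap_nine {x : Eis} (h : (9 : Eis) ∣ x - 1) : ap x = 0 := by
  obtain ⟨y, hy⟩ := h
  have h1 := congrArg QuadraticAlgebra.re hy
  rw [re9, re1] at h1
  have h4 : x.re = 1 + 3 * (3 * y.re) := by linarith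
  rw [ap_eq h4]
  push_cast
  have : (3 : ZMod 3) = 0 := by decide
  rw [this, zero_mul]

theorem t_CRI : S_CRI := by
  intro k hk x hx e he hker haS σ ζ hζ
  refine T2h16.TT.concl_of k x.1.card hk (fun j => (σ j : Eis)) (fun j => (hx (σ j)).1.1)
    (fun i j hij => σ.injective (Subtype.ext hij)) (fun j => (hx (σ j)).1.2.1)
    (fun j => (hx (σ j)).1.2.2) (fun j => x.2 (σ j)) (fun j => (hx (σ j)).2)
    (fun j => (e (σ j) : ZMod 3)) ?_ ?_ ?_ ζ hζ
  · intro j y c hc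
    exact T2h16.TT.res_of (T2h16.TT.adm_pr hk (hx (σ j)).1) (he (σ j)) y c hc
  · intro v hv
    have h1 := hker (fun i => v (σ.symm i)) (by
      intro j
      obtain ⟨j, rfl⟩ := σ.surjective j
      rw [← σ.sum_comp]
      refine Eq.trans ?_ (hv j)
      refine Finset.sum_congr rfl fun i _ => ?_
      rw [σ.symm_apply_apply, σ.symm_apply_apply]
      rfl)
    intro i j
    have h2 := h1 (σ i) (σ j)
    rwa [σ.symm_apply_apply, σ.symm_apply_apply] at h2
  · intro h9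
    apply haS
    have h1 := ap_nine h9
    rw [(ap_prod Finset.univ (fun j => (σ j : Eis)) (fun j => (e (σ j) : ZMod 3).val)
      fun j _ => (hx (σ j)).1.2.1).2] at h1
    rw [← σ.sum_comp]
    refine Eq.trans ?_ h1
    refine Finset.sum_congr rfl fun j _ => ?_
    rw [ZMod.natCast_zmod_val]

end Pool.Agent.T3h73.TK.CRI
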