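import Pool.Agent.T3h73.TK.Stm
import Pool.Agent.Y715.T.RecC

/-!
# Project TK: the density of the places of norm one modulo a power of three
-/

set_option autoImplicit false
set_option linter.all false

open NumberField IsDedekindDomain Filter Topology

namespace Pool.Agent.T3h73.TK.DENQ

open Pool.Agent.T3h73.SL (Pl)
open Pool.Agent.Y715.T.St (Eis nrm)
open Pool.Agent.Y692.QS (Ei w nr hom hom_apply mul_star nr_nonneg nr_mul nr_nat nr_star nr_zero_iff
  isUnit_iff int_dvd)
open Pool.Agent.Y715.T.Rec (exists_p)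
open Pool.Agent.Y715.T.Rs (card_quo)
open Pool.Agent.Y715.T.RecC (unit_form exists_prim star_prime star_dvd)

/-- a primary unit is one -/
theorem unit_one {u : Ei} (hu : IsUnit u) (h3 : (3 : Ei) ∣ u - 1) : u = 1 := by
  obtain ⟨c, hc | hc⟩ := unit_form hu
  · rw [hc] at h3 ⊢
    have h5 : (((3 : ℤ) : Ei)) ∣ w ^ c.val - 1 := by exact_mod_cast h3
    rw [int_dvd] at h5
    exact (by decide : ∀ c : ZMod 3, ((3 : ℤ) ∣ (w ^ c.val - 1 : Ei).re ∧
      (3 : ℤ) ∣ (w ^ c.val - 1 : Ei).im) → (w : Ei) ^ c.val = 1) c h5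
  · exfalso
    rw [hc] at h3
    have h5 : (((3 : ℤ) : Ei)) ∣ -w ^ c.val - 1 := by exact_mod_cast h3
    rw [int_dvd] at h5
    exact (by decide : ∀ c : ZMod 3, ¬ ((3 : ℤ) ∣ (-w ^ c.val - 1 : Ei).re ∧
      (3 : ℤ) ∣ (-w ^ c.val - 1 : Ei).im)) c h5

theorem eq_of_dvd {π ρ : Ei} (h : Prime π) (h3 : (3 : Ei) ∣ π - 1) (h' : Prime ρ)
    (h3' : (3 : Ei) ∣ ρ - 1) (hd : ρ ∣ π) : ρ = π := by
  obtain ⟨u, hu⟩ := (h'.dvd_prime_iff_associated h).1 hd
  have h3 : (3 : Ei) ∣ (u : Ei) - 1 := by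
    have e : (u : Ei) - 1 = (π - 1) - (ρ - 1) * u := by rw [← hu]; ring
    rw [e]
    exact dvd_sub h3 (Dvd.dvd.mul_right h3' _)
  rw [← hu, unit_one u.isUnit h3, mul_one]

theorem star_prim {π : Ei} (h : (3 : Ei) ∣ π - 1) : (3 : Ei) ∣ star π - 1 := by
  have h1 := star_dvd h
  rwa [star_sub, star_one, star_ofNat] at h1

/-- a primary prime of norm `p` -/
theorem exists_norm {p : ℕ} (hp : p.Prime) (h1 : 3 ∣ p - 1) :
    ∃ π : Ei, Prime π ∧ (3 : Ei) ∣ π - 1 ∧ nr π = p := by
  haveI := Fact.mk hp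
  haveI : Fact (Nat.Prime 3) := ⟨Nat.prime_three⟩
  obtain ⟨u, hu⟩ := exists_prime_orderOf_dvd_card (G := (ZMod p)ˣ) 3
    (by rw [ZMod.card_units]; exact h1)
  obtain ⟨z, hz⟩ : ∃ z : ZMod p, z = (u : ZMod p) := ⟨_, rfl⟩
  have hz3 : z ^ 3 = 1 := by
    have h2 := pow_orderOf_eq_one u
    rw [hu] at h2
    rw [hz, ← Units.val_pow_eq_pow_val, h2, Units.val_one]
  have hz1 : z ≠ 1 := by
    intro h
    have h2 : u = 1 := Units.ext (by rw [← hz, h, Units.val_one])
    rw [h2, orderOf_one] at hu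
    omega
  have hzz : z * z = -1 - z := by
    have h2 : (z - 1) * (z * z + z + 1) = 0 := by linear_combination hz3
    rcases mul_eq_zero.1 h2 with h | h
    · exact absurd (sub_eq_zero.1 h) hz1
    · linear_combination h
  set φ : Ei →+* ZMod p := hom z hzz with hφ
  have hsurj : Function.Surjective φ := by
    intro x
    refine ⟨((x.val : ℕ) : Ei), ?_⟩
    rw [map_natCast, ZMod.natCast_zmod_val]
  have hcard : Nat.card (Ei ⧸ RingHom.ker φ) = p := by
    rw [Nat.card_congr (RingHom.quotientKerEquivOfSurjective hsurj).toEquiv, Nat.card_zmod]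
  haveI : (RingHom.ker φ).IsPrime := RingHom.ker_isPrime _
  have hI0 : RingHom.ker φ ≠ ⊥ := by
    intro h
    have h2 : ((p : ℕ) : Ei) ∈ RingHom.ker φ := by
      rw [RingHom.mem_ker, map_natCast]
      exact CharP.cast_eq_zero _ p
    rw [h, Ideal.mem_bot] at h2
    have h3 := nr_nat p
    rw [h2] at h3
    have h4 : (p : ℤ) ^ 2 = 0 := by rw [← h3]; rfl
    have h5 : (p : ℤ) = 0 := by simpa using h4
    exact hp.ne_zero (by exact_mod_cast h5)
  obtain ⟨ρ, hρ⟩ : ∃ ρ : Ei, ρ = Submodule.IsPrincipal.generator (RingHom.ker φ) := ⟨_, rfl⟩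
  have hpr : Prime ρ := by
    rw [hρ]; exact Submodule.IsPrincipal.prime_generator_of_isPrime _ hI0
  have hspan : Ideal.span {ρ} = RingHom.ker φ := by
    rw [hρ]; exact Ideal.span_singleton_generator _
  have hnr : nr ρ = p := by
    rw [← card_quo ρ, hspan, hcard]
  have h3 : ¬ ρ ∣ 3 := by
    rintro ⟨c, hc⟩
    have h4 : nr (3 : Ei) = nr ρ * nr c := by rw [hc, nr_mul]
    have h5 : nr (3 : Ei) = 9 := by decide
    rw [h5, hnr] at h4
    have h6 : (p : ℤ) ∣ 9 := ⟨_, h4⟩
    have h7 : p ∣ 3 ^ 2 := by exact_mod_cast h6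
    have h8 := hp.dvd_of_dvd_pow h7
    have h9 := (Nat.prime_dvd_prime_iff_eq hp Nat.prime_three).1 h8
    rw [h9] at h1
    omega
  obtain ⟨v, hv, hv3⟩ := exists_prim hpr h3
  refine ⟨v * ρ, ?_, hv3, ?_⟩
  · obtain ⟨v', rfl⟩ := hv
    exact (Associated.prime_iff (p := ρ) (q := (v' : Ei) * ρ)
      ⟨v', by rw [mul_comm]⟩).1 hpr
  · rw [nr_mul, isUnit_iff.1 hv, one_mul, hnr]

theorem ne_star {π : Ei} {p : ℕ} (hp : p.Prime) (h : nr π = p) : π ≠ star π := by
  intro he
  have h1 := congrArg QuadraticAlgebra.im he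
  rw [Pool.Agent.Y692.QS.star_im] at h1
  have h2 : π.im = 0 := by omega
  unfold nr at h
  rw [h2] at h
  have h3 : (π.re) ^ 2 = (p : ℤ) := by rw [← h]; ring
  have h4 : (π.re.natAbs) ^ 2 = p := by
    have := congrArg Int.natAbs h3
    rwa [Int.natAbs_pow, Int.natAbs_natCast] at this
  rw [← h4] at hp
  exact Nat.Prime.not_prime_pow (le_refl 2) hp

theorem log_top : Tendsto (fun s : ℝ => Real.log (1 / (s - 1))) (𝓝[>] 1) atTop := by
  refine Real.tendsto_log_atTop.comp ?_
  have h1 : Tendsto (fun s : ℝ => s - 1) (𝓝[>] 1) (𝓝[>] 0) := by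
    refine tendsto_nhdsWithin_iff.2 ⟨?_, ?_⟩
    · have : Tendsto (fun s : ℝ => s - 1) (𝓝 1) (𝓝 (1 - 1)) := by
        exact (continuous_id.sub continuous_const).tendsto 1
      rw [sub_self] at this
      exact this.mono_left nhdsWithin_le_nhds
    · filter_upwards [self_mem_nhdsWithin] with s hs
      exact sub_pos.2 (Set.mem_Ioi.1 hs)
  have h2 := tendsto_inv_nhdsGT_zero.comp h1
  refine h2.congr fun s => ?_
  simp [Function.comp, one_div]

theorem t_DENQ (hPAP : S_PAP) (hDIC : S_DIC) : S_DENQ := by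
  intro K _ _ f k hk
  classical
  obtain ⟨S, hS, hg, hex⟩ := hDIC K f
  have hinj : ∀ q, q ∉ S → ∀ q', q' ∉ S → gn f q = gn f q' → q = q' := by
    intro q hq q' hq' h
    apply HeightOneSpectrum.ext
    rw [← (hg q hq).2.2.1, ← (hg q' hq').2.2.1, h]
  have hQS : ∀ q ∈ Qk f k, q ∉ S := fun q hq h => hq.1 ((hS q).1 h)
  have hk3 : ∀ n : ℕ, (3 : ℤ) ^ (k + 1) ∣ (n : ℤ) - 1 ↔ (n : ZMod (3 ^ (k + 1))) = 1 := by
    intro n
    have h1 := ZMod.intCast_eq_intCast_iff_dvd_sub 1 (n : ℤ) (3 ^ (k + 1))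
    push_cast at h1
    rw [← h1]
    exact eq_comm
  let P : Type := {p : ℕ | p.Prime ∧ (p : ZMod (3 ^ (k + 1))) = 1}
  have hP3 : ∀ p : P, 3 ∣ p.1 - 1 := by
    intro p
    have h1 := (hk3 p.1).2 p.2.2
    have h2 : (3 : ℤ) ∣ (p.1 : ℤ) - 1 := (dvd_pow_self 3 (by omega)).trans h1
    have h3 := p.2.1.one_lt
    omega
  choose π hπ using fun p : P => exists_norm p.2.1 (hP3 p)
  choose V1 hV1 using fun p : P => hex (π p) (hπ p).1 (hπ p).2.1
  choose V2 hV2 using fun p : P => hex (star (π p)) (star_prime (hπ p).1) (star_prim (hπ p).2.1)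
  have hN1 : ∀ p : P, Ideal.absNorm (V1 p).asIdeal = p.1 := by
    intro p
    have h1 := (hg (V1 p) (hV1 p).1).2.2.2
    rw [(hV1 p).2] at h1
    have h2 : nrm (π p) = nr (π p) := rfl
    rw [h2, (hπ p).2.2] at h1
    exact_mod_cast h1.symm
  have hN2 : ∀ p : P, Ideal.absNorm (V2 p).asIdeal = p.1 := by
    intro p
    have h1 := (hg (V2 p) (hV2 p).1).2.2.2
    rw [(hV2 p).2] at h1
    have h2 : nrm (star (π p)) = nr (star (π p)) := rfl
    rw [h2, nr_star, (hπ p).2.2] at h1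
    exact_mod_cast h1.symm
  have hi1 : Function.Injective V1 := by
    intro p p' h
    apply Subtype.ext
    rw [← hN1 p, ← hN1 p', h]
  have hi2 : Function.Injective V2 := by
    intro p p' h
    apply Subtype.ext
    rw [← hN2 p, ← hN2 p', h]
  have hdis : ∀ p p' : P, V1 p ≠ V2 p' := by
    intro p p' h
    have h1 : p = p' := by
      apply Subtype.ext
      rw [← hN1 p, ← hN2 p', h]
    subst h1
    exact ne_star p.2.1 (hπ p).2.2 ((hV1 p).2.symm.trans ((congrArg (gn f) h).trans (hV2 p).2))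
  have hm1 : ∀ p : P, V1 p ∈ Qk f k := by
    intro p
    refine ⟨fun h => (hV1 p).1 ((hS _).2 h), ?_⟩
    rw [hN1]
    exact (hk3 _).2 p.2.2
  have hm2 : ∀ p : P, V2 p ∈ Qk f k := by
    intro p
    refine ⟨fun h => (hV2 p).1 ((hS _).2 h), ?_⟩
    rw [hN2]
    exact (hk3 _).2 p.2.2
  have hcov : ∀ q ∈ Qk f k, (Ideal.absNorm q.asIdeal).Prime →
      q ∈ Set.range V1 ∨ q ∈ Set.range V2 := by
    intro q hq hpr
    have hq0 := hQS q hq
    obtain ⟨h1, h2, h3, h4⟩ := hg q hq0
    obtain ⟨p, hp⟩ : ∃ p : P, p.1 = Ideal.absNorm q.asIdeal := ⟨⟨_, hpr, (hk3 _).1 hq.2⟩, rfl⟩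
    have h5 : gn f q ∣ π p * star (π p) := by
      rw [mul_star, (hπ p).2.2, hp, ← h4]
      have h6 : nrm (gn f q) = nr (gn f q) := rfl
      rw [h6, ← mul_star]
      exact dvd_mul_right _ _
    rcases h1.dvd_or_dvd h5 with h6 | h6
    · left
      have h7 := eq_of_dvd (hπ p).1 (hπ p).2.1 h1 h2 h6
      refine ⟨p, hinj _ (hV1 p).1 _ hq0 ?_⟩
      rw [(hV1 p).2, h7]
    · right
      have h7 := eq_of_dvd (star_prime (hπ p).1) (star_prim (hπ p).2.1) h1 h2 h6
      refine ⟨p, hinj _ (hV2 p).1 _ hq0 ?_⟩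
      rw [(hV2 p).2, h7]
  -- the other places
  let I : Set (Pl K) := {q | q ∈ Qk f k ∧ ¬ (Ideal.absNorm q.asIdeal).Prime}
  have hI : ∀ q : I, ∃ l : ℕ, l.Prime ∧ gn f q.1 ∣ (l : Ei) ∧
      Ideal.absNorm q.1.asIdeal = l ^ 2 := by
    rintro ⟨q, hq, hn⟩
    obtain ⟨h1, h2, h3, h4⟩ := hg q (hQS q hq)
    obtain ⟨l, hl, hd, h5⟩ := exists_p (π := gn f q) h1
    have h6 : nrm (gn f q) = nr (gn f q) := rfl
    rw [← h6, h4] at h5
    refine ⟨l, hl, hd, ?_⟩
    rcases h5 with h5 | h5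
    · exfalso
      apply hn
      have h7 : Ideal.absNorm q.asIdeal = l := by exact_mod_cast h5
      rw [h7]; exact hl
    · exact_mod_cast h5
  choose l hl hd hNl using hI
  have hli : Function.Injective l := by
    intro q q' h
    apply Subtype.ext
    have hq0 := hQS q.1 q.2.1
    have hq0' := hQS q'.1 q'.2.1
    obtain ⟨h1, h2, h3, h4⟩ := hg q.1 hq0
    obtain ⟨h1', h2', h3', h4'⟩ := hg q'.1 hq0'
    apply hinj _ hq0 _ hq0'
    apply eq_of_dvd h1' h2' h1 h2
    -- `l` is an associate of `gn f q'`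
    obtain ⟨c, hc⟩ := hd q'
    have h5 : nr (gn f q'.1) = (l q' : ℤ) ^ 2 := by
      have h6 : nrm (gn f q'.1) = nr (gn f q'.1) := rfl
      rw [← h6, h4', hNl q']
      push_cast
      rfl
    have h6 : nr c = 1 := by
      have h7 := nr_nat (l q')
      rw [hc, nr_mul, h5] at h7
      have h8 : ((l q' : ℤ)) ^ 2 ≠ 0 := by
        have := (hl q').ne_zero
        positivity
      exact mul_left_cancel₀ h8 (by rw [h7, mul_one])
    have h7 : gn f q.1 ∣ gn f q'.1 * c := by
      rw [← hc, ← h]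
      exact hd q
    rcases h1.dvd_or_dvd h7 with h8 | h8
    · exact h8
    · exact absurd (isUnit_of_dvd_unit h8 (isUnit_iff.2 h6)) h1.not_isUnit
  -- analysis
  let G : ℝ → Pl K → ℝ := fun s q => (Ideal.absNorm q.asIdeal : ℝ) ^ (-s)
  have hsP : ∀ s : ℝ, 1 < s → Summable (fun p : P => ((p.1 : ℕ) : ℝ) ^ (-s)) := by
    intro s hs
    have h1 : Summable (fun n : ℕ => (n : ℝ) ^ (-s)) := Real.summable_nat_rpow.2 (by linarith)
    exact h1.comp_injective Subtype.val_injective
  have hsum1 : ∀ s : ℝ, 1 < s → HasSum (Set.indicator (Set.range V1) (G s))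
      (∑' p : P, ((p.1 : ℕ) : ℝ) ^ (-s)) := by
    intro s hs
    rw [← hi1.hasSum_iff (fun x hx => Set.indicator_of_notMem hx _)]
    have h1 : Set.indicator (Set.range V1) (G s) ∘ V1 = fun p : P => ((p.1 : ℕ) : ℝ) ^ (-s) := by
      funext p
      simp only [Function.comp]
      rw [Set.indicator_of_mem (Set.mem_range_self p)]
      show (Ideal.absNorm (V1 p).asIdeal : ℝ) ^ (-s) = _
      rw [hN1]
    rw [h1]
    exact (hsP s hs).hasSum
  have hsum2 : ∀ s : ℝ, 1 < s → HasSum (Set.indicator (Set.range V2) (G s))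
      (∑' p : P, ((p.1 : ℕ) : ℝ) ^ (-s)) := by
    intro s hs
    rw [← hi2.hasSum_iff (fun x hx => Set.indicator_of_notMem hx _)]
    have h1 : Set.indicator (Set.range V2) (G s) ∘ V2 = fun p : P => ((p.1 : ℕ) : ℝ) ^ (-s) := by
      funext p
      simp only [Function.comp]
      rw [Set.indicator_of_mem (Set.mem_range_self p)]
      show (Ideal.absNorm (V2 p).asIdeal : ℝ) ^ (-s) = _
      rw [hN2]
    rw [h1]
    exact (hsP s hs).hasSum
  have hI1 : Summable (Set.indicator I (G 1)) := by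
    rw [← summable_subtype_iff_indicator]
    have h1 : (G 1 ∘ ((↑) : I → Pl K)) = (fun n : ℕ => (n : ℝ) ^ (-(2 : ℝ))) ∘ l := by
      funext q
      simp only [Function.comp]
      show (Ideal.absNorm q.1.asIdeal : ℝ) ^ (-(1 : ℝ)) = _
      rw [hNl q]
      push_cast
      rw [← Real.rpow_natCast, ← Real.rpow_mul (Nat.cast_nonneg _)]
      norm_num
    rw [h1]
    exact (Real.summable_nat_rpow.2 (by norm_num)).comp_injective hli
  have hG1 : ∀ s : ℝ, 1 < s → ∀ q, Set.indicator I (G s) q ≤ Set.indicator I (G 1) q := by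
    intro s hs q
    apply Set.indicator_le_indicator
    apply Real.rpow_le_rpow_of_exponent_le
    · have h1 : 0 < Ideal.absNorm q.asIdeal := Nat.pos_of_ne_zero (by
        rw [Ne, Ideal.absNorm_eq_zero_iff]; exact q.ne_bot)
      exact_mod_cast h1
    · linarith
  have hG0 : ∀ s : ℝ, ∀ q, 0 ≤ Set.indicator I (G s) q := by
    intro s q
    apply Set.indicator_nonneg
    intro x _
    exact Real.rpow_nonneg (Nat.cast_nonneg _) _
  have hIs : ∀ s : ℝ, 1 < s → Summable (Set.indicator I (G s)) := fun s hs =>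
    Summable.of_nonneg_of_le (hG0 s) (hG1 s hs) hI1
  have hdec : ∀ s : ℝ, 1 < s → (∑' q : Pl K, if q ∈ Qk f k then
      (Ideal.absNorm q.asIdeal : ℝ) ^ (-s) else 0) =
      2 * (∑' p : ℕ, if p.Prime ∧ (p : ZMod (3 ^ (k + 1))) = 1 then (p : ℝ) ^ (-s) else 0) +
        ∑' q, Set.indicator I (G s) q := by
    intro s hs
    have h1 := ((hsum1 s hs).add (hsum2 s hs)).add (hIs s hs).hasSum
    have h2 : (∑' p : P, ((p.1 : ℕ) : ℝ) ^ (-s)) =
        ∑' p : ℕ, if p.Prime ∧ (p : ZMod (3 ^ (k + 1))) = 1 then (p : ℝ) ^ (-s) else 0 := by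
      have h3 := tsum_subtype {p : ℕ | p.Prime ∧ (p : ZMod (3 ^ (k + 1))) = 1}
        (fun p : ℕ => (p : ℝ) ^ (-s))
      refine h3.trans (tsum_congr fun p => ?_)
      by_cases h : p.Prime ∧ (p : ZMod (3 ^ (k + 1))) = 1
      · rw [Set.indicator_of_mem (show p ∈ {p : ℕ | p.Prime ∧ (p : ZMod (3 ^ (k + 1))) = 1} from h),
          if_pos h]
      · rw [Set.indicator_of_notMem
          (show p ∉ {p : ℕ | p.Prime ∧ (p : ZMod (3 ^ (k + 1))) = 1} from h), if_neg h]
    rw [← h2]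
    have h3 : (fun q : Pl K => if q ∈ Qk f k then (Ideal.absNorm q.asIdeal : ℝ) ^ (-s) else 0) =
        fun q => Set.indicator (Set.range V1) (G s) q + Set.indicator (Set.range V2) (G s) q +
          Set.indicator I (G s) q := by
      funext q
      by_cases hq : q ∈ Qk f k
      · rw [if_pos hq]
        by_cases hpr : (Ideal.absNorm q.asIdeal).Prime
        · have hqI : q ∉ I := fun h => h.2 hpr
          rw [Set.indicator_of_notMem hqI, add_zero]
          rcases hcov q hq hpr with h | h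
          · have h' : q ∉ Set.range V2 := by
              rintro ⟨p', hp'⟩
              obtain ⟨p, hp⟩ := h
              exact hdis p p' (hp.trans hp'.symm)
            rw [Set.indicator_of_mem h, Set.indicator_of_notMem h', add_zero]
          · have h' : q ∉ Set.range V1 := by
              rintro ⟨p', hp'⟩
              obtain ⟨p, hp⟩ := h
              exact hdis p' p (hp'.trans hp.symm)
            rw [Set.indicator_of_mem h, Set.indicator_of_notMem h', zero_add]
        · have hqI : q ∈ I := ⟨hq, hpr⟩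
          have h1 : q ∉ Set.range V1 := by
            rintro ⟨p, rfl⟩
            exact hpr (by rw [hN1]; exact p.2.1)
          have h2 : q ∉ Set.range V2 := by
            rintro ⟨p, rfl⟩
            exact hpr (by rw [hN2]; exact p.2.1)
          rw [Set.indicator_of_notMem h1, Set.indicator_of_notMem h2, Set.indicator_of_mem hqI,
            zero_add, zero_add]
      · rw [if_neg hq]
        have hqI : q ∉ I := fun h => hq h.1
        have h1 : q ∉ Set.range V1 := by
          rintro ⟨p, rfl⟩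
          exact hq (hm1 p)
        have h2 : q ∉ Set.range V2 := by
          rintro ⟨p, rfl⟩
          exact hq (hm2 p)
        rw [Set.indicator_of_notMem h1, Set.indicator_of_notMem h2, Set.indicator_of_notMem hqI,
          zero_add, zero_add]
    rw [h3, h1.tsum_eq]
    ring
  -- the limit
  show Tendsto _ _ _
  have hL := log_top
  have hT := hPAP (3 ^ (k + 1)) (Nat.one_le_pow _ _ (by norm_num))
  have hJ : Tendsto (fun s : ℝ => (∑' q, Set.indicator I (G s) q) / Real.log (1 / (s - 1)))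
      (𝓝[>] 1) (𝓝 0) := by
    have h0 : Tendsto (fun s : ℝ => (∑' q, Set.indicator I (G 1) q) / Real.log (1 / (s - 1)))
        (𝓝[>] 1) (𝓝 0) := hL.const_div_atTop _
    refine tendsto_of_tendsto_of_tendsto_of_le_of_le' tendsto_const_nhds h0 ?_ ?_
    · filter_upwards [hL.eventually_gt_atTop 0] with s hs
      exact div_nonneg (tsum_nonneg (hG0 s)) hs.le
    · filter_upwards [hL.eventually_gt_atTop 0, self_mem_nhdsWithin] with s hs hs1
      refine div_le_div_of_nonneg_right ?_ hs.le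
      exact (hIs s hs1).tsum_le_tsum (hG1 s hs1) hI1
  have h1 := (hT.const_mul 2).add hJ
  have h2 : 2 * (1 / ((3 ^ (k + 1)).totient : ℝ)) + 0 = 1 / ((3 ^ k : ℕ) : ℝ) := by
    rw [Nat.totient_prime_pow_succ Nat.prime_three]
    push_cast
    field_simp
    norm_num
  rw [h2] at h1
  refine h1.congr' ?_
  filter_upwards [self_mem_nhdsWithin] with s hs
  rw [hdec s hs, add_div, mul_div_assoc]

end Pool.Agent.T3h73.TK.DENQ
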