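import Pool.Agent.T3h73.TK.Stm
import Pool.Agent.Y715.T.RecC

/-! task DIC of the project TK: the dictionary between places and primary primes -/

set_option autoImplicit false
set_option linter.all false

open NumberField IsDedekindDomain

namespace Pool.Agent.T3h73.TK.DIC

open Pool.Agent.T3h73.SL (Pl)
open Pool.Agent.T3h73.TK
open Pool.Agent.Y715.T.St (Eis nrm)
open Pool.Agent.Y692.QS
open Pool.Agent.Y715.T.Rec
open Pool.Agent.Y715.T.Rs

variable {K : Type} [Field K] [NumberField K]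

theorem exists_gen (f : Eis ≃+* 𝓞 K) (I : Ideal (𝓞 K)) : ∃ α : Eis, Ideal.span {f α} = I := by
  obtain ⟨α, hα⟩ := (IsPrincipalIdealRing.principal (I.comap (f : Eis →+* 𝓞 K))).principal
  refine ⟨α, ?_⟩
  have h1 : Ideal.map (f : Eis →+* 𝓞 K) (I.comap (f : Eis →+* 𝓞 K)) = I :=
    Ideal.map_comap_of_surjective _ f.surjective I
  rw [← h1, hα]
  rw [Ideal.submodule_span_eq, Ideal.map_span, Set.image_singleton]
  rfl

theorem unit_one {u : Ei} (hu : IsUnit u) (h3 : (3 : Ei) ∣ u - 1) : u = 1 := by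
  obtain ⟨c, hc | hc⟩ := Pool.Agent.Y715.T.RecC.unit_form hu
  · rw [hc] at h3 ⊢
    have h5 : (((3 : ℤ) : Ei)) ∣ w ^ c.val - 1 := by exact_mod_cast h3
    rw [int_dvd] at h5
    exact (by decide : ∀ c : ZMod 3, ((3 : ℤ) ∣ (w ^ c.val - 1 : Ei).re ∧
      (3 : ℤ) ∣ (w ^ c.val - 1 : Ei).im) → (w : Ei) ^ c.val = 1) c h5
  · exfalso
    rw [hc] at h3
    have h5 : (((3 : ℤ) : Ei)) ∣ -w ^ c.val - 1 := by exact_mod_cast h3
    rw [int_dvd] at h5
    exact (by decide : ∀ c : ZMod 3, ¬ ((3 : ℤ) ∣ (-w ^ c.val - 1 : Ei).re ∧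
      (3 : ℤ) ∣ (-w ^ c.val - 1 : Ei).im)) c h5

theorem prim_uniq {π ρ : Eis} (h3 : (3 : Eis) ∣ π - 1) (h3' : (3 : Eis) ∣ ρ - 1)
    (h : Associated π ρ) : π = ρ := by
  obtain ⟨u, hu⟩ := h
  have h1 : (3 : Eis) ∣ (u : Eis) - 1 := by
    have e : (u : Eis) - 1 = (ρ - 1) - (π - 1) * u := by rw [← hu]; ring
    rw [e]
    exact dvd_sub h3' (Dvd.dvd.mul_right h3 _)
  rw [← hu, unit_one u.isUnit h1, mul_one]

theorem assoc_of_span (f : Eis ≃+* 𝓞 K) {π ρ : Eis}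
    (h : Ideal.span {f π} = Ideal.span {f ρ}) : Associated π ρ := by
  rw [Ideal.span_singleton_eq_span_singleton] at h
  obtain ⟨u, hu⟩ := h
  refine ⟨Units.map (f.symm : 𝓞 K →* Eis) u, ?_⟩
  apply f.injective
  rw [map_mul]
  simpa using hu

theorem prime_f (f : Eis ≃+* 𝓞 K) (π : Eis) : Prime (f π) ↔ Prime π :=
  MulEquiv.prime_iff (f : Eis ≃* 𝓞 K)

theorem dvd_f (f : Eis ≃+* 𝓞 K) (π x : Eis) : f π ∣ f x ↔ π ∣ x :=
  map_dvd_iff (f : Eis ≃* 𝓞 K)

theorem three_mem (f : Eis ≃+* 𝓞 K) (π : Eis) : (3 : 𝓞 K) ∈ Ideal.span {f π} ↔ π ∣ 3 := by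
  rw [Ideal.mem_span_singleton, ← dvd_f f]
  have : f 3 = 3 := map_ofNat f 3
  rw [this]

theorem exists_prim' (f : Eis ≃+* 𝓞 K) (v : Pl K) (h3 : (3 : 𝓞 K) ∉ v.asIdeal) :
    ∃ π : Eis, Prime π ∧ (3 : Eis) ∣ π - 1 ∧ Ideal.span {f π} = v.asIdeal := by
  obtain ⟨α, hα⟩ := exists_gen f v.asIdeal
  have hp : Prime (f α) := by
    have h1 : f α ≠ 0 := by
      intro h
      rw [h] at hα
      apply v.ne_bot
      rw [← hα]
      simp
    have h2 := v.isPrime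
    rw [← hα, Ideal.span_singleton_prime h1] at h2
    exact h2
  rw [prime_f] at hp
  have h4 : ¬ α ∣ 3 := by
    rw [← three_mem f, hα]
    exact h3
  obtain ⟨u, hu, hu3⟩ := Pool.Agent.Y715.T.RecC.exists_prim hp h4
  have ha : Associated α (u * α) := by
    obtain ⟨v, rfl⟩ := hu
    exact ⟨v, mul_comm _ _⟩
  refine ⟨u * α, (ha.prime_iff).1 hp, hu3, ?_⟩
  rw [← hα, Ideal.span_singleton_eq_span_singleton]
  exact (ha.map (f : Eis →* 𝓞 K)).symm

theorem norm_f (f : Eis ≃+* 𝓞 K) (π : Eis) : nrm π = Ideal.absNorm (Ideal.span {f π}) := by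
  have h1 : Ideal.span {f π} = Ideal.map (f : Eis →+* 𝓞 K) (Ideal.span {π}) := by
    rw [Ideal.map_span, Set.image_singleton]
    rfl
  have h2 : Nat.card (Eis ⧸ Ideal.span {π}) = Nat.card (𝓞 K ⧸ Ideal.span {f π}) :=
    Nat.card_congr (Ideal.quotientEquiv _ _ f h1).toEquiv
  rw [Ideal.absNorm_apply, Submodule.cardQuot_apply]
  have h3 := card_quo π
  rw [h2] at h3
  exact h3.symm

/-- the place of a prime -/
noncomputable def pla (f : Eis ≃+* 𝓞 K) (π : Eis) (hp : Prime π) : Pl K where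
  asIdeal := Ideal.span {f π}
  isPrime := by
    rw [Ideal.span_singleton_prime ((prime_f f π).2 hp).ne_zero]
    exact (prime_f f π).2 hp
  ne_bot := by
    intro h
    rw [Ideal.span_singleton_eq_bot] at h
    exact ((prime_f f π).2 hp).ne_zero h

theorem gn_spec (f : Eis ≃+* 𝓞 K) (v : Pl K) (h3 : (3 : 𝓞 K) ∉ v.asIdeal) :
    Prime (gn f v) ∧ (3 : Eis) ∣ gn f v - 1 ∧ Ideal.span {f (gn f v)} = v.asIdeal := by
  have h := exists_prim' f v h3
  unfold gn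
  rw [dif_pos h]
  exact h.choose_spec

theorem t_DIC : S_DIC := by
  intro K _ _ f
  have h30 : Ideal.span {(3 : 𝓞 K)} ≠ 0 := by
    intro h
    rw [Ideal.zero_eq_bot, Ideal.span_singleton_eq_bot] at h
    exact (by norm_num : (3 : 𝓞 K) ≠ 0) h
  have hfin : {v : Pl K | (3 : 𝓞 K) ∈ v.asIdeal}.Finite := by
    refine (Ideal.finite_factors h30).subset ?_
    intro v hv
    show v.asIdeal ∣ Ideal.span {(3 : 𝓞 K)}
    rw [Ideal.dvd_span_singleton]
    exact hv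
  refine ⟨hfin.toFinset, ?_, ?_, ?_⟩
  · intro v
    rw [Set.Finite.mem_toFinset]
    rfl
  · intro v hv
    rw [Set.Finite.mem_toFinset] at hv
    obtain ⟨h1, h2, h3⟩ := gn_spec f v hv
    refine ⟨h1, h2, h3, ?_⟩
    rw [norm_f f, h3]
  · intro π hp h3
    have hn : ¬ π ∣ 3 := by
      intro h1
      have h2 : π ∣ 1 := by
        have h4 := dvd_sub (dvd_refl π) (dvd_trans h1 h3)
        rwa [sub_sub_cancel] at h4
      exact hp.not_isUnit (isUnit_of_dvd_one h2)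
    have hv : (3 : 𝓞 K) ∉ (pla f π hp).asIdeal := by
      show (3 : 𝓞 K) ∉ Ideal.span {f π}
      rw [three_mem]
      exact hn
    refine ⟨pla f π hp, ?_, ?_⟩
    · rw [Set.Finite.mem_toFinset]
      exact hv
    · obtain ⟨h1, h2, h4⟩ := gn_spec f (pla f π hp) hv
      exact prim_uniq h2 h3 (assoc_of_span f h4)

end Pool.Agent.T3h73.TK.DIC
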