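import Pool.Agent.T3h73.SD.EULa

/-! Infinite products: several L-functions (helper7, for EULQ). -/

set_option autoImplicit false
set_option linter.all false

open Filter Topology

namespace Pool.Agent.T3h73.TK.EULQ

open Pool.Agent.T3h73.SD.EUL (norm_one_add_le prod_le le_prod)

/-- the real parts of one family -/
theorem re_le {P : Type*} (w : P → ℂ) (b : P → ℝ) (hb : Summable b) (hwb : ∀ q, ‖w q‖ ≤ b q)
    (hb1 : ∀ q, b q < 1) (L : ℂ) (hL : HasProd (fun q => (1 - w q)⁻¹) L) (M : ℝ) (hLM : ‖L‖ ≤ M) :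
    Summable (fun q => (w q).re) ∧ ∑' q, (w q).re ≤ Real.log M + (∑' q, b q ^ 2) / 2 := by
  have hb0 : ∀ q, 0 ≤ b q := fun q => (norm_nonneg _).trans (hwb q)
  have hw : Summable fun q => ‖w q‖ := hb.of_nonneg_of_le (fun q => norm_nonneg _) hwb
  have hbsq : Summable fun q => b q ^ 2 := by
    refine hb.of_nonneg_of_le (fun q => sq_nonneg _) fun q => ?_
    rw [sq]
    exact mul_le_of_le_one_right (hb0 q) (hb1 q).le
  have hwr : Summable fun q => (w q).re := hw.of_norm_bounded fun q => by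
    rw [Real.norm_eq_abs]; exact Complex.abs_re_le_norm _
  refine ⟨hwr, ?_⟩
  have h2 : Real.exp (∑' q, (w q).re - (∑' q, b q ^ 2) / 2) ≤ ‖L‖ := by
    refine le_prod (fun q => ?_) hL.norm (hwr.hasSum.sub (hbsq.hasSum.div_const 2))
    have h3 := norm_one_add_le (-w q)
    rw [norm_neg, Complex.neg_re] at h3
    have h4 : 0 < ‖1 - w q‖ := by
      rw [norm_pos_iff, sub_ne_zero]
      intro h5
      have := (hwb q).trans_lt (hb1 q)
      rw [← h5, norm_one] at this
      exact lt_irrefl _ this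
    rw [norm_inv, le_inv_comm₀ (Real.exp_pos _) h4, ← Real.exp_neg]
    have h5 : -((w q).re - b q ^ 2 / 2) = -(w q).re + b q ^ 2 / 2 := by ring
    rw [h5]
    refine h3.trans (Real.exp_le_exp.2 ?_)
    have := pow_le_pow_left₀ (norm_nonneg _) (hwb q) 2
    linarith
  have hLpos : 0 < ‖L‖ := lt_of_lt_of_le (Real.exp_pos _) h2
  have h3 := (Real.le_log_iff_exp_le hLpos).2 h2
  have h4 : Real.log ‖L‖ ≤ Real.log M := Real.log_le_log hLpos hLM
  linarith

open Classical in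
/-- the product whose factors are means of several families -/
theorem core {ι P : Type*} [Fintype ι] [Nonempty ι] (w : ι → P → ℂ) (b : P → ℝ) (hb : Summable b)
    (hwb : ∀ i q, ‖w i q‖ ≤ b q) (hb1 : ∀ q, b q < 1) (L : ι → ℂ)
    (hL : ∀ i, HasProd (fun q => (1 - w i q)⁻¹) (L i)) (M : ℝ) (hM : 1 ≤ M) (hLM : ∀ i, ‖L i‖ ≤ M)
    (m : ℕ) (hm : 1 ≤ m) (F : Finset P) :
    ‖∑' A : Finset P, ∏ q ∈ A, (if q ∈ F then 0 else (∑ i, w i q) / ((m : ℂ) * Fintype.card ι))‖ ≤
      M * Real.exp (∑' q, b q ^ 2 + ∑ q ∈ F, b q) := by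
  have hm0 : (0 : ℝ) < m := by exact_mod_cast hm
  have hm1 : (1 : ℝ) ≤ m := by exact_mod_cast hm
  obtain ⟨c, hc⟩ : ∃ c : ℝ, c = (m : ℝ) * Fintype.card ι := ⟨_, rfl⟩
  have hcard : (1 : ℝ) ≤ Fintype.card ι := by exact_mod_cast Fintype.card_pos
  have hc0 : 0 < c := by rw [hc]; positivity
  have hcc : ((m : ℂ) * Fintype.card ι) = (c : ℂ) := by rw [hc]; push_cast; rfl
  have hb0 : ∀ q, 0 ≤ b q := fun q => (norm_nonneg _).trans (hwb (Classical.arbitrary ι) q)
  rw [hcc]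
  set z : P → ℂ := fun q => if q ∈ F then 0 else (∑ i, w i q) / (c : ℂ) with hz
  have hzb : ∀ q, ‖z q‖ ≤ b q := by
    intro q
    simp only [hz]
    split_ifs
    · rw [norm_zero]; exact hb0 q
    · rw [norm_div, Complex.norm_real, Real.norm_of_nonneg hc0.le, div_le_iff₀ hc0]
      calc ‖∑ i, w i q‖ ≤ ∑ i : ι, b q := norm_sum_le_of_le _ fun i _ => hwb i q
        _ = Fintype.card ι * b q := by rw [Finset.sum_const, Finset.card_univ, nsmul_eq_mul]
        _ ≤ b q * c := by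
          rw [hc]
          nlinarith [mul_nonneg (hb0 q) (by linarith : (0 : ℝ) ≤ Fintype.card ι)]
  have hzs : Summable fun q => ‖z q‖ := hb.of_nonneg_of_le (fun q => norm_nonneg _) hzb
  have hP : HasProd (fun q => 1 + z q) (∑' A : Finset P, ∏ q ∈ A, z q) :=
    hasProd_one_add_of_hasSum_prod (summable_finsetProd_of_summable_norm hzs).hasSum
  have hbsq : Summable fun q => b q ^ 2 := by
    refine hb.of_nonneg_of_le (fun q => sq_nonneg _) fun q => ?_
    rw [sq]
    exact mul_le_of_le_one_right (hb0 q) (hb1 q).le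
  have hzsq : Summable fun q => ‖z q‖ ^ 2 :=
    hbsq.of_nonneg_of_le (fun q => sq_nonneg _) fun q =>
      pow_le_pow_left₀ (norm_nonneg _) (hzb q) 2
  have hzr : Summable fun q => (z q).re := hzs.of_norm_bounded fun q => by
    rw [Real.norm_eq_abs]; exact Complex.abs_re_le_norm _
  have h1 : ‖∑' A : Finset P, ∏ q ∈ A, z q‖ ≤
      Real.exp (∑' q, (z q).re + (∑' q, ‖z q‖ ^ 2) / 2) :=
    prod_le (fun q => norm_nonneg _) (fun q => norm_one_add_le (z q)) hP.norm
      (hzr.hasSum.add (hzsq.hasSum.div_const 2))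
  have hre := fun i => re_le (w i) b hb (hwb i) hb1 (L i) (hL i) M (hLM i)
  -- the real parts
  have h4 : ∑' q, (z q).re = (∑ i, ∑' q, (w i q).re - ∑ q ∈ F, ∑ i, (w i q).re) / c := by
    have h5 : HasSum (fun q => if q ∈ F then ∑ i, (w i q).re else 0) (∑ q ∈ F, ∑ i, (w i q).re) := by
      have := hasSum_sum_of_ne_finset_zero (f := fun q => if q ∈ F then ∑ i, (w i q).re else 0) (s := F)
        (fun i hi => if_neg hi) (L := SummationFilter.unconditional _)
      convert this using 1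
      exact Finset.sum_congr rfl fun i hi => (if_pos hi).symm
    have h7 : HasSum (fun q => ∑ i, (w i q).re) (∑ i, ∑' q, (w i q).re) :=
      hasSum_sum fun i _ => (hre i).1.hasSum
    have h6 := (h7.sub h5).div_const c
    rw [← h6.tsum_eq]
    refine tsum_congr fun q => ?_
    simp only [hz]
    split_ifs with hi
    · simp
    · rw [sub_zero, Complex.div_ofReal_re, Complex.re_sum]
  have h5 : - ∑ q ∈ F, ∑ i, (w i q).re ≤ Fintype.card ι * ∑ q ∈ F, b q := by
    rw [← Finset.sum_neg_distrib, Finset.mul_sum]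
    refine Finset.sum_le_sum fun q _ => ?_
    rw [← Finset.sum_neg_distrib]
    calc ∑ i, -(w i q).re ≤ ∑ i : ι, b q :=
          Finset.sum_le_sum fun i _ => ((neg_le_abs _).trans (Complex.abs_re_le_norm _)).trans (hwb i q)
      _ = Fintype.card ι * b q := by rw [Finset.sum_const, Finset.card_univ, nsmul_eq_mul]
  have hQ0 : 0 ≤ ∑' q, b q ^ 2 := tsum_nonneg fun q => sq_nonneg _
  have h6 : ∑' q, ‖z q‖ ^ 2 ≤ ∑' q, b q ^ 2 :=
    hzsq.tsum_le_tsum (fun q => pow_le_pow_left₀ (norm_nonneg _) (hzb q) 2) hbsq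
  have hFn : 0 ≤ ∑ q ∈ F, b q := Finset.sum_nonneg fun q _ => hb0 q
  have hlog0 : 0 ≤ Real.log M := Real.log_nonneg hM
  have h9 : ∑ i, ∑' q, (w i q).re ≤ Fintype.card ι * (Real.log M + (∑' q, b q ^ 2) / 2) := by
    calc ∑ i, ∑' q, (w i q).re ≤ ∑ i : ι, (Real.log M + (∑' q, b q ^ 2) / 2) :=
          Finset.sum_le_sum fun i _ => (hre i).2
      _ = _ := by rw [Finset.sum_const, Finset.card_univ, nsmul_eq_mul]
  have h7 : ∑' q, (z q).re ≤ Real.log M + (∑' q, b q ^ 2) / 2 + ∑ q ∈ F, b q := by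
    rw [h4, div_le_iff₀ hc0]
    have h8 : 0 ≤ Real.log M + (∑' q, b q ^ 2) / 2 + ∑ q ∈ F, b q := by positivity
    calc ∑ i, ∑' q, (w i q).re - ∑ q ∈ F, ∑ i, (w i q).re
        ≤ Fintype.card ι * (Real.log M + (∑' q, b q ^ 2) / 2 + ∑ q ∈ F, b q) := by linarith
      _ ≤ (Real.log M + (∑' q, b q ^ 2) / 2 + ∑ q ∈ F, b q) * c := by
        rw [hc]
        nlinarith [mul_nonneg h8 (by linarith : (0 : ℝ) ≤ Fintype.card ι)]
  calc ‖∑' A : Finset P, ∏ q ∈ A, z q‖ ≤
      Real.exp (∑' q, (z q).re + (∑' q, ‖z q‖ ^ 2) / 2) := h1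
    _ ≤ Real.exp (Real.log M + (∑' q, b q ^ 2 + ∑ q ∈ F, b q)) := by
        apply Real.exp_le_exp.2
        linarith
    _ = _ := by rw [Real.exp_add, Real.exp_log (by positivity)]

end Pool.Agent.T3h73.TK.EULQ
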