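import Pool.Agent.T3h73.TK.Stm
import Pool.Agent.T3h73.TK.EulA
import Pool.Agent.T3h73.SD.T_EUL

/-! The sums over one variable, restricted to `Q` (EULQ); adaptation of `SD/T_EUL.lean`. -/

set_option autoImplicit false
set_option linter.all false

open NumberField IsDedekindDomain Filter Topology

namespace Pool.Agent.T3h73.TK.EULQ

open Pool.Agent.T3h73.SL (Pl)
open Pool.Agent.T3h73.SD (ee NA gA trm S_LU)
open Pool.Agent.Y773.G (IsModChar)
open Pool.Agent.Y773 (LI)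
open Pool.Agent.T3h73.SD.EUL (ee_eq ee_add ee_zero ee_sum two_le_N ePl sum_N NA_pos one_le_gA exp_sum_le NA_rpow absNorm_prod)

open Classical in
theorem t_EULQ (hLU : S_LU) : S_EULQ := by
  intro ℓ hℓ K _ _ S 𝔪 Λ _ χ sy Q n ι _ Ψ hsysQ m hm
  have hsys := hsysQ.sys
  have hne : NeZero ℓ := ⟨hℓ.ne_zero⟩
  have hιne : Nonempty ι := hsysQ.ne
  obtain ⟨C₀, hC₀, hLU⟩ := hLU K
  have hN𝔪 : 1 ≤ Ideal.absNorm 𝔪 := by
    rw [Nat.one_le_iff_ne_zero, Ne, Ideal.absNorm_eq_zero_iff]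
    exact hsys.ne_bot
  have hlog𝔪 : 0 ≤ Real.log (Ideal.absNorm 𝔪) := Real.log_nonneg (by exact_mod_cast hN𝔪)
  set Q₀ : ℝ := ∑' q : Pl K, (Ideal.absNorm q.asIdeal : ℝ) ^ (-(2 : ℝ)) with hQ₀
  set C₁ : ℝ := max 1 (C₀ * (1 + Real.log (Ideal.absNorm 𝔪)) ^ C₀) with hC₁
  have hC₁1 : 1 ≤ C₁ := le_max_left _ _
  set C : ℝ := max (C₁ * Real.exp Q₀) (max C₀ 2) with hC
  have hCC₀ : C₀ ≤ C := (le_max_left _ _).trans (le_max_right _ _)
  have hC2 : 2 ≤ C := (le_max_right _ _).trans (le_max_right _ _)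
  refine ⟨C, by linarith, ?_⟩
  intro h j B F hBS hjB hnt s hs1 hs2
  have hch := hsysQ.char h j B hBS hjB hnt
  choose η hη hη1 hηq hηnt using hch
  have hηS : ∀ i, ∀ q : Pl K, q ∈ S → η i q.asIdeal = 0 := by
    intro i q hq
    by_contra h0
    have h1 := ((hη i).supp _).1 h0
    have h2 : IsCoprime q.asIdeal 𝔪 := IsCoprime.of_mul_right_left h1
    exact ((hsys.cop q).1 h2) hq
  have hηB : ∀ i, ∀ q : Pl K, q ∈ B → η i q.asIdeal = 0 := by
    intro i q hq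
    by_contra h0
    have h1 := ((hη i).supp _).1 h0
    have h2 : IsCoprime q.asIdeal (∏ b ∈ B, b.asIdeal) := IsCoprime.of_mul_right_right h1
    have h3 : IsCoprime q.asIdeal q.asIdeal :=
      (IsCoprime.prod_right_iff.1 h2) q hq
    rw [isCoprime_self] at h3
    exact q.prime.not_unit h3
  -- the Euler product
  set w : ι → Pl K → ℂ := fun i q =>
    η i q.asIdeal * ((Ideal.absNorm q.asIdeal : ℕ) : ℂ) ^ (-(s : ℂ)) with hw
  set b : Pl K → ℝ := fun q => (Ideal.absNorm q.asIdeal : ℝ) ^ (-s) with hb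
  have hb0 : ∀ q, 0 ≤ b q := fun q => by simp only [hb]; positivity
  have hnorm : ∀ q : Pl K, ‖((Ideal.absNorm q.asIdeal : ℕ) : ℂ) ^ (-(s : ℂ))‖ =
      (Ideal.absNorm q.asIdeal : ℝ) ^ (-s) := by
    intro q
    rw [Complex.norm_natCast_cpow_of_pos (by have := two_le_N q; omega), Complex.neg_re,
      Complex.ofReal_re]
  have hcpow : ∀ q : Pl K, ((Ideal.absNorm q.asIdeal : ℕ) : ℂ) ^ (-(s : ℂ)) =
      (((Ideal.absNorm q.asIdeal : ℝ) ^ (-s) : ℝ) : ℂ) := by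
    intro q
    rw [Complex.ofReal_cpow (by positivity)]
    push_cast
    rfl
  have hwle : ∀ i q, ‖w i q‖ ≤ b q := by
    intro i q
    simp only [hw, hb]
    rw [norm_mul, hnorm]
    exact mul_le_of_le_one_left (by positivity) (hη1 i _)
  have hNs : ∀ q : Pl K, b q ≤ 1 / (Ideal.absNorm q.asIdeal : ℝ) := by
    intro q
    have h2 : (2 : ℝ) ≤ Ideal.absNorm q.asIdeal := by exact_mod_cast two_le_N q
    rw [one_div, ← Real.rpow_neg_one]
    exact Real.rpow_le_rpow_of_exponent_le (by linarith) (by linarith)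
  have hb1 : ∀ q, b q < 1 := by
    intro q
    have h2 : (2 : ℝ) ≤ Ideal.absNorm q.asIdeal := by exact_mod_cast two_le_N q
    refine lt_of_le_of_lt (hNs q) ?_
    rw [div_lt_one (by linarith)]
    linarith
  have hL : ∀ i, HasProd (fun q : Pl K => (1 - w i q)⁻¹) (LI (η i) (s : ℂ)) := by
    intro i
    have h1 := Pool.Agent.Y773.AB.hasProd_prime (hη1 i) (s := (s : ℂ)) (by simpa using hs1)
    rw [← (ePl K).hasProd_iff] at h1
    exact h1
  -- the bounds
  have hB1 : (1 : ℝ) ≤ NA B := by exact_mod_cast NA_pos B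
  have hlogB : 0 ≤ Real.log (NA B) := Real.log_nonneg hB1
  have hY : 1 ≤ 1 + Real.log (NA B) := by linarith
  have hG := one_le_gA F
  have hLle : ∀ i, ‖LI (η i) (s : ℂ)‖ ≤ C₀ * (1 + Real.log (Ideal.absNorm 𝔪)) ^ C₀ *
      (1 + Real.log (NA B)) ^ C₀ := by
    intro i
    have hnt' : ∃ 𝔞, IsCoprime 𝔞 (𝔪 * ∏ b ∈ B, b.asIdeal) ∧ η i 𝔞 ≠ 1 := hηnt i
    refine (hLU _ (η i) (hη i) hnt' s hs1 hs2).trans ?_
    rw [mul_assoc]
    apply mul_le_mul_of_nonneg_left _ hC₀.le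
    rw [← Real.mul_rpow (by linarith) (by linarith)]
    apply Real.rpow_le_rpow _ _ hC₀.le
    · have : 0 ≤ Real.log (Ideal.absNorm (𝔪 * ∏ b ∈ B, b.asIdeal)) := Real.log_natCast_nonneg _
      linarith
    · rw [map_mul, absNorm_prod, Nat.cast_mul, Real.log_mul (by positivity) (by positivity)]
      nlinarith [mul_nonneg hlog𝔪 hlogB]
  have hY' : 1 ≤ (1 + Real.log (NA B)) ^ C := Real.one_le_rpow hY (by linarith)
  have hmax : ∀ i, ‖LI (η i) (s : ℂ)‖ ≤ C₁ * (1 + Real.log (NA B)) ^ C := by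
    intro i
    have hYY : (1 + Real.log (NA B)) ^ C₀ ≤ (1 + Real.log (NA B)) ^ C :=
      Real.rpow_le_rpow_of_exponent_le hY hCC₀
    refine (hLle i).trans ?_
    have h1 : 0 ≤ C₀ * (1 + Real.log (Ideal.absNorm 𝔪)) ^ C₀ := by
      have : 0 ≤ (1 + Real.log (Ideal.absNorm 𝔪)) ^ C₀ := Real.rpow_nonneg (by linarith) _
      positivity
    exact mul_le_mul (le_max_right _ _) hYY (Real.rpow_nonneg (by linarith) _) (by linarith)
  have hM1 : 1 ≤ C₁ * (1 + Real.log (NA B)) ^ C := by nlinarith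
  have hcore := core w b (sum_N (K := K) hs1) hwle hb1 _ hL _ hM1 hmax m hm F
  -- the terms
  have hιc : (Fintype.card ι : ℂ) ≠ 0 := by
    exact_mod_cast (Fintype.card_pos (α := ι)).ne'
  have hmc : (m : ℂ) ≠ 0 := by exact_mod_cast (by omega : m ≠ 0)
  have hsumw : ∀ q : Pl K, ∑ i, w i q = if q ∈ Q ∧ q ∉ B then
      (Fintype.card ι : ℂ) * (ee ℓ (χ h q + ∑ b ∈ B, j b * sy b q) *
        (((Ideal.absNorm q.asIdeal : ℝ) ^ (-s) : ℝ) : ℂ)) else 0 := by
    intro q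
    by_cases hqB : q ∈ B
    · rw [if_neg (fun h => h.2 hqB)]
      refine Finset.sum_eq_zero fun i _ => ?_
      simp only [hw]
      rw [hηB i q hqB, zero_mul]
    · by_cases hqS : q ∈ S
      · rw [if_neg (fun h => hsysQ.disj q h.1 hqS)]
        refine Finset.sum_eq_zero fun i _ => ?_
        simp only [hw]
        rw [hηS i q hqS, zero_mul]
      · have h1 : ∑ i, w i q = (∑ i, Ψ i q) * (ee ℓ (χ h q + ∑ b ∈ B, j b * sy b q) *
            (((Ideal.absNorm q.asIdeal : ℝ) ^ (-s) : ℝ) : ℂ)) := by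
          rw [Finset.sum_mul]
          refine Finset.sum_congr rfl fun i _ => ?_
          simp only [hw]
          rw [hηq i q hqS hqB, hcpow]
          ring
        rw [h1]
        by_cases hqQ : q ∈ Q
        · rw [if_pos ⟨hqQ, hqB⟩, hsysQ.ind q hqQ]
        · rw [if_neg (fun h => hqQ h.1), hsysQ.ind' q hqS hqQ, zero_mul]
  have hterm : ∀ A : Finset (Pl K), (if In Q A ∧ Disjoint A B ∧ Disjoint A F then
      ((((m : ℝ) ^ A.card)⁻¹ * (NA A : ℝ) ^ (-s) : ℝ) : ℂ) *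
        ee ℓ (∑ q ∈ A, (χ h q + ∑ b ∈ B, j b * sy b q)) else 0) =
      ∏ q ∈ A, (if q ∈ F then 0 else (∑ i, w i q) / ((m : ℂ) * Fintype.card ι)) := by
    intro A
    split_ifs with hA
    · obtain ⟨hAQ, hAB, hAF⟩ := hA
      have h1 : ∀ q ∈ A, (if q ∈ F then 0 else (∑ i, w i q) / ((m : ℂ) * Fintype.card ι)) =
          ((((m : ℝ))⁻¹ * (Ideal.absNorm q.asIdeal : ℝ) ^ (-s) : ℝ) : ℂ) *
            ee ℓ (χ h q + ∑ b ∈ B, j b * sy b q) := by
        intro q hq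
        rw [if_neg (Finset.disjoint_left.1 hAF hq), hsumw,
          if_pos ⟨hAQ q hq, Finset.disjoint_left.1 hAB hq⟩]
        push_cast
        field_simp
      rw [Finset.prod_congr rfl h1, Finset.prod_mul_distrib, ← ee_sum, ← Complex.ofReal_prod,
        Finset.prod_mul_distrib, Finset.prod_const, NA_rpow, inv_pow]
    · symm
      have h2 : ∃ q ∈ A, q ∉ Q ∨ q ∈ B ∨ q ∈ F := by
        by_contra hcon
        push Not at hcon
        apply hA
        exact ⟨fun q hq => (hcon q hq).1,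
          Finset.disjoint_left.2 fun q hq => (hcon q hq).2.1,
          Finset.disjoint_left.2 fun q hq => (hcon q hq).2.2⟩
      obtain ⟨q, hq, h3⟩ := h2
      apply Finset.prod_eq_zero hq
      rcases h3 with h3 | h3 | h3
      · rw [hsumw q, if_neg (show ¬ (q ∈ Q ∧ q ∉ B) from fun h => h3 h.1), zero_div, ite_self]
      · rw [hsumw q, if_neg (show ¬ (q ∈ Q ∧ q ∉ B) from fun h => h.2 h3), zero_div, ite_self]
      · rw [if_pos h3]
  rw [tsum_congr hterm]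
  refine hcore.trans ?_
  have hQ : ∑' q, b q ^ 2 ≤ Q₀ := by
    have hs2' : Summable fun q : Pl K => (Ideal.absNorm q.asIdeal : ℝ) ^ (-(2 : ℝ)) :=
      sum_N (K := K) (by norm_num)
    have h1 : ∀ q : Pl K, b q ^ 2 ≤ (Ideal.absNorm q.asIdeal : ℝ) ^ (-(2 : ℝ)) := by
      intro q
      have h2 : (2 : ℝ) ≤ Ideal.absNorm q.asIdeal := by exact_mod_cast two_le_N q
      have h4 : b q ^ 2 ≤ (1 / (Ideal.absNorm q.asIdeal : ℝ)) ^ 2 :=
        pow_le_pow_left₀ (hb0 q) (hNs q) 2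
      refine h4.trans (le_of_eq ?_)
      rw [Real.rpow_neg (by linarith), Real.rpow_two, one_div, inv_pow]
    exact Summable.tsum_le_tsum h1 (hs2'.of_nonneg_of_le (fun q => sq_nonneg _) h1) hs2'
  have hF : ∑ q ∈ F, b q ≤ ∑ q ∈ F, 1 / (Ideal.absNorm q.asIdeal : ℝ) :=
    Finset.sum_le_sum fun q _ => hNs q
  have hexp : Real.exp (∑' q, b q ^ 2 + ∑ q ∈ F, b q) ≤ Real.exp Q₀ * gA F ^ C := by
    calc Real.exp (∑' q, b q ^ 2 + ∑ q ∈ F, b q) ≤
        Real.exp (Q₀ + ∑ q ∈ F, 1 / (Ideal.absNorm q.asIdeal : ℝ)) :=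
          Real.exp_le_exp.2 (add_le_add hQ hF)
      _ = Real.exp Q₀ * Real.exp (∑ q ∈ F, 1 / (Ideal.absNorm q.asIdeal : ℝ)) := Real.exp_add _ _
      _ ≤ Real.exp Q₀ * gA F ^ (2 : ℕ) := mul_le_mul_of_nonneg_left (exp_sum_le F) (Real.exp_pos _).le
      _ ≤ Real.exp Q₀ * gA F ^ C := by
          apply mul_le_mul_of_nonneg_left _ (Real.exp_pos _).le
          rw [← Real.rpow_natCast]
          exact Real.rpow_le_rpow_of_exponent_le hG (by exact_mod_cast hC2)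
  have hYn : 0 ≤ (1 + Real.log (NA B)) ^ C := Real.rpow_nonneg (by linarith) _
  have hGn : 0 ≤ gA F ^ C := Real.rpow_nonneg (by linarith) _
  calc C₁ * (1 + Real.log (NA B)) ^ C * Real.exp (∑' q, b q ^ 2 + ∑ q ∈ F, b q) ≤
      (C₁ * (1 + Real.log (NA B)) ^ C) * (Real.exp Q₀ * gA F ^ C) :=
        mul_le_mul_of_nonneg_left hexp (by positivity)
    _ = (C₁ * Real.exp Q₀) * (1 + Real.log (NA B)) ^ C * gA F ^ C := by ring
    _ ≤ C * (1 + Real.log (NA B)) ^ C * gA F ^ C := by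
        apply mul_le_mul_of_nonneg_right _ hGn
        exact mul_le_mul_of_nonneg_right (le_max_left _ _) hYn

end Pool.Agent.T3h73.TK.EULQ
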