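import Pool.Agent.T3h73.TK.Stm2

/-!
# FIB: summation over the families of characters for a fixed set of primes
-/

set_option autoImplicit false

namespace Pool.Agent.T3h73.TK.FIB

open Pool.Agent Pool.Agent.T3h73.TK Pool.Agent.T3h73.TK.Def
open Pool.Agent.Y715.T.St (Eis nrm omega)
open T2h16.TT.St (Adm IsExp Concl sy)

theorem t_FIB (hCHC : S_CHC) : S_FIB := by
  classical
  intro k hk P hP
  have hfin : {lam : ∀ π : P, MulChar (Eis ⧸ Ideal.span {(π : Eis)}) ℂ |
      ∀ π, orderOf (lam π) = 3 ^ k}.Finite := by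
    refine Set.Finite.pi' (t := fun π : P =>
      {l : MulChar (Eis ⧸ Ideal.span {(π : Eis)}) ℂ | orderOf l = 3 ^ k}) fun π => ?_
    have := (hCHC k hk π (hP π π.2)).2.2
    exact this
  have hex : ∀ lam : (∀ π : P, MulChar (Eis ⧸ Ideal.span {(π : Eis)}) ℂ),
      (∀ π, orderOf (lam π) = 3 ^ k) → ∀ π, IsExp k (lam π) (exs k P lam π : ZMod 3) := by
    intro lam hl π
    obtain ⟨e, he, _⟩ := (hCHC k hk π (hP π π.2)).2.1 (lam π) (hl π)
    have h : ∃ e : EE, IsExp k (lam π) (e : ZMod 3) := ⟨e, he⟩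
    unfold exs
    rw [dif_pos h]
    exact h.choose_spec
  refine ⟨hfin, hex, fun F => ?_⟩
  rw [tsum_eq_sum (s := hfin.toFinset) (fun lam hlam => if_neg (by simpa using hlam))]
  have h1 : ∀ lam ∈ hfin.toFinset, (if ∀ π, orderOf (lam π) = 3 ^ k then F (exs k P lam) else 0) =
      F (exs k P lam) := fun lam hlam => if_pos (by simpa using hlam)
  rw [Finset.sum_congr rfl h1, ← Finset.sum_fiberwise hfin.toFinset (fun lam => exs k P lam),
    Finset.mul_sum]
  refine Finset.sum_congr rfl fun e _ => ?_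
  have h3 : ∀ lam ∈ hfin.toFinset.filter (fun lam => exs k P lam = e), F (exs k P lam) = F e :=
    fun lam hlam => by rw [(Finset.mem_filter.1 hlam).2]
  rw [Finset.sum_congr rfl h3, Finset.sum_const, nsmul_eq_mul]
  congr 1
  have h4 : Nat.card {lam : ∀ π : P, MulChar (Eis ⧸ Ideal.span {(π : Eis)}) ℂ //
      ∀ π, orderOf (lam π) = 3 ^ k ∧ IsExp k (lam π) (e π : ZMod 3)} =
      (hfin.toFinset.filter (fun lam => exs k P lam = e)).card := by
    refine Nat.subtype_card _ fun lam => ?_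
    rw [Finset.mem_filter, Set.Finite.mem_toFinset]
    constructor
    · rintro ⟨h, h'⟩ π
      refine ⟨h π, ?_⟩
      rw [← h']
      exact hex lam h π
    · intro h
      have ho : ∀ π, orderOf (lam π) = 3 ^ k := fun π => (h π).1
      refine ⟨ho, ?_⟩
      funext π
      exact ((hCHC k hk π (hP π π.2)).2.1 (lam π) (ho π)).unique (hex lam ho π) (h π).2
  have h5 : Nat.card {lam : ∀ π : P, MulChar (Eis ⧸ Ideal.span {(π : Eis)}) ℂ //
      ∀ π, orderOf (lam π) = 3 ^ k ∧ IsExp k (lam π) (e π : ZMod 3)} = (3 ^ (k - 1)) ^ P.card := by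
    rw [Nat.card_congr (Equiv.subtypePiEquivPi (p := fun (π : P)
      (l : MulChar (Eis ⧸ Ideal.span {(π : Eis)}) ℂ) => orderOf l = 3 ^ k ∧
        IsExp k l (e π : ZMod 3))), Nat.card_pi]
    rw [Finset.prod_congr rfl (fun (π : P) _ =>
      (hCHC k hk π (hP π π.2)).1 (e π : ZMod 3) (e π).2), Finset.prod_const, Finset.card_univ,
      Fintype.card_coe]
  rw [← h4, h5]
  push_cast
  rfl

end Pool.Agent.T3h73.TK.FIB
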