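import Pool.Agent.T3h73.TK.Stm

/-!
Project TK (helper73), task FLD (helper64): a number field with ring of integers `ℤ[w]`.
-/

set_option autoImplicit false
set_option linter.all false

open NumberField

namespace Pool.Agent.T3h73.TK.FLD

open Pool.Agent.T3h73.TK
open Pool.Agent.Y715.T.St (Eis)

/-- the homomorphism from `ℤ[w]` given by a root of `x² + x + 1` -/
noncomputable def phi {A : Type} [CommRing A] (η : A) (hη : η ^ 2 + η + 1 = 0) : Eis →+* A where
  toFun z := (z.re : A) + (z.im : A) * η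
  map_one' := by
    show ((1 : ℤ) : A) + ((0 : ℤ) : A) * η = 1
    simp
  map_zero' := by
    show ((0 : ℤ) : A) + ((0 : ℤ) : A) * η = 0
    simp
  map_mul' x y := by
    simp only [QuadraticAlgebra.re_mul, QuadraticAlgebra.im_mul]
    push_cast
    linear_combination (-(x.im : A) * (y.im : A)) * hη
  map_add' x y := by
    simp only [QuadraticAlgebra.re_add, QuadraticAlgebra.im_add]
    push_cast
    ring

theorem t_FLD : S_FLD := by
  have hne : NeZero ((3 : ℕ) : ℚ) := ⟨by norm_num⟩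
  have hcyc : IsCyclotomicExtension {3} ℚ (CyclotomicField 3 ℚ) :=
    CyclotomicField.isCyclotomicExtension 3 ℚ
  have hnf : NumberField (CyclotomicField 3 ℚ) := IsCyclotomicExtension.numberField {3} ℚ _
  refine ⟨CyclotomicField 3 ℚ, inferInstance, hnf, ?_⟩
  have hζ : IsPrimitiveRoot (IsCyclotomicExtension.zeta 3 ℚ (CyclotomicField 3 ℚ)) 3 :=
    IsCyclotomicExtension.zeta_spec 3 ℚ (CyclotomicField 3 ℚ)
  have hprim : IsPrimitiveRoot hζ.toInteger 3 := hζ.toInteger_isPrimitiveRoot
  have hη : hζ.toInteger ^ 2 + hζ.toInteger + 1 = 0 := by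
    have := hprim.geom_sum_eq_zero (by norm_num)
    simp only [Finset.sum_range_succ, Finset.sum_range_zero, pow_zero, pow_one, zero_add] at this
    linear_combination this
  refine ⟨RingEquiv.ofBijective (phi hζ.toInteger hη) ⟨?_, ?_⟩⟩
  · rw [injective_iff_map_eq_zero]
    intro z hz
    have h1 : (z.re : 𝓞 (CyclotomicField 3 ℚ)) + (z.im : 𝓞 (CyclotomicField 3 ℚ)) * hζ.toInteger = 0 :=
      hz
    have h2 : ((z.re ^ 2 - z.re * z.im + z.im ^ 2 : ℤ) : 𝓞 (CyclotomicField 3 ℚ)) = 0 := by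
      push_cast
      linear_combination ((z.re : 𝓞 (CyclotomicField 3 ℚ)) +
        (z.im : 𝓞 (CyclotomicField 3 ℚ)) * (-1 - hζ.toInteger)) * h1 +
        (z.im : 𝓞 (CyclotomicField 3 ℚ)) ^ 2 * hη
    have h3 : z.re ^ 2 - z.re * z.im + z.im ^ 2 = 0 := by exact_mod_cast h2
    have h4 : z.im = 0 := by
      have : z.im ^ 2 ≤ 0 := by nlinarith [sq_nonneg (2 * z.re - z.im)]
      exact pow_eq_zero_iff (two_ne_zero) |>.1 (le_antisymm this (sq_nonneg _))
    have h5 : z.re = 0 := by
      rw [h4] at h3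
      have : z.re ^ 2 = 0 := by linarith
      exact pow_eq_zero_iff (two_ne_zero) |>.1 this
    exact QuadraticAlgebra.ext h5 h4
  · intro y
    obtain ⟨f, hf⟩ := hζ.integralPowerBasis.exists_eq_aeval' y
    rw [hζ.integralPowerBasis_gen, Polynomial.aeval_eq_sum_range] at hf
    have hmem : y ∈ (phi hζ.toInteger hη).range := by
      rw [hf]
      refine sum_mem fun i _ => ?_
      rw [zsmul_eq_mul]
      refine mul_mem ?_ (pow_mem ?_ _)
      · exact ⟨(f.coeff i : Eis), map_intCast _ _⟩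
      · refine ⟨⟨0, 1⟩, ?_⟩
        show ((0 : ℤ) : 𝓞 (CyclotomicField 3 ℚ)) + ((1 : ℤ) : 𝓞 (CyclotomicField 3 ℚ)) *
          hζ.toInteger = hζ.toInteger
        push_cast
        ring
    exact hmem

end Pool.Agent.T3h73.TK.FLD
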