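import Pool.Agent.T3h73.TK.Stm
import Pool.Agent.T3h73.SD.T_MASS

/-! Sums of absolute values over the finite subsets of `Q` (MASSQ); adaptation of `SD/T_MASS.lean`. -/

set_option autoImplicit false
set_option linter.all false

open NumberField IsDedekindDomain Filter Topology

namespace Pool.Agent.T3h73.TK.MASSQ

open Pool.Agent.T3h73.SL (Pl)
open Pool.Agent.T3h73.SD (ee NA gA trm)
open Pool.Agent.T3h73.SD.MASS (one_le_nm term_eq fac_le fac_summable)
open Pool.Agent.T3h73.SD (Prs.fsum)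
open Pool.Agent.H921R2.TatePole

variable {K : Type} [Field K] [NumberField K]

open Classical in
/-- the product over a set of the truncated factors -/
theorem prod_ite (Q : Set (Pl K)) (f : Pl K → ℝ) (A : Finset (Pl K)) :
    ∏ q ∈ A, (if q ∈ Q then f q else 0) = if In Q A then ∏ q ∈ A, f q else 0 := by
  split_ifs with h
  · exact Finset.prod_congr rfl fun q hq => if_pos (h q hq)
  · unfold In at h
    push Not at h
    obtain ⟨q, hq, hqQ⟩ := h
    exact Finset.prod_eq_zero hq (if_neg hqQ)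

open Classical in
/-- the upper bound from the density -/
theorem dens_up (Q : Set (Pl K)) (n : ℕ) (hQ : Dens Q n) (ε : ℝ) (hε : 0 < ε) :
    ∃ s₀ : ℝ, 1 < s₀ ∧ s₀ ≤ 2 ∧ ∀ s : ℝ, 1 < s → s < s₀ → 0 < Real.log (1 / (s - 1)) ∧
      ∑' q : Pl K, (if q ∈ Q then (nm q : ℝ) ^ (-s) else 0) ≤
        (1 / (n : ℝ) + ε) * Real.log (1 / (s - 1)) := by
  have h1 := hQ.eventually (gt_mem_nhds (show 1 / (n : ℝ) < 1 / (n : ℝ) + ε by linarith))
  rw [eventually_nhdsWithin_iff, Metric.eventually_nhds_iff] at h1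
  obtain ⟨δ, hδ, h⟩ := h1
  refine ⟨min (1 + δ) 2, lt_min (by linarith) (by norm_num), min_le_right _ _, fun s hs hs2 => ?_⟩
  have hs0 : 0 < s - 1 := by linarith
  have hs3 : s < 2 := lt_of_lt_of_le hs2 (min_le_right _ _)
  have hs4 : s < 1 + δ := lt_of_lt_of_le hs2 (min_le_left _ _)
  have hlog : 0 < Real.log (1 / (s - 1)) := by
    apply Real.log_pos
    rw [lt_div_iff₀ hs0]
    linarith
  refine ⟨hlog, ?_⟩
  have h3 := h (y := s) (by rw [Real.dist_eq, abs_of_pos hs0]; linarith) hs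
  rw [div_lt_iff₀ hlog] at h3
  exact h3.le

open Classical in
theorem t_MASSQ : S_MASSQ := by
  intro K _ _ Q n hn hQ m D ε hm hD hε
  obtain ⟨s₀, hs₀, hs₀2, hup⟩ := dens_up Q n hQ ε hε
  set T2 : ℝ := ∑' q : Pl K, (nm q : ℝ) ^ (-(2 : ℝ)) with hT2
  have hT2' : 0 ≤ T2 := tsum_nonneg fun q => by positivity
  have hm0 : (0 : ℝ) < m := by exact_mod_cast hm
  have hm1 : (1 : ℝ) ≤ m := by exact_mod_cast hm
  refine ⟨Real.exp (3 ^ ⌈D⌉₊ * T2), s₀, Real.exp_pos _, hs₀, fun s hs hs2 => ?_⟩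
  obtain ⟨hlog, hsum⟩ := hup s hs hs2
  have hs0 : 0 < s - 1 := by linarith
  set f : Pl K → ℝ := fun q => (m : ℝ)⁻¹ * (nm q : ℝ) ^ (-s) * (1 + 1 / (nm q : ℝ)) ^ D with hf
  have hf0 : ∀ q, 0 ≤ f q := fun q => by simp only [hf]; positivity
  have hfs : Summable f := fac_summable D (by positivity) hs
  have hg0 : ∀ q, 0 ≤ (if q ∈ Q then f q else 0) := fun q => by
    split_ifs
    · exact hf0 q
    · exact le_rfl
  have hgf : ∀ q, (if q ∈ Q then f q else 0) ≤ f q := fun q => by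
    split_ifs
    · exact le_rfl
    · exact hf0 q
  have hgs : Summable fun q => if q ∈ Q then f q else 0 := hfs.of_nonneg_of_le hg0 hgf
  have hmain := Prs.fsum (fun q : Pl K => if q ∈ Q then f q else 0) hg0 hgs
  have e : ∀ A : Finset (Pl K), (if In Q A then
      ((m : ℝ) ^ A.card)⁻¹ * (NA A : ℝ) ^ (-s) * gA A ^ D else 0) =
      ∏ q ∈ A, (if q ∈ Q then f q else 0) := by
    intro A
    rw [prod_ite, ← inv_pow, term_eq]
  refine ⟨hmain.1.congr fun A => (e A).symm, ?_⟩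
  rw [tsum_congr e]
  refine hmain.2.trans ?_
  have hq1 : Summable fun q : Pl K => if q ∈ Q then (nm q : ℝ) ^ (-s) else 0 := by
    refine (nm_summable (K := K) hs).of_nonneg_of_le (fun q => ?_) fun q => ?_
    · split_ifs
      · positivity
      · exact le_rfl
    · split_ifs
      · exact le_rfl
      · positivity
  have hq2 : Summable fun q : Pl K => (nm q : ℝ) ^ (-(2 : ℝ)) := nm_summable (by norm_num)
  have h1 : ∑' q : Pl K, (if q ∈ Q then f q else 0) ≤
      (m : ℝ)⁻¹ * ∑' q : Pl K, (if q ∈ Q then (nm q : ℝ) ^ (-s) else 0) +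
        (m : ℝ)⁻¹ * 3 ^ ⌈D⌉₊ * T2 := by
    rw [hT2, ← tsum_mul_left, ← tsum_mul_left, ← Summable.tsum_add (hq1.mul_left _) (hq2.mul_left _)]
    refine Summable.tsum_le_tsum (fun q => ?_) hgs ((hq1.mul_left _).add (hq2.mul_left _))
    split_ifs with h
    · exact fac_le q D (by positivity) hs
    · rw [mul_zero, zero_add]
      positivity
  have hmi : (m : ℝ)⁻¹ ≤ 1 := inv_le_one_of_one_le₀ hm1
  have hmi0 : 0 ≤ (m : ℝ)⁻¹ := by positivity
  have h3 : (m : ℝ)⁻¹ * ∑' q : Pl K, (if q ∈ Q then (nm q : ℝ) ^ (-s) else 0) ≤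
      (1 / ((m : ℝ) * n) + ε) * Real.log (1 / (s - 1)) := by
    calc (m : ℝ)⁻¹ * ∑' q : Pl K, (if q ∈ Q then (nm q : ℝ) ^ (-s) else 0)
        ≤ (m : ℝ)⁻¹ * ((1 / (n : ℝ) + ε) * Real.log (1 / (s - 1))) :=
          mul_le_mul_of_nonneg_left hsum hmi0
      _ = (1 / ((m : ℝ) * n) + (m : ℝ)⁻¹ * ε) * Real.log (1 / (s - 1)) := by
          have : (n : ℝ) ≠ 0 := by exact_mod_cast (by omega : n ≠ 0)
          field_simp
      _ ≤ _ := by
          refine mul_le_mul_of_nonneg_right ?_ hlog.le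
          have := mul_le_mul_of_nonneg_right hmi hε.le
          linarith
  have h4 : (m : ℝ)⁻¹ * 3 ^ ⌈D⌉₊ * T2 ≤ 3 ^ ⌈D⌉₊ * T2 := by
    rw [mul_assoc]
    exact mul_le_of_le_one_left (by positivity) hmi
  calc Real.exp (∑' q : Pl K, (if q ∈ Q then f q else 0))
      ≤ Real.exp (3 ^ ⌈D⌉₊ * T2 + Real.log (1 / (s - 1)) * (1 / ((m : ℝ) * n) + ε)) := by
        apply Real.exp_le_exp.mpr
        linarith
    _ = _ := by
        rw [Real.exp_add, Real.rpow_def_of_pos (by positivity)]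

end Pool.Agent.T3h73.TK.MASSQ
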