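import Pool.Agent.T3h73.TK.Stm2
import Pool.Agent.Y715.T.RecG

/-!
# Project TK: nontriviality of the characters (S_NTR)
-/

set_option autoImplicit false
set_option linter.all false

namespace Pool.Agent.T3h73.TK.NTR

open Pool.Agent.T3h73.TK
open Pool.Agent.Y715.T.St (Eis nrm omega)
open T2h16.TT.St (Adm IsExp Concl sy)
open Pool.Agent.Y692.QS Pool.Agent.Y715.T.Cub
open Pool.Agent.Y715.T.Rec (FF mk mk_eq_zero cs fld ftp mw)
open Pool.Agent.Y715.T.RecG (Pq mk_three cs_chi cs_congr cs_one)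

lemma sy_eq (π x : Eis) : sy π x = cs π x := rfl

lemma nrm_eq (x : Eis) : nrm x = nr x := rfl

/-- a number with a nonzero symbol -/
lemma exists_ne {π : Eis} (h : Pq π) : ∃ x : Eis, ¬ π ∣ x ∧ sy π x ≠ 0 := by
  by_contra hcon
  push Not at hcon
  let _ := fld h.prime
  let _ := ftp h.prime
  apply chi_ne_one (mw π) (mk_three h.norm)
  apply MulChar.ext
  intro u
  obtain ⟨x, hx⟩ := Ideal.Quotient.mk_surjective (u : FF π)
  have hx' : mk π x = u := hx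
  have hnd : ¬ π ∣ x := fun h1 => by
    rw [← mk_eq_zero, hx'] at h1
    exact u.ne_zero h1
  have h1 := cs_chi h.prime h.norm hnd
  rw [hx', ← sy_eq, hcon x hnd, ZMod.val_zero, pow_zero] at h1
  rw [h1, MulChar.one_apply u.isUnit]

/-- two associated primary elements are equal -/
lemma eq_of_assoc {a b : Eis} (ha : (3 : Eis) ∣ a - 1) (hb : (3 : Eis) ∣ b - 1) (hne : a ≠ 0)
    (h : Associated a b) : a = b := by
  obtain ⟨u, rfl⟩ := h
  have hu : (3 : Eis) ∣ (u : Eis) - 1 := by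
    have h1 : (3 : Eis) ∣ (a * u - 1) - (a - 1) * u := dvd_sub hb (Dvd.dvd.mul_right ha _)
    have e : (a * u - 1) - (a - 1) * u = (u : Eis) - 1 := by ring
    rwa [e] at h1
  have h2 := ns_fix hu
  rw [ns_unit u.isUnit] at h2
  rw [← h2, mul_one]

lemma int_dvd' (n : ℤ) (α : Eis) : (n : Eis) ∣ α ↔ n ∣ α.re ∧ n ∣ α.im := int_dvd

/-- elements `1` modulo `3 ^ (k + 1)` -/
lemma of_one {k : ℕ} (hk : 1 ≤ k) {α : Eis} (h : ((3 : Eis)) ^ (k + 1) ∣ α - 1) :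
    (3 : Eis) ∣ α - 1 ∧ (3 : ℤ) ^ (k + 1) ∣ nrm α - 1 ∧ ap α = 0 := by
  have h0 : (((3 : ℤ) ^ (k + 1) : ℤ) : Eis) ∣ α - 1 := by push_cast; exact h
  rw [int_dvd'] at h0
  obtain ⟨⟨a, ha⟩, b, hb⟩ := h0
  have ha' : α.re = 1 + 3 ^ (k + 1) * a := by
    have : (α - 1).re = α.re - 1 := rfl
    rw [this] at ha
    linarith
  have hb' : α.im = 3 ^ (k + 1) * b := by
    have : (α - 1).im = α.im - 0 := rfl
    rw [this] at hb
    linarith
  refine ⟨dvd_trans (dvd_pow_self _ (by omega)) h, ?_, ?_⟩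
  · unfold nrm
    rw [ha', hb']
    refine ⟨2 * a - b + 3 ^ (k + 1) * (a ^ 2 - a * b + b ^ 2), ?_⟩
    ring
  · unfold ap
    rw [ha']
    obtain ⟨j, rfl⟩ : ∃ j, k = j + 1 := ⟨k - 1, by omega⟩
    have e : (1 + 3 ^ (j + 1 + 1) * a - 1 : ℤ) / 3 = 3 * (3 ^ j * a) := by
      have : (1 + 3 ^ (j + 1 + 1) * a - 1 : ℤ) = 3 * (3 * (3 ^ j * a)) := by ring
      rw [this, Int.mul_ediv_cancel_left _ (by norm_num)]
    rw [e]
    push_cast
    have : (3 : ZMod 3) = 0 := by decide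
    rw [this, zero_mul]

theorem case_ne (k : ℕ) (hk : 1 ≤ k) (h : ZMod 3) (j : Eis → ZMod 3) (B : Finset Eis)
    (hB : ∀ b ∈ B, Prime b ∧ (3 : Eis) ∣ b - 1 ∧ j b ≠ 0) (hne : B.Nonempty) :
    ∃ α : Eis, (3 : Eis) ∣ α - 1 ∧ (3 : ℤ) ^ (k + 1) ∣ nrm α - 1 ∧ (∀ b ∈ B, ¬ b ∣ α) ∧
    h * ap α + ∑ b ∈ B, j b * sy b α ≠ 0 := by
  classical
  obtain ⟨b₀, hb₀⟩ := hne
  have hP : ∀ b ∈ B, Pq b := fun b hb => ⟨(hB b hb).1, (hB b hb).2.1⟩
  obtain ⟨x, hx, hsx⟩ := exists_ne (hP b₀ hb₀)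
  set M : Eis := 3 ^ (k + 1) * ∏ b ∈ B.erase b₀, b with hM
  have hnd : ¬ b₀ ∣ M := by
    intro h1
    rcases (hB b₀ hb₀).1.dvd_or_dvd h1 with h2 | h2
    · exact (hP b₀ hb₀).norm ((hB b₀ hb₀).1.dvd_of_dvd_pow h2)
    · rw [(hB b₀ hb₀).1.dvd_finsetProd_iff] at h2
      obtain ⟨b, hb, h3⟩ := h2
      have hbB := Finset.mem_of_mem_erase hb
      have h4 := (hB b₀ hb₀).1.irreducible.associated_of_dvd (hB b hbB).1.irreducible h3
      exact Finset.ne_of_mem_erase hb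
        (eq_of_assoc (hB b₀ hb₀).2.1 (hB b hbB).2.1 (hB b₀ hb₀).1.ne_zero h4).symm
  obtain ⟨u, v, huv⟩ := ((hB b₀ hb₀).1.irreducible.coprime_iff_not_dvd).2 hnd
  set α : Eis := 1 + (x - 1) * (v * M) with hα
  have h1 : M ∣ α - 1 := ⟨(x - 1) * v, by rw [hα]; ring⟩
  have h2 : b₀ ∣ x - α := by
    refine ⟨(x - 1) * u, ?_⟩
    have : v * M = 1 - u * b₀ := by rw [← huv]; ring
    rw [hα, this]
    ring
  obtain ⟨h3, h4, h5⟩ := of_one hk (dvd_trans (Dvd.intro _ rfl) h1)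
  have h6 : ∀ b ∈ B, b ≠ b₀ → b ∣ 1 - α := by
    intro b hb hne
    have : b ∣ M := dvd_mul_of_dvd_right (Finset.dvd_prod_of_mem _ (Finset.mem_erase.2 ⟨hne, hb⟩)) _
    rw [← dvd_neg, neg_sub]
    exact dvd_trans this h1
  have h7 : ∀ b ∈ B, ¬ b ∣ α := by
    intro b hb h8
    by_cases hbb : b = b₀
    · subst hbb
      exact hx (by have := dvd_add h2 h8; rwa [sub_add_cancel] at this)
    · have := dvd_add (h6 b hb hbb) h8
      rw [sub_add_cancel] at this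
      exact (hB b hb).1.not_isUnit (isUnit_of_dvd_one this)
  refine ⟨α, h3, h4, h7, ?_⟩
  rw [h5, mul_zero, zero_add, ← Finset.add_sum_erase _ _ hb₀, Finset.sum_eq_zero, add_zero]
  · refine mul_ne_zero (hB b₀ hb₀).2.2 ?_
    rw [sy_eq, ← cs_congr (hB b₀ hb₀).1 (hP b₀ hb₀).norm hx h2]
    exact hsx
  · intro b hb
    have hbB := Finset.mem_of_mem_erase hb
    rw [sy_eq, ← cs_congr (hB b hbB).1 (hP b hbB).norm (fun h8 => (hB b hbB).1.not_isUnit (isUnit_of_dvd_one h8))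
      (h6 b hbB (Finset.ne_of_mem_erase hb)), cs_one (hB b hbB).1 (hP b hbB).norm, mul_zero]

theorem case_emp (k : ℕ) (hk : 1 ≤ k) (h : ZMod 3) (hh : h ≠ 0) :
    ∃ α : Eis, (3 : Eis) ∣ α - 1 ∧ (3 : ℤ) ^ (k + 1) ∣ nrm α - 1 ∧ h * ap α ≠ 0 := by
  set z : Eis := ⟨4, 6⟩ with hz
  set s : Eis := ⟨-2, -6⟩ with hs
  have hzs : z * s = 28 := by decide
  have hs1 : ((3 : ℕ) : Eis) ∣ s - 1 := ⟨⟨-1, -2⟩, by decide⟩
  have h1 := dvd_sub_pow_of_dvd_sub hs1 k
  rw [one_pow] at h1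
  have h9 : (9 : Eis) ∣ s ^ 3 ^ k - 1 := by
    refine dvd_trans ?_ h1
    obtain ⟨i, rfl⟩ : ∃ i, k = i + 1 := ⟨k - 1, by omega⟩
    refine ⟨3 ^ i, ?_⟩
    push_cast
    ring
  obtain ⟨n, hn⟩ : ∃ n, 3 ^ k = n + 1 := ⟨3 ^ k - 1, by
    have := Nat.pos_of_ne_zero (pow_ne_zero k (by norm_num : (3 : ℕ) ≠ 0)); omega⟩
  set α : Eis := z * s ^ n with hα
  have h2 : α * s = z * s ^ 3 ^ k := by rw [hα, hn, pow_succ]; ring
  obtain ⟨q, hq⟩ := h9
  have hα2 : α = ⟨-20, 12⟩ + 9 * (z * z * q - 3 * α) := by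
    have e1 : s ^ 3 ^ k = 1 + 9 * q := by rw [← hq]; ring
    have e2 : α * 28 = z * z * (1 + 9 * q) := by
      rw [← hzs, ← e1]
      calc α * (z * s) = z * (α * s) := by ring
        _ = z * (z * s ^ 3 ^ k) := by rw [h2]
        _ = _ := by ring
    have e3 : z * z = ⟨-20, 12⟩ := by decide
    have e4 : α = z * z + 9 * (z * z * q - 3 * α) := by linear_combination e2
    rw [e3] at e4 ⊢
    exact e4
  have hre : α.re = -20 + 9 * (z * z * q - 3 * α).re := by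
    conv_lhs => rw [hα2]
    have : ((9 : Eis) * (z * z * q - 3 * α)).re = 9 * (z * z * q - 3 * α).re := by
      rw [Pool.Agent.Y692.QS.mul_re]
      have e1 : (9 : Eis).re = 9 := rfl
      have e2 : (9 : Eis).im = 0 := rfl
      rw [e1, e2]
      ring
    show (-20 : ℤ) + ((9 : Eis) * (z * z * q - 3 * α)).re = _
    rw [this]
  refine ⟨α, ?_, ?_, ?_⟩
  · refine ⟨⟨-7, 4⟩ + 3 * (z * z * q - 3 * α), ?_⟩
    have e : (⟨-20, 12⟩ : Eis) - 1 = 3 * ⟨-7, 4⟩ := by decide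
    conv_lhs => rw [hα2]
    linear_combination e
  · have e1 : nrm α = 28 ^ 3 ^ k := by
      have hpow : ∀ m : ℕ, nrm (s ^ m) = 28 ^ m := by
        intro m
        induction m with
        | zero => rw [pow_zero, pow_zero]; decide
        | succ m ih =>
          rw [pow_succ, pow_succ, ← ih, nrm_eq, nr_mul]
          rfl
      rw [hα, hn, pow_succ, ← hpow n, nrm_eq, nr_mul]
      have : nr z = 28 := by decide
      rw [this, mul_comm]
      rfl
    rw [e1]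
    have := dvd_sub_pow_of_dvd_sub (R := ℤ) (p := 3) (a := 28) (b := 1) (by norm_num) k
    rw [one_pow] at this
    exact_mod_cast this
  · refine mul_ne_zero hh ?_
    unfold ap
    rw [hre]
    set r := (z * z * q - 3 * α).re
    have e : (-20 + 9 * r - 1) / 3 = -7 + 3 * r := by omega
    rw [e]
    push_cast
    have : (3 : ZMod 3) = 0 := by decide
    rw [this, zero_mul, add_zero]
    decide

end Pool.Agent.T3h73.TK.NTR

namespace Pool.Agent.T3h73.TK.NTR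

open Pool.Agent.T3h73.TK

theorem t_NTR : S_NTR := by
  intro k hk h j B hB hor
  rcases B.eq_empty_or_nonempty with hE | hE
  · subst hE
    have hh : h ≠ 0 := by
      rcases hor with h1 | h1
      · exact h1
      · exact absurd h1 (by simp)
    obtain ⟨α, h1, h2, h3⟩ := case_emp k hk h hh
    exact ⟨α, h1, h2, by simp, by simpa using h3⟩
  · exact case_ne k hk h j B hB hE

end Pool.Agent.T3h73.TK.NTR
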