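import Pool.Agent.T3h73.SD.An3B
import Pool.Agent.T3h73.TK.Stm

/-! Task OUTQ of project TK: a sum over families with cancellation in one set. Adaptation of
`SD/An3A.lean` and `SD/An3B.lean`. -/

set_option autoImplicit false
set_option linter.all false

open NumberField IsDedekindDomain Filter Topology

namespace Pool.Agent.T3h73.TK.OUTQ

open Pool.Agent.T3h73.SL (Pl)
open Pool.Agent.T3h73.SD (ee NA gA syA SymSys trm Tup)
open Pool.Agent.T3h73.SD.Fam (wt wt_nonneg norm_ee norm_trm pi_sum)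
open Pool.Agent.T3h73.SD.TUP (one_le_NA tz summable_tz)
open Pool.Agent.T3h73.SD.AN3 (ex coef BB FF coef_ne disj_iff gA_pos gA_FF NA_BB Inn trm_update e2
  e2_apply e2_val)
open Pool.Agent.T3h73.TK

variable {K : Type} [Field K] [NumberField K] {ℓ : ℕ} {S : Finset (Pl K)} {𝔪 : Ideal (𝓞 K)}
  {Λ : Type} [AddCommGroup Λ] {χ : Λ → Pl K → ZMod ℓ} {sy : Pl K → Pl K → ZMod ℓ}
  {C : Type} [Fintype C] {Q : Set (Pl K)}

theorem disj_of_In (hQS : ∀ q ∈ Q, q ∉ S) {A : Finset (Pl K)} (h : In Q A) : Disjoint A S :=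
  Finset.disjoint_left.2 fun q hq => hQS q (h q hq)

theorem tup_of_TupQ (hQS : ∀ q ∈ Q, q ∉ S) {A : C → Finset (Pl K)} (h : TupQ Q A) : Tup S A :=
  ⟨fun c => disj_of_In hQS (h.1 c), h.2⟩

/-- the sets which may be put in place of `A a` -/
def InQ (Q : Set (Pl K)) (I : Finset C) (A : C → Finset (Pl K)) (X : Finset (Pl K)) : Prop :=
  In Q X ∧ ∀ c ∈ I, Disjoint X (A c)

open Classical in
/-- the sum over one set of a family -/
theorem inner (hs : SymSys ℓ K S 𝔪 Λ χ sy) (hQS : ∀ q ∈ Q, q ∉ S) [NeZero ℓ] (R : C → C → ZMod ℓ) (m : ℕ) (hm : 1 ≤ m)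
    (h : C → Λ) {E : ℝ} (hE0 : 0 < E)
    (hE : ∀ (h : Λ) (j : Pl K → ZMod ℓ) (B F : Finset (Pl K)), Disjoint B S →
      (∀ b, j b ≠ 0 ↔ b ∈ B) → (h ≠ 0 ∨ B.Nonempty) → ∀ s : ℝ, 1 < s → s ≤ 2 →
      ‖∑' A : Finset (Pl K), if In Q A ∧ Disjoint A B ∧ Disjoint A F then
        ((((m : ℝ) ^ A.card)⁻¹ * (NA A : ℝ) ^ (-s) : ℝ) : ℂ) *
          ee ℓ (∑ q ∈ A, (χ h q + ∑ b ∈ B, j b * sy b q)) else 0‖ ≤
        E * (1 + Real.log (NA B)) ^ E * gA F ^ E)
    {C₁ : ℝ} (hC₁ : 0 ≤ C₁) {s Z : ℝ} (hs1 : 1 < s) (hs2 : s ≤ 2) (hZ : 1 ≤ Z)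
    (hsum : Summable fun A : Finset (Pl K) => wt m s A)
    (hsm : ∑' A : Finset (Pl K), (if (NA A : ℝ) ≤ Z then wt m s A else 0) ≤
      C₁ * (1 + Real.log Z))
    (A : C → Finset (Pl K)) (a : C)
    (hd : ∀ c ∈ Finset.univ.erase a, ∀ c' ∈ Finset.univ.erase a, c ≠ c' → Disjoint (A c) (A c'))
    (hS : ∀ c ∈ Finset.univ.erase a, Disjoint (A c) S)
    (hk : ∀ c ∈ Finset.univ.erase a, R a c + R c a ≠ 0 → (NA (A c) : ℝ) ≤ Z)
    (hn : h a ≠ 0 ∨ ∃ c, c ≠ a ∧ R a c + R c a ≠ 0 ∧ (A c).Nonempty) :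
    ‖∑' X : Finset (Pl K), if InQ Q (Finset.univ.erase a) A X ∧ Z < (NA X : ℝ) then
      trm χ sy R m h s (Function.update A a X) else 0‖ ≤
      (∏ c ∈ Finset.univ.erase a, wt m s (A c)) *
        (E * (1 + Fintype.card C * Real.log Z) ^ E * (∏ c ∈ Finset.univ.erase a, gA (A c)) ^ E +
          C₁ * (1 + Real.log Z)) := by
  set k : C → ZMod ℓ := fun c => R a c + R c a with hkd
  set I := Finset.univ.erase a with hI
  set B := BB k I A with hB
  set F := FF k I A with hF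
  set j := coef k I A with hj
  have hBS : Disjoint B S := by
    rw [hB]
    unfold BB
    rw [Finset.disjoint_biUnion_left]
    exact fun c hc => hS c (Finset.mem_filter.1 hc).1
  have hBn : h a ≠ 0 ∨ B.Nonempty := by
    rcases hn with h1 | ⟨c, h1, h2, b, h3⟩
    · exact Or.inl h1
    · refine Or.inr ⟨b, ?_⟩
      rw [hB]
      unfold BB
      exact Finset.mem_biUnion.2 ⟨c, Finset.mem_filter.2
        ⟨Finset.mem_erase.2 ⟨h1, Finset.mem_univ _⟩, h2⟩, h3⟩
  have hfull := hE (h a) j B F hBS (coef_ne hd) hBn s hs1 hs2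
  set G : Finset (Pl K) → ℂ := fun X => ((wt m s X : ℝ) : ℂ) *
    ee ℓ (∑ q ∈ X, (χ (h a) q + ∑ b ∈ B, j b * sy b q)) with hG
  have hGn : ∀ X, ‖G X‖ = wt m s X := by
    intro X
    simp only [hG]
    rw [norm_mul, norm_ee, mul_one, Complex.norm_real, Real.norm_of_nonneg (wt_nonneg m s X)]
  set c0 : ℂ := ((∏ c ∈ I, wt m s (A c) : ℝ) : ℂ) * ee ℓ (ex χ sy R h I A) with hc0
  have hc0n : ‖c0‖ = ∏ c ∈ I, wt m s (A c) := by
    rw [hc0, norm_mul, norm_ee, mul_one, Complex.norm_real,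
      Real.norm_of_nonneg (Finset.prod_nonneg fun c _ => wt_nonneg m s _)]
  have hterm : ∀ X, (if InQ Q I A X ∧ Z < (NA X : ℝ) then
      trm χ sy R m h s (Function.update A a X) else 0) =
      c0 * ((if In Q X ∧ Disjoint X B ∧ Disjoint X F then G X else 0) -
        (if (In Q X ∧ Disjoint X B ∧ Disjoint X F) ∧ (NA X : ℝ) ≤ Z then G X else 0)) := by
    intro X
    have hiff : InQ Q I A X ↔ In Q X ∧ Disjoint X B ∧ Disjoint X F := by
      unfold InQ
      rw [disj_iff (k := k)]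
    by_cases h1 : InQ Q I A X
    · have h2 := hiff.1 h1
      rcases lt_or_ge Z (NA X : ℝ) with h3 | h3
      · rw [if_pos ⟨h1, h3⟩, if_pos h2, if_neg fun h4 => absurd h4.2 (not_le.2 h3), sub_zero]
        exact trm_update hs R m h s A a X hd hS ⟨disj_of_In hQS h1.1, h1.2⟩
      · rw [if_neg fun h4 => absurd h4.2 (not_lt.2 h3), if_pos h2, if_pos ⟨h2, h3⟩, sub_self,
          mul_zero]
    · have h2 : ¬ (In Q X ∧ Disjoint X B ∧ Disjoint X F) := fun h3 => h1 (hiff.2 h3)
      rw [if_neg fun h4 => h1 h4.1, if_neg h2, if_neg fun h4 => h2 h4.1, sub_zero, mul_zero]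
  have hf1 : Summable fun X : Finset (Pl K) =>
      if In Q X ∧ Disjoint X B ∧ Disjoint X F then G X else 0 := by
    refine Summable.of_norm_bounded hsum fun X => ?_
    split_ifs
    · exact (hGn X).le
    · rw [norm_zero]
      exact wt_nonneg m s X
  have hf2 : Summable fun X : Finset (Pl K) =>
      if (In Q X ∧ Disjoint X B ∧ Disjoint X F) ∧ (NA X : ℝ) ≤ Z then G X else 0 := by
    refine Summable.of_norm_bounded hsum fun X => ?_
    split_ifs
    · exact (hGn X).le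
    · rw [norm_zero]
      exact wt_nonneg m s X
  have hf3 : Summable fun A : Finset (Pl K) => if (NA A : ℝ) ≤ Z then wt m s A else 0 := by
    refine Summable.of_nonneg_of_le (fun X => ?_) (fun X => ?_) hsum
    · split_ifs
      · exact wt_nonneg m s X
      · exact le_rfl
    · split_ifs
      · exact le_rfl
      · exact wt_nonneg m s X
  rw [tsum_congr hterm, tsum_mul_left, hf1.tsum_sub hf2, norm_mul, hc0n]
  refine mul_le_mul_of_nonneg_left ?_ (Finset.prod_nonneg fun c _ => wt_nonneg m s _)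
  refine (norm_sub_le _ _).trans (add_le_add ?_ ?_)
  · refine hfull.trans ?_
    have hlB0 : 0 ≤ Real.log (NA B) := Real.log_nonneg (one_le_NA B)
    have hlB := NA_BB (k := k) hd hZ hk
    have hgF := gA_FF (k := k) hd
    have hgF1 : 1 ≤ gA F := gA_pos F
    have hlZ : 0 ≤ Real.log Z := Real.log_nonneg hZ
    have e1 : (1 + Real.log (NA B)) ^ E ≤ (1 + Fintype.card C * Real.log Z) ^ E :=
      Real.rpow_le_rpow (by linarith) (by linarith) hE0.le
    have e2 : gA F ^ E ≤ (∏ c ∈ I, gA (A c)) ^ E :=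
      Real.rpow_le_rpow (by linarith) hgF hE0.le
    have e3 : 0 ≤ (1 + Fintype.card C * Real.log Z) ^ E := Real.rpow_nonneg (by positivity) _
    exact mul_le_mul (mul_le_mul_of_nonneg_left e1 hE0.le) e2
      (Real.rpow_nonneg (by linarith) _) (mul_nonneg hE0.le e3)
  · refine le_trans (tsum_of_norm_bounded hf3.hasSum fun X => ?_) hsm
    by_cases h1 : (NA X : ℝ) ≤ Z
    · rw [if_pos h1]
      split_ifs
      · exact (hGn X).le
      · rw [norm_zero]
        exact wt_nonneg m s X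
    · rw [if_neg h1, if_neg fun h2 => h1 h2.2, norm_zero]

open Classical in
theorem outer (hs : SymSys ℓ K S 𝔪 Λ χ sy) (hQS : ∀ q ∈ Q, q ∉ S) [NeZero ℓ] (R : C → C → ZMod ℓ) (hR : ∀ a, R a a = 0)
    (m : ℕ) (hm : 1 ≤ m) (h : C → Λ) {E : ℝ} (hE0 : 0 < E)
    (hE : ∀ (h : Λ) (j : Pl K → ZMod ℓ) (B F : Finset (Pl K)), Disjoint B S →
      (∀ b, j b ≠ 0 ↔ b ∈ B) → (h ≠ 0 ∨ B.Nonempty) → ∀ s : ℝ, 1 < s → s ≤ 2 →
      ‖∑' A : Finset (Pl K), if In Q A ∧ Disjoint A B ∧ Disjoint A F then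
        ((((m : ℝ) ^ A.card)⁻¹ * (NA A : ℝ) ^ (-s) : ℝ) : ℂ) *
          ee ℓ (∑ q ∈ A, (χ h q + ∑ b ∈ B, j b * sy b q)) else 0‖ ≤
        E * (1 + Real.log (NA B)) ^ E * gA F ^ E)
    {C₁ : ℝ} (hC₁ : 0 ≤ C₁) {s Z U V : ℝ} (hs1 : 1 < s) (hs2 : s ≤ 2) (hZ : 1 ≤ Z) (hU1 : 1 ≤ U)
    (hV1 : 1 ≤ V)
    (hsum : Summable fun A : Finset (Pl K) => wt m s A)
    (hsm : ∑' A : Finset (Pl K), (if (NA A : ℝ) ≤ Z then wt m s A else 0) ≤
      C₁ * (1 + Real.log Z))
    (hw : Summable (fun A : Finset (Pl K) => if In Q A then wt m s A * gA A ^ E else 0))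
    (hw2 : ∑' A : Finset (Pl K), (if In Q A then wt m s A * gA A ^ E else 0) ≤ U)
    (hz : Summable (fun A : Finset (Pl K) => if (NA A : ℝ) ≤ Z then wt m s A * gA A ^ E else 0))
    (hz2 : ∑' A : Finset (Pl K), (if (NA A : ℝ) ≤ Z then wt m s A * gA A ^ E else 0) ≤ V)
    (W : Finset C) (a : C) (ha : a ∈ W) (hW : ∀ c ∈ W, R a c + R c a = 0)
    (T : (C → Finset (Pl K)) → Prop) (hT0 : ∀ A X, T (Function.update A a X) ↔ T A)
    (hTn : ∀ A, T A → h a ≠ 0 ∨ ∃ c, c ≠ a ∧ R a c + R c a ≠ 0 ∧ (A c).Nonempty) :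
    ‖∑' A : C → Finset (Pl K), if (TupQ Q A ∧ ∀ c, c ∈ W ↔ Z < (NA (A c) : ℝ)) ∧ T A then
      trm χ sy R m h s A else 0‖ ≤
      (E * (1 + Fintype.card C * Real.log Z) ^ E + C₁ * (1 + Real.log Z)) *
        (V ^ Fintype.card C * U ^ (W.card - 1)) := by
  set I : Finset C := Finset.univ.erase a with hI
  have hlZ : 0 ≤ Real.log Z := Real.log_nonneg hZ
  set Bd : ℝ := E * (1 + Fintype.card C * Real.log Z) ^ E + C₁ * (1 + Real.log Z) with hBd
  have hBd0 : 0 ≤ Bd := by
    have : 0 ≤ (1 + Fintype.card C * Real.log Z) ^ E := Real.rpow_nonneg (by positivity) _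
    positivity
  set F : (C → Finset (Pl K)) → ℂ := fun A =>
    if (TupQ Q A ∧ ∀ c, c ∈ W ↔ Z < (NA (A c) : ℝ)) ∧ T A then trm χ sy R m h s A else 0 with hF
  have hFs : Summable F := by
    refine Summable.of_norm_bounded (summable_tz S χ sy R hR m hm h hs1).norm fun A => ?_
    simp only [hF]
    unfold tz
    by_cases h1 : (TupQ Q A ∧ ∀ c, c ∈ W ↔ Z < (NA (A c) : ℝ)) ∧ T A
    · rw [if_pos h1, if_pos (tup_of_TupQ hQS h1.1.1)]
    · rw [if_neg h1, norm_zero]
      exact norm_nonneg _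
  have hg : ∀ A : Finset (Pl K), 1 ≤ gA A ^ E := fun A => Real.one_le_rpow (gA_pos A) hE0.le
  -- the weights
  set t : {j : C // j ≠ a} → Finset (Pl K) → ℝ := fun c A =>
    if (c : C) ∈ W then (if In Q A then wt m s A * gA A ^ E else 0) else
      (if (NA A : ℝ) ≤ Z then wt m s A * gA A ^ E else 0) with ht
  have hwg : ∀ A : Finset (Pl K), 0 ≤ wt m s A * gA A ^ E := fun A =>
    mul_nonneg (wt_nonneg m s A) (zero_le_one.trans (hg A))
  have ht0 : ∀ c A, 0 ≤ t c A := by
    intro c A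
    simp only [ht]
    split_ifs
    · exact hwg A
    · exact le_rfl
    · exact hwg A
    · exact le_rfl
  have hts : ∀ c, Summable (t c) := by
    intro c
    by_cases hc : (c : C) ∈ W
    · simpa only [ht, if_pos hc] using hw
    · simpa only [ht, if_neg hc] using hz
  obtain ⟨hp1, hp2⟩ := pi_sum t ht0 hts
  -- the sum over the other sets
  have hsplit : ∑' A, F A = ∑' A' : {j : C // j ≠ a} → Finset (Pl K),
      ∑' X : Finset (Pl K), F (e2 (Finset (Pl K)) a (A', X)) := by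
    rw [← (e2 (Finset (Pl K)) a).tsum_eq F]
    exact ((e2 (Finset (Pl K)) a).summable_iff.2 hFs).tsum_prod
  have hin : ∀ A' : {j : C // j ≠ a} → Finset (Pl K),
      ‖∑' X : Finset (Pl K), F (e2 (Finset (Pl K)) a (A', X))‖ ≤ Bd * ∏ c, t c (A' c) := by
    intro A'
    set A0 := e2 (Finset (Pl K)) a (A', ∅) with hA0
    have hup : ∀ X, e2 (Finset (Pl K)) a (A', X) = Function.update A0 a X := fun X =>
      e2_apply _ a A' X ∅
    have hval : ∀ c : {j : C // j ≠ a}, A0 c = A' c := fun c => e2_val _ a A' ∅ c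
    have hne : ∀ c ∈ I, c ≠ a := fun c hc => (Finset.mem_erase.1 hc).1
    have hmem : ∀ c, c ≠ a → c ∈ I := fun c hc => Finset.mem_erase.2 ⟨hc, Finset.mem_univ _⟩
    have hupn : ∀ X c, c ≠ a → Function.update A0 a X c = A0 c := fun X c hc =>
      Function.update_of_ne hc X A0
    have hprodI : ∀ f : C → Finset (Pl K) → ℝ, ∏ c ∈ I, f c (A0 c) =
        ∏ c : {j : C // j ≠ a}, f c (A' c) := by
      intro f
      rw [Finset.prod_subtype I (p := fun c => c ≠ a) (fun c => ⟨hne c, hmem c⟩)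
        (fun c => f c (A0 c))]
      exact Finset.prod_congr rfl fun c _ => by rw [hval]
    have hrhs0 : 0 ≤ Bd * ∏ c, t c (A' c) :=
      mul_nonneg hBd0 (Finset.prod_nonneg fun c _ => ht0 c _)
    by_cases hout : (∀ c ∈ I, In Q (A0 c)) ∧
      (∀ c ∈ I, ∀ c' ∈ I, c ≠ c' → Disjoint (A0 c) (A0 c')) ∧
      (∀ c ∈ I, (c ∈ W ↔ Z < (NA (A0 c) : ℝ))) ∧ T A0
    · obtain ⟨hSQ, hd, hL, hQ0⟩ := hout
      have hS : ∀ c ∈ I, Disjoint (A0 c) S := fun c hc => disj_of_In hQS (hSQ c hc)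
      have hiff : ∀ X, ((TupQ Q (Function.update A0 a X) ∧
          ∀ c, c ∈ W ↔ Z < (NA (Function.update A0 a X c) : ℝ)) ∧ T (Function.update A0 a X)) ↔
          (InQ Q I A0 X ∧ Z < (NA X : ℝ)) := by
        intro X
        constructor
        · rintro ⟨⟨hT, h1⟩, -⟩
          refine ⟨⟨?_, fun c hc => ?_⟩, ?_⟩
          · have := hT.1 a
            rwa [Function.update_self] at this
          · have := hT.2 a c (hne c hc).symm
            rwa [Function.update_self, hupn X c (hne c hc)] at this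
          · have := (h1 a).1 ha
            rwa [Function.update_self] at this
        · rintro ⟨⟨h1, h2⟩, h3⟩
          refine ⟨⟨⟨fun c => ?_, fun c c' hcc => ?_⟩, fun c => ?_⟩, (hT0 A0 X).2 hQ0⟩
          · by_cases hc : c = a
            · rw [hc, Function.update_self]
              exact h1
            · rw [hupn X c hc]
              exact hSQ c (hmem c hc)
          · by_cases hc : c = a
            · have hc' : c' ≠ a := fun h4 => hcc (hc.trans h4.symm)
              rw [hc, Function.update_self, hupn X c' hc']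
              exact h2 c' (hmem c' hc')
            · rw [hupn X c hc]
              by_cases hc' : c' = a
              · rw [hc', Function.update_self]
                exact (h2 c (hmem c hc)).symm
              · rw [hupn X c' hc']
                exact hd c (hmem c hc) c' (hmem c' hc') hcc
          · by_cases hc : c = a
            · rw [hc, Function.update_self]
              exact ⟨fun _ => h3, fun _ => ha⟩
            · rw [hupn X c hc]
              exact hL c (hmem c hc)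
      have hFX : ∀ X, F (e2 (Finset (Pl K)) a (A', X)) =
          if InQ Q I A0 X ∧ Z < (NA X : ℝ) then trm χ sy R m h s (Function.update A0 a X) else 0 := by
        intro X
        rw [hup X]
        simp only [hF]
        exact if_congr (hiff X) rfl rfl
      rw [tsum_congr hFX]
      have hkZ : ∀ c ∈ I, R a c + R c a ≠ 0 → (NA (A0 c) : ℝ) ≤ Z := by
        intro c hc h1
        by_contra h2
        exact h1 (hW c ((hL c hc).2 (not_le.1 h2)))
      have hinn := inner hs hQS R m hm h hE0 hE hC₁ hs1 hs2 hZ hsum hsm A0 a hd hS hkZ (hTn A0 hQ0)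
      refine hinn.trans ?_
      have hg1 : (∏ c ∈ I, gA (A0 c)) ^ E = ∏ c ∈ I, gA (A0 c) ^ E :=
        (Real.finset_prod_rpow I _ (fun c _ => zero_le_one.trans (gA_pos _)) E).symm
      have hg2 : 1 ≤ ∏ c ∈ I, gA (A0 c) ^ E := Finset.one_le_prod fun c _ => hg _
      have hwp : 0 ≤ ∏ c ∈ I, wt m s (A0 c) := Finset.prod_nonneg fun c _ => wt_nonneg m s _
      have e1 : E * (1 + Fintype.card C * Real.log Z) ^ E * (∏ c ∈ I, gA (A0 c)) ^ E +
          C₁ * (1 + Real.log Z) ≤ Bd * ∏ c ∈ I, gA (A0 c) ^ E := by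
        rw [hg1, hBd, add_mul]
        have : C₁ * (1 + Real.log Z) ≤ C₁ * (1 + Real.log Z) * ∏ c ∈ I, gA (A0 c) ^ E :=
          le_mul_of_one_le_right (by positivity) hg2
        linarith
      calc (∏ c ∈ I, wt m s (A0 c)) * (E * (1 + Fintype.card C * Real.log Z) ^ E *
            (∏ c ∈ I, gA (A0 c)) ^ E + C₁ * (1 + Real.log Z))
          ≤ (∏ c ∈ I, wt m s (A0 c)) * (Bd * ∏ c ∈ I, gA (A0 c) ^ E) :=
            mul_le_mul_of_nonneg_left e1 hwp
        _ = Bd * ∏ c ∈ I, (wt m s (A0 c) * gA (A0 c) ^ E) := by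
            rw [Finset.prod_mul_distrib]
            ring
        _ = Bd * ∏ c : {j : C // j ≠ a}, (wt m s (A' c) * gA (A' c) ^ E) := by
            rw [hprodI fun _ X => wt m s X * gA X ^ E]
        _ ≤ Bd * ∏ c, t c (A' c) := by
            refine mul_le_mul_of_nonneg_left (le_of_eq ?_) hBd0
            refine Finset.prod_congr rfl fun c _ => ?_
            simp only [ht]
            by_cases hc : (c : C) ∈ W
            · have h1 := hSQ c (hmem c c.2)
              rw [hval c] at h1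
              rw [if_pos hc, if_pos h1]
            · rw [if_neg hc, if_pos]
              have h1 := hL c (hmem c c.2)
              rw [hval c] at h1
              exact not_lt.1 fun h2 => hc (h1.2 h2)
    · have hFX : ∀ X, F (e2 (Finset (Pl K)) a (A', X)) = 0 := by
        intro X
        rw [hup X]
        simp only [hF]
        rw [if_neg]
        rintro ⟨⟨hT, h1⟩, h2⟩
        apply hout
        refine ⟨fun c hc => ?_, fun c hc c' hc' hcc => ?_, fun c hc => ?_, (hT0 A0 X).1 h2⟩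
        · have := hT.1 c
          rwa [hupn X c (hne c hc)] at this
        · have := hT.2 c c' hcc
          rwa [hupn X c (hne c hc), hupn X c' (hne c' hc')] at this
        · have := h1 c
          rwa [hupn X c (hne c hc)] at this
      rw [tsum_congr hFX, tsum_zero, norm_zero]
      exact hrhs0
  rw [hsplit]
  refine (tsum_of_norm_bounded (hp1.mul_left Bd).hasSum hin).trans ?_
  rw [tsum_mul_left]
  refine mul_le_mul_of_nonneg_left (hp2.trans ?_) hBd0
  have hb1 : ∏ c : {j : C // j ≠ a}, ∑' A, t c A ≤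
      ∏ c : {j : C // j ≠ a}, V * (if (c : C) ∈ W then U else 1) := by
    refine Finset.prod_le_prod (fun c _ => tsum_nonneg (ht0 c)) fun c _ => ?_
    by_cases hc : (c : C) ∈ W
    · simp only [ht, if_pos hc]
      refine hw2.trans ?_
      exact le_mul_of_one_le_left (by linarith) hV1
    · simp only [ht, if_neg hc, mul_one]
      exact hz2
  refine hb1.trans ?_
  have hb2 : ∏ c : {j : C // j ≠ a}, V * (if (c : C) ∈ W then U else 1) =
      ∏ c ∈ I, V * (if c ∈ W then U else 1) := by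
    rw [Finset.prod_subtype I (p := fun c => c ≠ a)
      (fun c => ⟨fun hc => (Finset.mem_erase.1 hc).1,
        fun hc => Finset.mem_erase.2 ⟨hc, Finset.mem_univ _⟩⟩)
      (fun c => V * (if c ∈ W then U else 1))]
  rw [hb2, Finset.prod_mul_distrib, Finset.prod_const, Finset.prod_ite_mem, Finset.prod_const]
  have hcard : (I ∩ W).card = W.card - 1 := by
    rw [hI, Finset.erase_inter, Finset.univ_inter, Finset.card_erase_of_mem ha]
  rw [hcard]
  refine mul_le_mul_of_nonneg_right ?_ (pow_nonneg (by linarith) _)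
  exact pow_le_pow_right₀ hV1 (Finset.card_le_univ _)


open Classical in
theorem t_OUTQ : S_OUTQ := by
  intro ℓ hℓ K _ _ S 𝔪 Λ _ χ sy Q hs hQS C _ R m h hm hR E hE0 hE C₁ s Z U V hC₁ hs1 hs2 hZ hU hV
    hsm hw hw2 hz hz2 W a ha hW T hT hTn
  haveI : NeZero ℓ := ⟨hℓ.ne_zero⟩
  obtain ⟨_, _, h1, _⟩ := Pool.Agent.T3h73.SD.Fam.one_var K m hm
  exact outer hs hQS R hR m hm h hE0 hE hC₁ hs1 hs2 hZ hU hV (h1 s hs1 hs2).1 hsm hw hw2 hz hz2 W a
    ha hW T hT hTn

end Pool.Agent.T3h73.TK.OUTQ
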