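import Pool.Agent.T3h73.TK.Stm
import Pool.Agent.T3h73.SG.PSBa

/-! Project TK, task PAP (helper69): primes congruent to `1` modulo `q`, Dirichlet density. -/

set_option autoImplicit false
set_option linter.all false

open Filter Topology

namespace Pool.Agent.T3h73.TK.PAP

open DirichletCharacter

variable {q : ℕ} [NeZero q]

/-- the terms -/
noncomputable def wt (χ : DirichletCharacter ℂ q) (s : ℝ) (p : Nat.Primes) : ℂ :=
  χ ((p : ℕ) : ZMod q) * ((p : ℕ) : ℂ) ^ (-(s : ℂ))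

lemma cp (s : ℝ) (p : Nat.Primes) :
    ((p : ℕ) : ℂ) ^ (-(s : ℂ)) = ((((p : ℕ) : ℝ) ^ (-s) : ℝ) : ℂ) := by
  rw [Complex.ofReal_cpow (by positivity)]
  push_cast
  rfl

lemma nwt (χ : DirichletCharacter ℂ q) (s : ℝ) (p : Nat.Primes) :
    ‖wt χ s p‖ ≤ ((p : ℕ) : ℝ) ^ (-s) := by
  unfold wt
  rw [norm_mul, cp, Complex.norm_real, Real.norm_of_nonneg (by positivity)]
  exact mul_le_of_le_one_left (by positivity) (DirichletCharacter.norm_le_one χ _)

lemma half {s : ℝ} (hs : 1 < s) (p : Nat.Primes) : ((p : ℕ) : ℝ) ^ (-s) ≤ 1 / 2 := by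
  have hp : (2 : ℝ) ≤ ((p : ℕ) : ℝ) := by exact_mod_cast p.2.two_le
  calc ((p : ℕ) : ℝ) ^ (-s) ≤ ((p : ℕ) : ℝ) ^ (-(1 : ℝ)) :=
        Real.rpow_le_rpow_of_exponent_le (by linarith) (by linarith)
    _ = 1 / ((p : ℕ) : ℝ) := by rw [Real.rpow_neg_one, one_div]
    _ ≤ 1 / 2 := one_div_le_one_div_of_le two_pos hp

lemma swt (χ : DirichletCharacter ℂ q) {s : ℝ} (hs : 1 < s) : Summable fun p => ‖wt χ s p‖ :=
  Summable.of_nonneg_of_le (fun _ => norm_nonneg _) (nwt χ s)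
    (Nat.Primes.summable_rpow.2 (by linarith))

noncomputable def QQ : ℝ := ∑' p : Nat.Primes, ((p : ℕ) : ℝ) ^ (-(2 : ℝ))

lemma est (χ : DirichletCharacter ℂ q) {s : ℝ} (hs : 1 < s) :
    |∑' p, (wt χ s p).re - Real.log ‖LFunction χ (s : ℂ)‖| ≤ QQ := by
  have hre : 1 < (s : ℂ).re := by simpa using hs
  have h1 := Pool.Agent.T3h73.SG.PSB.two_sided (wt χ s) (swt χ hs)
    (fun p => (nwt χ s p).trans (half hs p)) _ (LSeries_eulerProduct_hasProd χ hre)
  rw [← LFunction_eq_LSeries χ hre] at h1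
  refine h1.2.trans ?_
  refine Summable.tsum_le_tsum (fun p => ?_) ?_ (Nat.Primes.summable_rpow.2 (by norm_num))
  · have h2 := nwt χ s p
    have hp : (1 : ℝ) ≤ ((p : ℕ) : ℝ) := by exact_mod_cast p.2.one_le
    calc ‖wt χ s p‖ ^ 2 ≤ (((p : ℕ) : ℝ) ^ (-s)) ^ 2 :=
          pow_le_pow_left₀ (norm_nonneg _) h2 2
      _ = ((p : ℕ) : ℝ) ^ (-s * 2) := by
          rw [Real.rpow_mul (by positivity)]
          norm_num
      _ ≤ ((p : ℕ) : ℝ) ^ (-(2 : ℝ)) := Real.rpow_le_rpow_of_exponent_le hp (by linarith)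
  · have h3 : Summable fun p : Nat.Primes => ((p : ℕ) : ℝ) ^ (-(2 : ℝ)) :=
      Nat.Primes.summable_rpow.2 (by norm_num)
    refine Summable.of_nonneg_of_le (fun _ => by positivity) (fun p => ?_) h3
    have h2 := nwt χ s p
    have hp : (1 : ℝ) ≤ ((p : ℕ) : ℝ) := by exact_mod_cast p.2.one_le
    calc ‖wt χ s p‖ ^ 2 ≤ (((p : ℕ) : ℝ) ^ (-s)) ^ 2 :=
          pow_le_pow_left₀ (norm_nonneg _) h2 2
      _ = ((p : ℕ) : ℝ) ^ (-s * 2) := by
          rw [Real.rpow_mul (by positivity)]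
          norm_num
      _ ≤ ((p : ℕ) : ℝ) ^ (-(2 : ℝ)) := Real.rpow_le_rpow_of_exponent_le hp (by linarith)

lemma ev1 : Tendsto (fun s : ℝ => (s : ℂ)) (𝓝[>] 1) (𝓝[≠] (1 : ℂ)) := by
  refine tendsto_nhdsWithin_iff.2 ⟨?_, ?_⟩
  · have h := (Complex.continuous_ofReal.tendsto (1 : ℝ))
    rw [Complex.ofReal_one] at h
    exact h.mono_left nhdsWithin_le_nhds
  · filter_upwards [self_mem_nhdsWithin] with s hs
    intro h
    have h1 : (s : ℂ) = ((1 : ℝ) : ℂ) := by simpa using h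
    have h2 : s = 1 := by exact_mod_cast h1
    have h3 : (1 : ℝ) < s := hs
    linarith

/-- nontrivial characters -/
lemma lim_ne {χ : DirichletCharacter ℂ q} (hχ : χ ≠ 1) :
    ∃ c : ℝ, Tendsto (fun s : ℝ => Real.log ‖LFunction χ (s : ℂ)‖) (𝓝[>] 1) (𝓝 c) := by
  have h0 : LFunction χ 1 ≠ 0 := LFunction_ne_zero_of_one_le_re χ (Or.inl hχ) (by simp)
  refine ⟨Real.log ‖LFunction χ 1‖, ?_⟩
  have h1 : Tendsto (fun s : ℝ => ‖LFunction χ (s : ℂ)‖) (𝓝[>] 1) (𝓝 ‖LFunction χ 1‖) :=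
    ((differentiable_LFunction hχ).continuous.norm.tendsto (1 : ℂ)).comp
      (ev1.mono_right nhdsWithin_le_nhds)
  exact (Real.continuousAt_log (norm_ne_zero_iff.2 h0)).tendsto.comp h1

/-- the trivial character -/
lemma lim_one : ∃ c : ℝ, Tendsto (fun s : ℝ =>
    Real.log ‖LFunction (1 : DirichletCharacter ℂ q) (s : ℂ)‖ - Real.log (1 / (s - 1)))
    (𝓝[>] 1) (𝓝 c) := by
  have h := (LFunctionTrivChar_residue_one (N := q)).comp ev1
  set R : ℂ := ∏ p ∈ q.primeFactors, (1 - ((p : ℕ) : ℂ)⁻¹) with hR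
  have hR0 : R ≠ 0 := by
    rw [hR, Finset.prod_ne_zero_iff]
    intro p hp h1
    have hp2 := (Nat.prime_of_mem_primeFactors hp).one_lt
    have h2 : ((p : ℕ) : ℂ)⁻¹ = 1 := (sub_eq_zero.1 h1).symm
    rw [inv_eq_one] at h2
    have h3 : p = 1 := by exact_mod_cast h2
    omega
  refine ⟨Real.log ‖R‖, ?_⟩
  have h1 : Tendsto (fun s : ℝ => Real.log ‖((s : ℂ) - 1) * LFunctionTrivChar q (s : ℂ)‖) (𝓝[>] 1)
      (𝓝 (Real.log ‖R‖)) :=
    (Real.continuousAt_log (norm_ne_zero_iff.2 hR0)).tendsto.comp h.norm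
  refine h1.congr' ?_
  filter_upwards [self_mem_nhdsWithin] with s hs
  have hs1 : (0 : ℝ) < s - 1 := sub_pos.2 hs
  have hne : LFunction (1 : DirichletCharacter ℂ q) (s : ℂ) ≠ 0 := by
    refine LFunction_ne_zero_of_one_le_re _ (Or.inr ?_) ?_
    · intro h2
      have h3 : s = 1 := by exact_mod_cast h2
      linarith
    · simpa using hs.le
  rw [norm_mul, Real.log_mul _ (norm_ne_zero_iff.2 hne)]
  · have h4 : ‖(s : ℂ) - 1‖ = s - 1 := by
      rw [← Complex.ofReal_one, ← Complex.ofReal_sub, Complex.norm_real, Real.norm_of_nonneg hs1.le]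
    rw [h4, one_div, Real.log_inv]
    ring
  · rw [norm_ne_zero_iff]
    intro h5
    have h6 : (s : ℂ) = 1 := sub_eq_zero.1 h5
    have h3 : s = 1 := by exact_mod_cast h6
    linarith

open Classical in
lemma sum_P {s : ℝ} (hs : 1 < s) :
    ∑ χ : DirichletCharacter ℂ q, ∑' p, (wt χ s p).re =
      q.totient * ∑' p : ℕ, (if p.Prime ∧ (p : ZMod q) = 1 then (p : ℝ) ^ (-s) else 0) := by
  have h1 : ∀ χ : DirichletCharacter ℂ q, Summable fun p => (wt χ s p).re := fun χ =>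
    (swt χ hs).of_norm_bounded (fun p => by
      rw [Real.norm_eq_abs]; exact Complex.abs_re_le_norm _)
  rw [← Summable.tsum_finsetSum fun χ _ => h1 χ]
  have h2 : ∀ p : Nat.Primes, ∑ χ : DirichletCharacter ℂ q, (wt χ s p).re =
      q.totient * (if ((p : ℕ) : ZMod q) = 1 then ((p : ℕ) : ℝ) ^ (-s) else 0) := by
    intro p
    rw [← Complex.re_sum]
    unfold wt
    rw [← Finset.sum_mul, sum_characters_eq ℂ, cp]
    split_ifs with h
    · rw [← Complex.ofReal_natCast, ← Complex.ofReal_mul, Complex.ofReal_re]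
    · simp
  rw [tsum_congr h2, tsum_mul_left]
  congr 1
  have h3 := tsum_subtype {p : ℕ | p.Prime}
    (fun p : ℕ => if ((p : ℕ) : ZMod q) = 1 then ((p : ℕ) : ℝ) ^ (-s) else 0)
  refine h3.trans (tsum_congr fun p => ?_)
  by_cases hp : p.Prime
  · rw [Set.indicator_of_mem (show p ∈ {p : ℕ | p.Prime} from hp)]
    by_cases hq : (p : ZMod q) = 1
    · rw [if_pos hq, if_pos ⟨hp, hq⟩]
    · rw [if_neg hq, if_neg fun h => hq h.2]
  · rw [Set.indicator_of_notMem (show p ∉ {p : ℕ | p.Prime} from hp), if_neg fun h => hp h.1]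

lemma log_top : Tendsto (fun s : ℝ => Real.log (1 / (s - 1))) (𝓝[>] 1) atTop := by
  have h1 : Tendsto (fun s : ℝ => s - 1) (𝓝[>] 1) (𝓝[>] 0) := by
    refine tendsto_nhdsWithin_iff.2 ⟨?_, ?_⟩
    · have h : Continuous fun s : ℝ => s - 1 := by fun_prop
      have h2 := h.tendsto 1
      rw [sub_self] at h2
      exact h2.mono_left nhdsWithin_le_nhds
    · filter_upwards [self_mem_nhdsWithin] with s hs
      have h3 : (1 : ℝ) < s := hs
      exact sub_pos.2 h3
  refine (Real.tendsto_log_atTop.comp (tendsto_inv_nhdsGT_zero.comp h1)).congr fun s => ?_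
  simp [one_div]

open Classical in
theorem t_PAP : S_PAP := by
  intro q hq
  haveI : NeZero q := ⟨by omega⟩
  have hφ : (0 : ℝ) < q.totient := by
    have := Nat.totient_pos.2 (show 0 < q by omega)
    exact_mod_cast this
  -- the sum of the logarithms
  obtain ⟨c, hc⟩ : ∃ c : ℝ, Tendsto (fun s : ℝ => ∑ χ : DirichletCharacter ℂ q,
      Real.log ‖LFunction χ (s : ℂ)‖ - Real.log (1 / (s - 1))) (𝓝[>] 1) (𝓝 c) := by
    choose f hf using fun χ : DirichletCharacter ℂ q => show ∃ c : ℝ, χ ≠ 1 →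
      Tendsto (fun s : ℝ => Real.log ‖LFunction χ (s : ℂ)‖) (𝓝[>] 1) (𝓝 c) from by
        by_cases h : χ ≠ 1
        · obtain ⟨c, hc⟩ := lim_ne h
          exact ⟨c, fun _ => hc⟩
        · exact ⟨0, fun h' => absurd h' h⟩
    obtain ⟨c1, hc1⟩ := lim_one (q := q)
    refine ⟨∑ χ ∈ Finset.univ.erase (1 : DirichletCharacter ℂ q), f χ + c1, ?_⟩
    have h2 := (tendsto_finsetSum (Finset.univ.erase (1 : DirichletCharacter ℂ q))
      fun χ hχ => hf χ (Finset.ne_of_mem_erase hχ)).add hc1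
    refine h2.congr fun s => ?_
    rw [← Finset.sum_erase_add Finset.univ _ (Finset.mem_univ (1 : DirichletCharacter ℂ q))]
    ring
  -- boundedness
  have hcard : ∀ s : ℝ, 1 < s → |q.totient *
      ∑' p : ℕ, (if p.Prime ∧ (p : ZMod q) = 1 then (p : ℝ) ^ (-s) else 0) -
      ∑ χ : DirichletCharacter ℂ q, Real.log ‖LFunction χ (s : ℂ)‖| ≤
      Fintype.card (DirichletCharacter ℂ q) * QQ := by
    intro s hs
    rw [← sum_P hs, ← Finset.sum_sub_distrib]
    refine (Finset.abs_sum_le_sum_abs _ _).trans ?_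
    refine (Finset.sum_le_sum fun χ _ => est χ hs).trans ?_
    rw [Finset.sum_const, nsmul_eq_mul, Finset.card_univ]
  have hb : (fun s : ℝ => q.totient *
      ∑' p : ℕ, (if p.Prime ∧ (p : ZMod q) = 1 then (p : ℝ) ^ (-s) else 0) -
      Real.log (1 / (s - 1))) =O[𝓝[>] 1] (fun _ => (1 : ℝ)) := by
    have h1 : (fun s : ℝ => q.totient *
      ∑' p : ℕ, (if p.Prime ∧ (p : ZMod q) = 1 then (p : ℝ) ^ (-s) else 0) -
      ∑ χ : DirichletCharacter ℂ q, Real.log ‖LFunction χ (s : ℂ)‖) =O[𝓝[>] 1]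
        (fun _ => (1 : ℝ)) := by
      refine Asymptotics.IsBigO.of_bound (Fintype.card (DirichletCharacter ℂ q) * QQ) ?_
      filter_upwards [self_mem_nhdsWithin] with s hs
      rw [Real.norm_eq_abs, norm_one, mul_one]
      exact hcard s hs
    refine (h1.add (hc.isBigO_one ℝ)).congr_left fun s => ?_
    ring
  have h0 : Tendsto (fun s : ℝ => (q.totient *
      ∑' p : ℕ, (if p.Prime ∧ (p : ZMod q) = 1 then (p : ℝ) ^ (-s) else 0) -
      Real.log (1 / (s - 1))) / Real.log (1 / (s - 1))) (𝓝[>] 1) (𝓝 0) := by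
    refine (hb.trans_isLittleO ?_).tendsto_div_nhds_zero
    exact (Asymptotics.isLittleO_const_left.2 (Or.inr (tendsto_norm_atTop_atTop.comp log_top)))
  have h5 := ((h0.add_const 1).const_mul (1 / (q.totient : ℝ)))
  rw [zero_add, mul_one] at h5
  refine h5.congr' ?_
  filter_upwards [log_top.eventually_gt_atTop 0] with s hs
  field_simp
  ring

end Pool.Agent.T3h73.TK.PAP
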