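import Pool.Agent.T3h73.TK.Stm
import Pool.Agent.Y715.T.RecC

/-! Project TK, task SYMM (helper69): cubic reciprocity for all primary primes. -/

set_option autoImplicit false
set_option linter.all false

namespace Pool.Agent.T3h73.TK.SYMM

open Pool.Agent.Y692.QS
open Pool.Agent.Y715.T.Rec (la FF mk mk_eq_zero nn cs w_pow_ex w_pow_cube w_inj w_add nr_of_assoc
  char_ne three_dvd_la)
open Pool.Agent.Y715.T.RecG
open Pool.Agent.Y715.T.RecC (nr_nn unit_form exists_prim star_prime star_dvd)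
open scoped Classical

lemma pq_star {π : Ei} (h : Pq π) : Pq (star π) := by
  refine ⟨star_prime h.prime, ?_⟩
  have h1 := star_dvd h.three
  rw [star_sub, star_one] at h1
  have h2 : star (3 : Ei) = 3 := by decide
  rwa [h2] at h1

/-- the conjugate of the symbol -/
lemma cs_star {π : Ei} (h : Pq π) {x : Ei} (hx : ¬ π ∣ x) :
    cs (star π) (star x) = -cs π x := by
  have h' := pq_star h
  apply cs_of h'.prime h'.norm
  have h1 := star_dvd (cs_spec h.prime h.norm hx)
  have h2 : nn (star π) = nn π := by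
    unfold nn
    rw [nr_star]
  have h3 : ∀ c : ZMod 3, star (w ^ c.val : Ei) = w ^ (-c).val := by
    intro c
    rw [star_pow, star_w]
    revert c
    decide
  rw [star_sub, star_pow, h3] at h1
  rw [h2]
  exact h1

/-- a unit which is `1` modulo `3` is `1` -/
lemma unit_one {u : Ei} (hu : IsUnit u) (h3 : (3 : Ei) ∣ u - 1) : u = 1 := by
  obtain ⟨c, hc | hc⟩ := unit_form hu
  · rw [hc] at h3 ⊢
    have h5 : (((3 : ℤ) : Ei)) ∣ w ^ c.val - 1 := by exact_mod_cast h3
    rw [int_dvd] at h5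
    exact (by decide : ∀ c : ZMod 3, ((3 : ℤ) ∣ (w ^ c.val - 1 : Ei).re ∧
      (3 : ℤ) ∣ (w ^ c.val - 1 : Ei).im) → (w : Ei) ^ c.val = 1) c h5
  · exfalso
    rw [hc] at h3
    have h5 : (((3 : ℤ) : Ei)) ∣ -w ^ c.val - 1 := by exact_mod_cast h3
    rw [int_dvd] at h5
    exact (by decide : ∀ c : ZMod 3, ¬ ((3 : ℤ) ∣ (-w ^ c.val - 1 : Ei).re ∧
      (3 : ℤ) ∣ (-w ^ c.val - 1 : Ei).im)) c h5

lemma eq_of_dvd {π ρ : Ei} (h : Pq π) (h' : Pq ρ) (hd : ρ ∣ π) : ρ = π := by
  obtain ⟨u, hu⟩ := (h'.prime.dvd_prime_iff_associated h.prime).1 hd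
  have h3 : (3 : Ei) ∣ (u : Ei) - 1 := by
    have e : (u : Ei) - 1 = (π - 1) - (ρ - 1) * u := by rw [← hu]; ring
    rw [e]
    exact dvd_sub h.three (Dvd.dvd.mul_right h'.three _)
  rw [← hu, unit_one u.isUnit h3, mul_one]

lemma three_mul {a b : Ei} (ha : (3 : Ei) ∣ a - 1) (hb : (3 : Ei) ∣ b - 1) :
    (3 : Ei) ∣ a * b - 1 := by
  have e : a * b - 1 = (a - 1) * b + (b - 1) := by ring
  rw [e]
  exact dvd_add (Dvd.dvd.mul_right ha _) hb

/-- the relation for all divisors of the trace -/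
lemma rel {π : Ei} (h : Pq π) (α : Ei) (h0 : α ≠ 0)
    (hα : ∀ ρ : Ei, Prime ρ → ρ ∣ α → ¬ ρ ∣ 3 ∧ nr ρ ≠ nr π ∧ ρ ∣ π + star π) :
    ∃ u : Ei, IsUnit u ∧ (3 : Ei) ∣ u * α - 1 ∧ cs π (u * α) = cs (star π) (u * α) := by
  have h' := pq_star h
  induction α using UniqueFactorizationMonoid.induction_on_prime with
  | h₁ => exact absurd rfl h0
  | h₂ u hu =>
    obtain ⟨v, hv⟩ := hu.exists_left_inv
    refine ⟨v, IsUnit.of_mul_eq_one _ hv, ?_, ?_⟩
    · rw [hv, sub_self]
      exact dvd_zero _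
    · rw [hv, cs_one h.prime h.norm, cs_one h'.prime h'.norm]
  | h₃ β ρ hβ hρ ih =>
    have hβ0 : β ≠ 0 := hβ
    obtain ⟨v, hv, hv3, hvc⟩ := ih hβ0 (fun r hr hd => hα r hr (Dvd.dvd.mul_left hd _))
    obtain ⟨h3, hn, ht⟩ := hα ρ hρ (dvd_mul_right _ _)
    obtain ⟨u, hu, hu3⟩ := exists_prim hρ h3
    have hup : Prime (u * ρ) := by
      obtain ⟨v, rfl⟩ := hu
      exact (Associated.prime_iff ⟨v, mul_comm _ _⟩).1 hρ
    have hnr : nr (u * ρ) = nr ρ := by rw [nr_mul, isUnit_iff.1 hu, one_mul]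
    have hn' : nr ρ ≠ nr (star π) := by rwa [nr_star]
    have hq : Pq (u * ρ) := ⟨hup, hu3⟩
    have hdu : ∀ {τ : Ei}, Prime τ → nr ρ ≠ nr τ → ¬ τ ∣ u * ρ := fun hτ hne h1 =>
      hne (by rw [← hnr]; exact (nr_of_assoc hτ hup h1).symm)
    have hdβ : ¬ π ∣ v * β := fun h1 => by
      rcases h.prime.dvd_or_dvd h1 with h2 | h2
      · exact h.prime.not_isUnit (isUnit_of_dvd_unit h2 hv)
      · exact (hα π h.prime (Dvd.dvd.mul_left h2 _)).2.1 rfl
    have hdβ' : ¬ star π ∣ v * β := fun h1 => by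
      rcases h'.prime.dvd_or_dvd h1 with h2 | h2
      · exact h'.prime.not_isUnit (isUnit_of_dvd_unit h2 hv)
      · exact (hα (star π) h'.prime (Dvd.dvd.mul_left h2 _)).2.1 (nr_star π)
    have h7 : cs (u * ρ) π = cs π (u * ρ) := cs_comm h hq (by rw [hnr]; exact hn.symm)
    have h8 : cs (u * ρ) (star π) = cs (star π) (u * ρ) :=
      cs_comm h' hq (by rw [hnr]; exact hn'.symm)
    have hnd : ¬ u * ρ ∣ star π := fun h1 => hn' (by
      rw [← hnr]
      exact nr_of_assoc hup h'.prime h1)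
    have h9 : cs (u * ρ) (star π) = cs (u * ρ) π := by
      have hnd1 : ¬ u * ρ ∣ -π := fun h1 => hn (by
        rw [← hnr]
        exact nr_of_assoc hup h.prime ((dvd_neg).1 h1))
      have hnd2 : ¬ u * ρ ∣ π := fun h1 => hnd1 ((dvd_neg).2 h1)
      rw [← cs_neg hup hq.norm hnd2]
      refine cs_congr hup hq.norm hnd ?_
      rw [sub_neg_eq_add, add_comm]
      obtain ⟨v, rfl⟩ := hu
      exact (Units.mul_left_dvd).2 ht
    refine ⟨u * v, hu.mul hv, ?_, ?_⟩
    · have e : u * v * (ρ * β) = (u * ρ) * (v * β) := by ring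
      rw [e]
      exact three_mul hu3 hv3
    · have e : u * v * (ρ * β) = (u * ρ) * (v * β) := by ring
      rw [e, cs_mul h.prime h.norm (hdu h.prime hn) hdβ,
        cs_mul h'.prime h'.norm (hdu h'.prime hn') hdβ', hvc, ← h7, ← h8, h9]

/-- reciprocity for conjugate primes -/
theorem conj_zero {π : Ei} (h : Pq π) (hn : ¬ π ∣ star π) : cs π (star π) = 0 := by
  have h' := pq_star h
  set t : Ei := π + star π with ht
  have hts : star t = t := by rw [ht, star_add, star_star, add_comm]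
  have hπt : ¬ π ∣ t := fun h1 => hn (by
    have e : star π = t - π := by rw [ht]; ring
    rw [e]
    exact dvd_sub h1 (dvd_refl π))
  have ht0 : t ≠ 0 := fun h1 => hπt (h1 ▸ dvd_zero _)
  have ht3 : (3 : Ei) ∣ t - 2 := by
    have e : t - 2 = (π - 1) + (star π - 1) := by rw [ht]; ring
    rw [e]
    exact dvd_add h.three h'.three
  have hnt3 : (3 : Ei) ∣ -t - 1 := by
    have e : -t - 1 = -(t - 2) - 3 := by ring
    rw [e]
    exact dvd_sub ((dvd_neg).2 ht3) (dvd_refl _)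
  obtain ⟨u, hu, hu3, huc⟩ := rel h (-t) (neg_ne_zero.2 ht0) (fun ρ hρ hd => by
    have hd' : ρ ∣ t := (dvd_neg).1 hd
    refine ⟨?_, ?_, hd'⟩
    · intro h3
      have h4 : ρ ∣ 1 := by
        have h5 : ρ ∣ 2 := by
          have e2 : (2 : Ei) = t - (t - 2) := by ring
          rw [e2]
          exact dvd_sub hd' (dvd_trans h3 ht3)
        have e3 : (1 : Ei) = 3 - 2 := by norm_num
        rw [e3]
        exact dvd_sub h3 h5
      exact hρ.not_isUnit (isUnit_of_dvd_one h4)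
    · intro h3
      have h4 : ρ ∣ π ∨ ρ ∣ star π := by
        apply hρ.dvd_or_dvd
        rw [mul_star, ← h3, ← mul_star]
        exact dvd_mul_right _ _
      rcases h4 with h4 | h4
      · exact hπt (dvd_trans ((hρ.dvd_prime_iff_associated h.prime).1 h4).symm.dvd hd')
      · have h5 := dvd_trans ((hρ.dvd_prime_iff_associated h'.prime).1 h4).symm.dvd hd'
        have h6 := star_dvd h5
        rw [star_star, hts] at h6
        exact hπt h6)
  -- the unit is one
  have hu1 : u = 1 := by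
    apply unit_one hu
    have e : u - 1 = (u * -t - 1) - u * (-t - 1) := by ring
    rw [e]
    exact dvd_sub hu3 (Dvd.dvd.mul_left hnt3 _)
  rw [hu1, one_mul] at huc
  have hπnt : ¬ π ∣ -t := fun h1 => hπt ((dvd_neg).1 h1)
  have h2 := cs_star h hπnt
  rw [star_neg, hts] at h2
  rw [h2] at huc
  have h3 : cs π (-t) = 0 := by
    revert huc
    generalize cs π (-t) = c
    revert c
    decide
  have h4 : cs π (-t) = cs π t := cs_neg h.prime h.norm hπt
  rw [← h3, h4]
  refine cs_congr h.prime h.norm hn ?_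
  exact ⟨-1, by rw [ht]; ring⟩

/-- cubic reciprocity -/
theorem cs_comm_all {π ρ : Ei} (h : Pq π) (h' : Pq ρ) (hn : ¬ ρ ∣ π) : cs ρ π = cs π ρ := by
  by_cases hne : nr π = nr ρ
  · have h1 : ρ ∣ star π := by
      have h2 : ρ ∣ π * star π := by
        rw [mul_star, hne, ← mul_star]
        exact dvd_mul_right _ _
      exact (h'.prime.dvd_or_dvd h2).resolve_left hn
    have h3 : ρ = star π := eq_of_dvd (pq_star h) h' h1
    subst h3
    have hn1 : ¬ π ∣ star π := by
      intro h4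
      have h5 := star_dvd h4
      rw [star_star] at h5
      exact hn h5
    have h6 := conj_zero h hn1
    have h7 := conj_zero (pq_star h) (by rwa [star_star])
    rw [star_star] at h7
    rw [h6, h7]
  · exact cs_comm h h' hne

theorem t_SYMM : S_SYMM := by
  intro π ρ hπ hπ3 hρ hρ3 hne
  have h : Pq π := ⟨hπ, hπ3⟩
  have h' : Pq ρ := ⟨hρ, hρ3⟩
  have hn : ¬ π ∣ ρ := fun hd => hne (eq_of_dvd h' h hd)
  exact cs_comm_all h' h hn

end Pool.Agent.T3h73.TK.SYMM
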