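import Pool.Agent.T3h73.TK.Stm
import Pool.Agent.T3h73.SD.T_MASS

/-!
Task TQL of project TK (helper73): the sums `TQ`: summability and bounds from below.
-/

set_option autoImplicit false

open NumberField IsDedekindDomain Filter Topology

namespace Pool.Agent.T3h73.TK.TQL

open Pool.Agent.T3h73.SL (Pl)
open Pool.Agent.H921R2.TatePole
open Pool.Agent.T3h73.SD.MASS (NA_rpow one_le_nm)
open Pool.Agent.T3h73.SD (NA Prs.fsum)

theorem exp_le {x : ℝ} (hx : 0 ≤ x) : Real.exp (x - x ^ 2 / 2) ≤ 1 + x := by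
  rw [← Real.le_log_iff_exp_le (by linarith)]
  refine le_trans ?_ (Real.le_log_one_add_of_nonneg hx)
  rw [le_div_iff₀ (by linarith)]
  nlinarith [pow_nonneg hx 3]

theorem fsum_ge2 {ι : Type*} (f : ι → ℝ) (hf : ∀ i, 0 ≤ f i) (hs : Summable f)
    (hs2 : Summable (fun i => f i ^ 2)) :
    Real.exp (∑' i, (f i - f i ^ 2 / 2)) ≤ ∑' A : Finset ι, ∏ i ∈ A, f i := by
  classical
  have hs3 : Summable (fun i => f i - f i ^ 2 / 2) := hs.sub (hs2.div_const 2)
  refine le_of_tendsto ((Real.continuous_exp.tendsto _).comp hs3.hasSum) ?_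
  refine Eventually.of_forall fun F => ?_
  simp only [Function.comp_apply]
  have h1 : Real.exp (∑ i ∈ F, (f i - f i ^ 2 / 2)) ≤ ∏ i ∈ F, (1 + f i) := by
    rw [Real.exp_sum]
    exact Finset.prod_le_prod (fun i _ => (Real.exp_pos _).le) fun i _ => exp_le (hf i)
  refine h1.trans ?_
  rw [Finset.prod_one_add]
  exact (Prs.fsum f hf hs).1.sum_le_tsum _ fun A _ => Finset.prod_nonneg fun i _ => hf i

theorem tendsto_L : Tendsto (fun s : ℝ => Real.log (1 / (s - 1))) (𝓝[>] 1) atTop := by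
  have h1 : Tendsto (fun s : ℝ => s - 1) (𝓝[>] 1) (𝓝[>] 0) := by
    rw [tendsto_nhdsWithin_iff]
    refine ⟨?_, ?_⟩
    · have h : Tendsto (fun s : ℝ => s - 1) (𝓝 1) (𝓝 (1 - 1)) := tendsto_id.sub_const 1
      rw [sub_self] at h
      exact h.mono_left nhdsWithin_le_nhds
    · refine eventually_nhdsWithin_of_forall fun s hs => ?_
      exact sub_pos.2 (Set.mem_Ioi.1 hs)
  have h2 := (Real.tendsto_log_atTop.comp tendsto_inv_nhdsGT_zero).comp h1
  refine h2.congr fun s => ?_
  simp only [Function.comp_apply, one_div]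

open Classical in
theorem t_TQL : S_TQL := by
  intro K _ _ Q n hn hQ t ht
  -- the factors
  have key : ∀ s : ℝ, 1 < s → ∃ f : Pl K → ℝ, (∀ q, f q = if q ∈ Q then t * (nm q : ℝ) ^ (-s) else 0) ∧
      (∀ q, 0 ≤ f q) ∧ Summable f ∧ (∀ q, f q ≤ t * (nm q : ℝ) ^ (-s)) ∧
      ∀ P : Finset (Pl K), (if In Q P then t ^ P.card * (NA P : ℝ) ^ (-s) else 0) =
        ∏ q ∈ P, f q := by
    intro s hs
    refine ⟨fun q => if q ∈ Q then t * (nm q : ℝ) ^ (-s) else 0, fun q => rfl, ?_, ?_, ?_, ?_⟩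
    · intro q
      simp only
      split_ifs
      · positivity
      · exact le_rfl
    · refine Summable.of_nonneg_of_le (fun q => ?_) (fun q => ?_) ((nm_summable (K := K) hs).mul_left t)
      · split_ifs
        · positivity
        · exact le_rfl
      · split_ifs
        · exact le_rfl
        · positivity
    · intro q
      simp only
      split_ifs
      · exact le_rfl
      · positivity
    · intro P
      by_cases h : In Q P
      · rw [if_pos h, NA_rpow, ← Finset.prod_const, ← Finset.prod_mul_distrib]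
        refine Finset.prod_congr rfl fun q hq => ?_
        simp only
        rw [if_pos (h q hq)]
      · rw [if_neg h]
        unfold In at h
        push Not at h
        obtain ⟨q, hqP, hqQ⟩ := h
        rw [Finset.prod_eq_zero hqP]
        rw [if_neg hqQ]
  refine ⟨fun s hs hs2 => ?_, fun ε hε => ?_⟩
  · obtain ⟨f, hf, hf0, hfs, hfle, hP⟩ := key s hs
    have h1 := Prs.fsum f hf0 hfs
    refine ⟨h1.1.congr fun P => (hP P).symm, ?_⟩
    unfold TQ
    rw [tsum_congr hP]
    have h2 := h1.1.sum_le_tsum {∅} fun A _ => Finset.prod_nonneg fun i _ => hf0 i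
    simpa using h2
  · set T2 : ℝ := ∑' q : Pl K, (nm q : ℝ) ^ (-(2 : ℝ)) with hT2
    have hT2' : 0 ≤ T2 := tsum_nonneg fun q => by positivity
    have hn0 : (0 : ℝ) < n := by exact_mod_cast hn
    set δ : ℝ := ε / (2 * (t + 1)) with hδ
    have hδ0 : 0 < δ := by positivity
    have htδ : t * δ ≤ ε / 2 := by
      rw [hδ, ← mul_div_assoc, div_le_div_iff₀ (by positivity) (by norm_num)]
      nlinarith
    have e1 : ∀ᶠ s : ℝ in 𝓝[>] 1, 1 / (n : ℝ) - δ <
        (∑' q : Pl K, if q ∈ Q then (Ideal.absNorm q.asIdeal : ℝ) ^ (-s) else 0) /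
          Real.log (1 / (s - 1)) :=
      hQ.eventually (lt_mem_nhds (by linarith))
    have e2 : ∀ᶠ s : ℝ in 𝓝[>] 1, max 1 (t ^ 2 * T2 / ε) ≤ Real.log (1 / (s - 1)) :=
      tendsto_L.eventually_ge_atTop _
    have e3 : ∀ᶠ s : ℝ in 𝓝[>] 1, (1 : ℝ) < s :=
      eventually_nhdsWithin_of_forall fun s hs => hs
    filter_upwards [e1, e2, e3] with s h1 h2 hs
    obtain ⟨f, hf, hf0, hfs, hfle, hP⟩ := key s hs
    set L : ℝ := Real.log (1 / (s - 1)) with hL
    have hL1 : 1 ≤ L := (le_max_left _ _).trans h2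
    have hL2 : t ^ 2 * T2 / ε ≤ L := (le_max_right _ _).trans h2
    have hs0 : 0 < s - 1 := by linarith
    have hpow : ∀ q : Pl K, ((nm q : ℝ) ^ (-s)) ^ 2 ≤ (nm q : ℝ) ^ (-(2 : ℝ)) := by
      intro q
      rw [← Real.rpow_natCast, ← Real.rpow_mul (by positivity)]
      refine Real.rpow_le_rpow_of_exponent_le (one_le_nm q) ?_
      push_cast
      linarith
    have hfle2 : ∀ q, f q ^ 2 ≤ t ^ 2 * (nm q : ℝ) ^ (-(2 : ℝ)) := by
      intro q
      calc f q ^ 2 ≤ (t * (nm q : ℝ) ^ (-s)) ^ 2 := pow_le_pow_left₀ (hf0 q) (hfle q) 2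
        _ = t ^ 2 * ((nm q : ℝ) ^ (-s)) ^ 2 := by ring
        _ ≤ _ := mul_le_mul_of_nonneg_left (hpow q) (by positivity)
    have hsum2 : Summable (fun q : Pl K => t ^ 2 * (nm q : ℝ) ^ (-(2 : ℝ))) :=
      (nm_summable (by norm_num : (1 : ℝ) < 2)).mul_left _
    have hfs2 : Summable (fun q => f q ^ 2) :=
      Summable.of_nonneg_of_le (fun q => sq_nonneg _) hfle2 hsum2
    have h3 : ∑' q, f q ^ 2 ≤ t ^ 2 * T2 := by
      rw [hT2, ← tsum_mul_left]
      exact Summable.tsum_le_tsum hfle2 hfs2 hsum2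
    have h4 : ∑' q, f q = t * ∑' q : Pl K,
        (if q ∈ Q then (Ideal.absNorm q.asIdeal : ℝ) ^ (-s) else 0) := by
      rw [← tsum_mul_left]
      refine tsum_congr fun q => ?_
      rw [hf]
      split_ifs
      · rfl
      · rw [mul_zero]
    have h5 : (1 / (n : ℝ) - δ) * L ≤ ∑' q : Pl K,
        (if q ∈ Q then (Ideal.absNorm q.asIdeal : ℝ) ^ (-s) else 0) := by
      rw [lt_div_iff₀ (by linarith)] at h1
      exact h1.le
    have h6 : ∑' q, (f q - f q ^ 2 / 2) = ∑' q, f q - (∑' q, f q ^ 2) / 2 := by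
      rw [Summable.tsum_sub hfs (hfs2.div_const 2), tsum_div_const]
    unfold TQ
    rw [tsum_congr hP]
    refine le_trans ?_ (fsum_ge2 f hf0 hfs hfs2)
    rw [Real.rpow_def_of_pos (by positivity), ← hL]
    apply Real.exp_le_exp.mpr
    rw [h6, h4]
    have h7 : t ^ 2 * T2 ≤ ε * L := by
      rw [div_le_iff₀ hε] at hL2
      linarith
    have h8 := mul_le_mul_of_nonneg_left h5 ht
    have h9 : t * δ * L ≤ ε / 2 * L := mul_le_mul_of_nonneg_right htδ (by linarith)
    have h10 : L * (t / n - ε) = t * ((1 / (n : ℝ) - δ) * L) + t * δ * L - ε * L := by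
      field_simp
      ring
    rw [h10]
    linarith

end Pool.Agent.T3h73.TK.TQL
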