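import Pool.Agent.T3h73.TK.Stm
import Pool.Agent.T3h73.SD.T_TUP

/-! From colourings to families of subsets of `Q` (TUPQ); adaptation of `SD/T_TUP.lean`. -/

set_option autoImplicit false
set_option linter.all false

open NumberField IsDedekindDomain Filter Topology

namespace Pool.Agent.T3h73.TK.TUPQ

open Pool.Agent.T3h73.SL (Pl)
open Pool.Agent.T3h73.SD (ee NA trm)
open Pool.Agent.T3h73.SD.TUP (norm_ee NA_pos Ph mem_Ph Ph_inj Ph_disj Ph_surj trm_Ph norm_trm_le summable_sig)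

variable {K : Type} [Field K] [NumberField K]

variable {C : Type} [Fintype C]

open Classical in
theorem tup_Ph (Q : Set (Pl K)) (x : Σ P : Finset (Pl K), (P → C)) :
    TupQ Q (Ph x) ↔ In Q x.1 := by
  unfold TupQ
  constructor
  · rintro ⟨h, -⟩
    intro q hq
    exact h (x.2 ⟨q, hq⟩) q (mem_Ph.2 ⟨hq, rfl⟩)
  · intro h
    refine ⟨fun c => ?_, Ph_disj x⟩
    intro q hq
    obtain ⟨h1, -⟩ := mem_Ph.1 hq
    exact h q h1

open Classical in
/-- the term, extended by zero -/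
noncomputable def tz {ℓ : ℕ} (Q : Set (Pl K)) {Λ : Type} (χ : Λ → Pl K → ZMod ℓ)
    (sy : Pl K → Pl K → ZMod ℓ) (R : C → C → ZMod ℓ) (m : ℕ) (h : C → Λ) (s : ℝ)
    (A : C → Finset (Pl K)) : ℂ := if TupQ Q A then trm χ sy R m h s A else 0

open Classical in
theorem summable_sig_tz {ℓ : ℕ} (Q : Set (Pl K)) {Λ : Type} (χ : Λ → Pl K → ZMod ℓ)
    (sy : Pl K → Pl K → ZMod ℓ) (R : C → C → ZMod ℓ) (hR : ∀ a, R a a = 0) (m : ℕ) (hm : 1 ≤ m)
    (h : C → Λ) {s : ℝ} (hs : 1 < s) :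
    Summable fun x : Σ P : Finset (Pl K), (P → C) => tz Q χ sy R m h s (Ph x) := by
  refine Summable.of_norm_bounded (summable_sig (C := C) hs) fun x => ?_
  unfold tz
  split_ifs
  · exact norm_trm_le χ sy R hR m hm h s x
  · rw [norm_zero]
    exact Real.rpow_nonneg (NA_pos _).le _

open Classical in
theorem tz_off {ℓ : ℕ} (Q : Set (Pl K)) {Λ : Type} (χ : Λ → Pl K → ZMod ℓ)
    (sy : Pl K → Pl K → ZMod ℓ) (R : C → C → ZMod ℓ) (m : ℕ) (h : C → Λ) (s : ℝ)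
    (A : C → Finset (Pl K)) (hA : A ∉ Set.range (Ph : (Σ P : Finset (Pl K), (P → C)) → _)) :
    tz Q χ sy R m h s A = 0 := by
  unfold tz
  rw [if_neg]
  intro hT
  exact hA (Ph_surj hT.2)

open Classical in
/-- absolute convergence of the sum over the families -/
theorem summable_tz {ℓ : ℕ} (Q : Set (Pl K)) {Λ : Type} (χ : Λ → Pl K → ZMod ℓ)
    (sy : Pl K → Pl K → ZMod ℓ) (R : C → C → ZMod ℓ) (hR : ∀ a, R a a = 0) (m : ℕ) (hm : 1 ≤ m)
    (h : C → Λ) {s : ℝ} (hs : 1 < s) : Summable (tz Q χ sy R m h s) :=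
  (Ph_inj.summable_iff fun A hA => tz_off Q χ sy R m h s A hA).1
    (summable_sig_tz Q χ sy R hR m hm h hs)

open Classical in
theorem Mh_eq {ℓ : ℕ} (Q : Set (Pl K)) {Λ : Type} (χ : Λ → Pl K → ZMod ℓ)
    (sy : Pl K → Pl K → ZMod ℓ) (R : C → C → ZMod ℓ) (hR : ∀ a, R a a = 0) (m : ℕ) (hm : 1 ≤ m)
    (h : C → Λ) {s : ℝ} (hs : 1 < s) : MhQ Q χ sy R m h s = ∑' A, tz Q χ sy R m h s A := by
  rw [← Ph_inj.tsum_eq (f := tz Q χ sy R m h s)]
  · rw [(summable_sig_tz Q χ sy R hR m hm h hs).tsum_sigma]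
    unfold MhQ
    refine tsum_congr fun P => ?_
    rw [tsum_fintype]
    split_ifs with hP
    · rw [Finset.mul_sum]
      refine Finset.sum_congr rfl fun col _ => ?_
      unfold tz
      rw [if_pos ((tup_Ph Q ⟨P, col⟩).2 hP), trm_Ph χ sy R hR]
    · refine (Finset.sum_eq_zero fun col _ => ?_).symm
      unfold tz
      rw [if_neg fun hT => hP ((tup_Ph Q ⟨P, col⟩).1 hT)]
  · intro A hA
    by_contra hc
    exact hA (tz_off Q χ sy R m h s A hc)

open Classical in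
/-- the part of the term with large sets exactly in `W` -/
noncomputable def gW {ℓ : ℕ} (Q : Set (Pl K)) {Λ : Type} (χ : Λ → Pl K → ZMod ℓ)
    (sy : Pl K → Pl K → ZMod ℓ) (R : C → C → ZMod ℓ) (m : ℕ) (h : C → Λ) (Z s : ℝ)
    (W : Finset C) (A : C → Finset (Pl K)) : ℂ :=
  if ∀ c, c ∈ W ↔ Z < (NA (A c) : ℝ) then tz Q χ sy R m h s A else 0

open Classical in
theorem MW_eq {ℓ : ℕ} (Q : Set (Pl K)) {Λ : Type} (χ : Λ → Pl K → ZMod ℓ)
    (sy : Pl K → Pl K → ZMod ℓ) (R : C → C → ZMod ℓ) (m : ℕ) (h : C → Λ) (Z s : ℝ)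
    (W : Finset C) : MWQ Q χ sy R m h Z W s = ∑' A, gW Q χ sy R m h Z s W A := by
  unfold MWQ
  refine tsum_congr fun A => ?_
  unfold gW tz
  by_cases h1 : ∀ c, c ∈ W ↔ Z < (NA (A c) : ℝ)
  · by_cases h2 : TupQ Q A
    · rw [if_pos ⟨h2, h1⟩, if_pos h1, if_pos h2]
    · rw [if_neg fun h3 => h2 h3.1, if_pos h1, if_neg h2]
  · rw [if_neg fun h3 => h1 h3.2, if_neg h1]

open Classical in
theorem gW_summable {ℓ : ℕ} (Q : Set (Pl K)) {Λ : Type} (χ : Λ → Pl K → ZMod ℓ)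
    (sy : Pl K → Pl K → ZMod ℓ) (R : C → C → ZMod ℓ) (hR : ∀ a, R a a = 0) (m : ℕ) (hm : 1 ≤ m)
    (h : C → Λ) (Z : ℝ) {s : ℝ} (hs : 1 < s) (W : Finset C) :
    Summable (gW Q χ sy R m h Z s W) := by
  refine Summable.of_norm_bounded (summable_tz Q χ sy R hR m hm h hs).norm fun A => ?_
  unfold gW
  split_ifs
  · exact le_rfl
  · rw [norm_zero]
    exact norm_nonneg _

open Classical in
theorem gW_sum {ℓ : ℕ} (Q : Set (Pl K)) {Λ : Type} (χ : Λ → Pl K → ZMod ℓ)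
    (sy : Pl K → Pl K → ZMod ℓ) (R : C → C → ZMod ℓ) (m : ℕ) (h : C → Λ) (Z s : ℝ)
    (A : C → Finset (Pl K)) :
    ∑ W : Finset C, gW Q χ sy R m h Z s W A = tz Q χ sy R m h s A := by
  rw [Finset.sum_eq_single (Finset.univ.filter fun c => Z < (NA (A c) : ℝ))]
  · unfold gW
    rw [if_pos]
    intro c
    rw [Finset.mem_filter]
    exact ⟨fun h1 => h1.2, fun h1 => ⟨Finset.mem_univ _, h1⟩⟩
  · intro W _ hW
    unfold gW
    rw [if_neg]
    intro h1
    apply hW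
    ext c
    rw [h1, Finset.mem_filter]
    exact ⟨fun h1 => ⟨Finset.mem_univ _, h1⟩, fun h1 => h1.2⟩
  · intro h1
    exact absurd (Finset.mem_univ _) h1

theorem t_TUPQ : S_TUPQ := by
  intro ℓ _ K _ _ Q Λ χ sy C _ R m h hm hR s Z hs _
  have h1 := Summable.tsum_finsetSum (s := Finset.univ) (f := gW Q χ sy R m h Z s)
    fun W _ => gW_summable Q χ sy R hR m hm h Z hs W
  rw [Mh_eq Q χ sy R hR m hm h hs, Finset.sum_congr rfl fun W _ => MW_eq Q χ sy R m h Z s W, ← h1]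
  exact tsum_congr fun A => (gW_sum Q χ sy R m h Z s A).symm

end Pool.Agent.T3h73.TK.TUPQ
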