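import Pool.Agent.T3h73.SD.T_LS
import Pool.Agent.T3h73.SD.T_BL
import Pool.Agent.T3h73.SD.T_LU
import Pool.Agent.T3h73.SD.T_KAP
import Pool.Agent.T3h73.SD.T_UNL
import Pool.Agent.T3h73.SD.T_CNTU
import Pool.Agent.T3h73.TK.T_MASSQ
import Pool.Agent.T3h73.TK.T_TQL
import Pool.Agent.T3h73.TK.T_TUPQ
import Pool.Agent.T3h73.TK.T_AN1Q
import Pool.Agent.T3h73.TK.T_AN2Q
import Pool.Agent.T3h73.TK.T_OUTQ
import Pool.Agent.T3h73.TK.T_AN3Q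
import Pool.Agent.T3h73.TK.T_ANQ
import Pool.Agent.T3h73.TK.T_EXPQ
import Pool.Agent.T3h73.TK.T_UNLQ
import Pool.Agent.T3h73.TK.T_MOMQ
import Pool.Agent.T3h73.TK.T_DISTQ
import Pool.Agent.T3h73.TK.T_SYMM
import Pool.Agent.T3h73.TK.T_FLD
import Pool.Agent.T3h73.TK.T_DIC
import Pool.Agent.T3h73.TK.T_NTR
import Pool.Agent.T3h73.TK.T_CHR
import Pool.Agent.T3h73.TK.T_PAP
import Pool.Agent.T3h73.TK.T_DENQ
import Pool.Agent.T3h73.TK.T_SYSQ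
import Pool.Agent.T3h73.TK.T_CHC
import Pool.Agent.T3h73.TK.T_CRI
import Pool.Agent.T3h73.TK.T_EULQ
import Pool.Agent.T3h73.TK.T_FIB
import Pool.Agent.T3h73.TK.T_FAM
import Pool.Agent.T3h73.TK.Fin

set_option autoImplicit false
set_option linter.all false

open NumberField IsDedekindDomain Filter Topology

namespace Pool.Agent.T3h73.TK

open Pool.Agent.T3h73.SD (S_LS S_BL S_LU S_UNL S_CNTU S_KAP)

theorem all_ANQ : S_ANQ :=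
  ANQ.t_ANQ TUPQ.t_TUPQ (AN1Q.t_AN1Q (SD.BL.t_BL SD.LS.t_LS))
    (AN2Q.t_AN2Q MASSQ.t_MASSQ TQL.t_TQL)
    (AN3Q.t_AN3Q (EULQ.t_EULQ SD.LU.t_LU) OUTQ.t_OUTQ MASSQ.t_MASSQ TQL.t_TQL TUPQ.t_TUPQ
      (AN2Q.t_AN2Q MASSQ.t_MASSQ TQL.t_TQL)) TQL.t_TQL

theorem all_DISTQ : S_DISTQ :=
  DISTQ.t_DISTQ (MOMQ.t_MOMQ EXPQ.t_EXPQ all_ANQ
    (UNLQ.t_UNLQ SD.UNL.t_UNL (SD.CNTU.t_CNTU SD.UNL.t_UNL))) SD.KAP.t_KAP TQL.t_TQL

theorem all_SYSQ : S_SYSQ :=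
  SYSQ.t_SYSQ DIC.t_DIC SYMM.t_SYMM (CHR.t_CHR DIC.t_DIC NTR.t_NTR)
    (DENQ.t_DENQ PAP.t_PAP DIC.t_DIC)

theorem all_FAM : S_FAM :=
  FAM.t_FAM DIC.t_DIC CRI.t_CRI SYMM.t_SYMM (FIB.t_FIB CHC.t_CHC)

theorem all_MAIN : S_MAIN := t_MAIN FLD.t_FLD all_SYSQ all_DISTQ all_FAM TQL.t_TQL

open Pool.Agent.T3h73.TK.Def in
/-- the sum over the whole family tends to infinity -/
theorem all_INF (k : ℕ) (hk : 2 ≤ k) :
    Tendsto (fun s : ℝ => fsum k (fun _ => True) s) (𝓝[>] 1) atTop := by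
  obtain ⟨K, _, _, ⟨f⟩⟩ := FLD.t_FLD
  obtain ⟨S, hS, hQ⟩ := all_SYSQ K f k (by omega)
  have hfam := all_FAM K f k hk
  have hn : 1 ≤ 3 ^ k := Nat.one_le_pow _ _ (by norm_num)
  obtain ⟨-, hT⟩ := TQL.t_TQL K (Qk f k) (3 ^ k) hn hQ.dens
    (2 * ((3 ^ (k - 1) : ℕ) : ℝ)) (by positivity)
  have h1 := hT (1 / 3) (by norm_num)
  have e1 : 2 * ((3 ^ (k - 1) : ℕ) : ℝ) / ((3 ^ k : ℕ) : ℝ) - 1 / 3 = 1 / 3 := by
    obtain ⟨j, rfl⟩ : ∃ j, k = j + 1 := ⟨k - 1, by omega⟩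
    rw [Nat.add_sub_cancel]
    push_cast
    rw [pow_succ]
    have : (3 : ℝ) ^ j ≠ 0 := by positivity
    field_simp
    norm_num
  rw [e1] at h1
  have h2 : Tendsto (fun s : ℝ => (1 / (s - 1)) ^ (1 / 3 : ℝ)) (𝓝[>] 1) atTop := by
    refine (tendsto_rpow_atTop (by norm_num : (0 : ℝ) < 1 / 3)).comp ?_
    have h3 : Tendsto (fun s : ℝ => s - 1) (𝓝[>] 1) (𝓝[>] 0) := by
      refine tendsto_nhdsWithin_iff.2 ⟨?_, ?_⟩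
      · have h3 : Tendsto (fun s : ℝ => s - 1) (𝓝 1) (𝓝 (1 - 1)) :=
          (continuous_id.sub continuous_const).tendsto 1
        rw [sub_self] at h3
        exact h3.mono_left nhdsWithin_le_nhds
      · filter_upwards [self_mem_nhdsWithin] with s hs
        exact sub_pos.2 (Set.mem_Ioi.1 hs)
    have h4 := tendsto_inv_nhdsGT_zero.comp h3
    refine h4.congr fun s => ?_
    rw [Function.comp, one_div]
  have hev : ∀ᶠ s : ℝ in 𝓝[>] 1, 1 < s ∧ s ≤ 2 := by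
    have h1 : Set.Ioc (1 : ℝ) 2 ∈ 𝓝[>] (1 : ℝ) := Ioc_mem_nhdsGT (by norm_num)
    exact Filter.mem_of_superset h1 fun s hs => hs
  refine tendsto_atTop_mono' _ ?_ h2
  filter_upwards [h1, hev] with s h3 h4
  rw [(hfam s h4.1 h4.2).2.1]
  exact h3

end Pool.Agent.T3h73.TK
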