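import Pool.Agent.T3h73.TK.BKDef
import Pool.Agent.T2h16.TT.Cri

set_option autoImplicit false
set_option linter.all false

namespace Pool.Agent.T3h73.TK.BK

open Pool.Agent.Y715.T.St T2h16.TT.St Pool.Agent.T3h73.TK.Def Pool.Agent.T3h73.TK.BKDef
open Pool.Agent.Y715.T Pool.Agent.Y715.T.Pf Pool.Agent.Y715.T.Ar
open scoped Classical

variable {k : ℕ} {i₀ : QBar}

/-- a set `{0, T, -T}` which is a subgroup, `T ≠ -T` -/
theorem three {A : Type} [AddCommGroup A] (H : AddSubgroup A) (T : A) (hT : T ≠ 0) (hT2 : T ≠ -T)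
    (hH : ∀ P, P ∈ H ↔ P ∈ ({0, T, -T} : Set A)) : (∀ P ∈ H, 3 • P = 0) ∧
    ({0, T, -T} : Set A).ncard = 3 := by
  have hTH : T ∈ H := (hH T).2 (by simp)
  have h3 : 3 • T = 0 := by
    have h1 : T + T ∈ H := add_mem hTH hTH
    rw [hH] at h1
    rcases h1 with h1 | h1 | h1
    · exact absurd (eq_neg_of_add_eq_zero_left h1) hT2
    · exact absurd (left_eq_add.1 h1.symm) hT
    · rw [Set.mem_singleton_iff] at h1
      rw [show (3 : ℕ) = 2 + 1 from rfl, add_smul, two_smul, one_smul, h1, neg_add_cancel]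
  constructor
  · intro P hP
    rw [hH] at hP
    rcases hP with rfl | rfl | hP
    · exact smul_zero _
    · exact h3
    · rw [Set.mem_singleton_iff] at hP
      rw [hP, smul_neg, h3, neg_zero]
  · rw [Set.ncard_eq_three]
    refine ⟨0, T, -T, fun h => hT h.symm, fun h => hT ?_, hT2, rfl⟩
    rw [← neg_neg T, ← h, neg_zero]

/-- the abstract statement -/
theorem abs_bk {G A : Type} [Group G] [TopologicalSpace G] [CompactSpace G] [AddCommGroup A]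
    (M : AddSubgroup A) (act : G → A →+ A) (L : (G → A) → Prop)
    (hfix : ∀ P ∈ M, (∀ σ, act σ P = P) → 3 • P = 0)
    (hS : ∀ (f : G → A) (n : ℕ), IsLocallyConstant f → (∀ σ, f σ ∈ M) →
      (∀ σ τ, f (σ * τ) = f σ + act σ (f τ)) → L f → (∀ σ, 3 ^ n • f σ = 0) →
      ∃ P ∈ M, ∀ σ, f σ = act σ P - P)
    (c : G → ℕ → A) (hlc : ∀ n, IsLocallyConstant fun σ => c σ n) (hcM : ∀ n σ, c σ n ∈ M)
    (hc3 : ∀ σ n, 3 • c σ (n + 1) = c σ n) (htor : ∀ σ n, ∃ m : ℕ, 3 ^ m • c σ n = 0)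
    (hcoc : ∀ n σ τ, c (σ * τ) n = c σ n + act σ (c τ n)) (hL : ∀ n, L fun σ => c σ n) :
    ∃ x : ℕ → A, (∀ n, x n ∈ M ∧ 3 • x (n + 1) = x n ∧ ∃ m : ℕ, 3 ^ m • x n = 0) ∧
      ∀ σ n, c σ n = act σ (x n) - x n := by
  have hexp : ∀ n, ∃ m : ℕ, ∀ σ, 3 ^ m • c σ n = 0 := by
    intro n
    have hfin : (Set.range fun σ => c σ n).Finite := (hlc n).range_finite
    have h1 : ∀ y ∈ hfin.toFinset, ∃ m : ℕ, 3 ^ m • y = 0 := by
      intro y hy
      obtain ⟨σ, rfl⟩ := hfin.mem_toFinset.1 hy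
      exact htor σ n
    choose! m hm using h1
    refine ⟨hfin.toFinset.sup m, fun σ => ?_⟩
    have hmem : c σ n ∈ hfin.toFinset := hfin.mem_toFinset.2 ⟨σ, rfl⟩
    obtain ⟨j, hj⟩ := Nat.exists_eq_add_of_le (Finset.le_sup (f := m) hmem)
    rw [hj, pow_add, mul_comm, mul_smul, hm _ hmem, smul_zero]
  have hcob : ∀ n, ∃ P ∈ M, ∀ σ, c σ n = act σ P - P := by
    intro n
    obtain ⟨m, hm⟩ := hexp n
    exact hS (fun σ => c σ n) m (hlc n) (hcM n) (hcoc n) (hL n) hm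
  choose x hx hxc using hcob
  have hy : ∀ σ n, c σ n = act σ (3 • x (n + 1)) - 3 • x (n + 1) := by
    intro σ n
    rw [map_nsmul, ← smul_sub, ← hxc (n + 1) σ, hc3]
  have hmemy : ∀ n, 3 • x (n + 1) ∈ M := fun n => nsmul_mem (hx (n + 1)) 3
  refine ⟨fun n => 3 • x (n + 1), fun n => ⟨hmemy n, ?_, ?_⟩, fun σ n => hy σ n⟩
  · have h5 := hfix (3 • x (n + 2) - x (n + 1)) (sub_mem (hmemy (n + 1)) (hx (n + 1)))
      (fun σ => by
        have h5 := hy σ (n + 1)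
        rw [hxc (n + 1) σ] at h5
        have h6 : act σ (3 • x (n + 2)) = act σ (x (n + 1)) - x (n + 1) + 3 • x (n + 2) :=
          eq_add_of_sub_eq h5.symm
        rw [map_sub, h6]
        abel)
    rw [smul_sub, sub_eq_zero] at h5
    exact h5
  · obtain ⟨m, hm⟩ := hexp n
    refine ⟨m + 1, ?_⟩
    rw [pow_succ, mul_comm, mul_smul]
    refine hfix _ (nsmul_mem (hmemy n) _) fun σ => ?_
    have h5 := hm σ
    rw [hy σ n, smul_sub, sub_eq_zero] at h5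
    rw [map_nsmul]
    exact h5

theorem bk_of (hi : i₀ ^ 2 + i₀ + 1 = 0) (a : GalK i₀ → ZMod (3 ^ k)) (T : Pts QBar)
    (hT : T ≠ 0) (hT2 : T ≠ -T) (hA : pointsK a = {0, fun _ => T, fun _ => -T})
    (hS : ∀ (f : GalK i₀ → ZMod (3 ^ k) → Pts QBar) (n : ℕ), IsCocycle a f → LocallyTrivial a f →
        IsCoboundary a (fun σ => (3 ^ n) • f σ) → IsCoboundary a f) :
    (pointsK a).ncard = 3 ∧ BKZero a := by
  have hne : (fun _ => T : ZMod (3 ^ k) → Pts QBar) ≠ 0 := fun h => hT (congrFun h 0)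
  have hne2 : (fun _ => T : ZMod (3 ^ k) → Pts QBar) ≠ -(fun _ => T) := fun h => hT2 (congrFun h 0)
  have hAK : ∀ P, P ∈ AK hi a ↔ P ∈ ({0, fun _ => T, -(fun _ => T)} :
      Set (ZMod (3 ^ k) → Pts QBar)) := by
    intro P
    have h1 := (points_eq hi a P).symm
    have h2 : P ∈ pointsK a ↔ P ∈ ({0, fun _ => T, fun _ => -T} :
      Set (ZMod (3 ^ k) → Pts QBar)) := by rw [hA]
    exact h1.trans h2
  obtain ⟨h3, hcard⟩ := three (AK hi a) (fun _ => T) hne hne2 hAK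
  refine ⟨?_, ?_⟩
  · rw [hA]
    exact hcard
  rintro c ⟨hcV, hcC⟩ hK
  have key := abs_bk (G := GalK i₀) (A := ZMod (3 ^ k) → Df.Pt Gi.QB) (Df.MM hi k) (act a)
    (fun f => LocallyTrivial a f) (fun P hP hPf => h3 P ⟨hP, hPf⟩)
    (fun f n hf1 hf2 hf3 hf4 hf5 => by
      have h2 : IsCoboundary a (fun σ => (3 ^ n) • f σ) := by
        refine (coboundary_iff hi a _).2 ⟨0, zero_mem _, fun σ => ?_⟩
        rw [map_zero, sub_zero]
        exact hf5 σ
      have h4 : IsCocycle a f := (cocycle_iff hi a f).2 ⟨hf1, hf2, hf3⟩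
      exact (coboundary_iff hi a f).1 (hS f n h4 hf4 h2))
    c (fun n => (hcC n).1) (fun n σ => (inA_iff hi _).1 ((hcV σ n).1)) (fun σ n => (hcV σ n).2.1)
    (fun σ n => (hcV σ n).2.2) (fun n σ τ => (hcC n).2.2 σ τ) (fun n p _ ι => by
      obtain ⟨R, hR1, hR2⟩ := hK p ι
      exact ⟨R n, (hR1 n).1, fun τ σ hτ => hR2 n τ σ hτ⟩)
  obtain ⟨x, hx, hxc⟩ := key
  exact ⟨x, fun n => ⟨(inA_iff hi _).2 (hx n).1, (hx n).2⟩, hxc⟩

theorem ne_neg0 (T : Pts QBar) (hn : (E.baseChange QBar).toAffine.Nonsingular 0 0)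
    (hT : T = WeierstrassCurve.Affine.Point.some 0 0 hn) : T ≠ -T := by
  intro h3
  rw [hT] at h3
  rw [WeierstrassCurve.Affine.Point.neg_some] at h3
  have h5 := (WeierstrassCurve.Affine.Point.some.inj h3).2
  simp [WeierstrassCurve.Affine.negY, WeierstrassCurve.baseChange, E] at h5

theorem both_of (k : ℕ) (x : Fam) (h : Nice k x) : BothZero k x := by
  intro σ ζ hζ i₀ hi a ha
  obtain ⟨-, h2⟩ := h σ ζ hζ
  obtain ⟨⟨T, hn, hT, hA⟩, hS⟩ := h2 i₀ hi a ha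
  have hT0 : T ≠ 0 := by
    rw [hT]
    exact WeierstrassCurve.Affine.Point.some_ne_zero _
  exact bk_of hi a T hT0 (ne_neg0 T hn hT) hA hS

end Pool.Agent.T3h73.TK.BK
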