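import Pool.Agent.T3h73.TK.Def

/-!
# The Bloch-Kato Selmer groups of `V_3 A`

`A / K` is the twist of `E ⊗ ℤ[ζ]` by the character `a` of the absolute Galois group of `K`, see
`Pool.Agent.Y715.T.St`.
-/

set_option autoImplicit false

namespace Pool.Agent.T3h73.TK.BKDef

open Pool.Agent.Y715.T.St T2h16.TT.St Pool.Agent.T3h73.TK.Def
open scoped Classical

section

variable {k : ℕ} {i₀ : QBar}

/-- The elements of `V_3 A`: the sequences of points `x n` of `A` of `3`-power order with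
`3 x (n + 1) = x n`. -/
def IsV (i₀ : QBar) (x : ℕ → ZMod (3 ^ k) → Pts QBar) : Prop :=
  ∀ n, InA k i₀ (x n) ∧ 3 • x (n + 1) = x n ∧ ∃ m : ℕ, 3 ^ m • x n = 0

/-- The continuous cocycles with values in `V_3 A`. -/
def VCocycle (a : GalK i₀ → ZMod (3 ^ k)) (c : GalK i₀ → ℕ → ZMod (3 ^ k) → Pts QBar) : Prop :=
  (∀ σ, IsV i₀ (c σ)) ∧ ∀ n, IsCocycle a fun σ => c σ n

/-- The coboundaries with values in `V_3 A`. -/
def VCoboundary (a : GalK i₀ → ZMod (3 ^ k)) (c : GalK i₀ → ℕ → ZMod (3 ^ k) → Pts QBar) : Prop :=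
  ∃ x : ℕ → ZMod (3 ^ k) → Pts QBar, IsV i₀ x ∧ ∀ σ n, c σ n = twist (homK σ) (a σ) (x n) - x n

/-- At each finite place `v` of `K` (given by the embedding `ι`) the restriction of the class of `c` is
in the image of `A(K_v) ⊗ ℚ_3`: there are points `R n` with `3 R (n + 1) = R n` and
`c(τ) n = τ (R n) - R n`. -/
def Kummer (a : GalK i₀ → ZMod (3 ^ k)) (c : GalK i₀ → ℕ → ZMod (3 ^ k) → Pts QBar) : Prop :=
  ∀ (p : ℕ) [Fact p.Prime] (ι : QBar →ₐ[ℚ] PadicAlgCl p),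
    ∃ R : ℕ → ZMod (3 ^ k) → Pts (PadicAlgCl p),
      (∀ n, InA k (ι i₀) (R n) ∧ 3 • R (n + 1) = R n) ∧
      ∀ n τ σ, Restricts ι τ σ → twist ι 0 (c σ n) = twist (homL τ) (a σ) (R n) - R n

/-- The Bloch-Kato Selmer group `H ^ 1_f (K, V_3 A)` is zero. -/
def BKZero (a : GalK i₀ → ZMod (3 ^ k)) : Prop :=
  ∀ c : GalK i₀ → ℕ → ZMod (3 ^ k) → Pts QBar, VCocycle a c → Kummer a c → VCoboundary a c

end

/-- For the product `χ` of the characters of `x` (in any order) and the corresponding twist `A`: the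
group `A(K)` has order `3` and `H ^ 1_f (K, V_3 A)` is zero. -/
def BothZero (k : ℕ) (x : Fam) : Prop :=
  ∀ (σ : Fin x.1.card ≃ x.1) (ζ : ℂ), ζ ^ 3 ^ (k - 1) = omega →
    ∀ i₀ : QBar, i₀ ^ 2 + i₀ + 1 = 0 → ∀ a : GalK i₀ → ZMod (3 ^ k),
      Corresponds ζ (π := fun j => (σ j : Eis)) (fun j => x.2 (σ j)) a →
        (pointsK a).ncard = 3 ∧ BKZero a

end Pool.Agent.T3h73.TK.BKDef
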