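import Pool.Agent.T3h73.TK.Def

/-!
# The family of all products of characters of order `3 ^ k`: sums and densities
-/

set_option autoImplicit false

open Filter Topology

namespace Pool.Agent.T3h73.TK.Def2

open Pool.Agent.Y715.T.St T2h16.TT.St

/-- The family: a finite set `P` of Eisenstein integers and a multiplicative character modulo each of
its elements. -/
abbrev Fam : Type := Pool.Agent.T3h73.TK.Def.Fam

/-- The set `P`. -/
def set (x : Fam) : Finset Eis := x.1

/-- The numbering `σ` of the elements of `P` as a sequence. -/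
def seq (x : Fam) (σ : Fin (set x).card ≃ set x) (j : Fin (set x).card) : Eis := (σ j : Eis)

/-- The characters of `x`, numbered by `σ`. -/
def chars (x : Fam) (σ : Fin (set x).card ≃ set x) (j : Fin (set x).card) :
    MulChar (Eis ⧸ Ideal.span {seq x σ j}) ℂ := x.2 (σ j)

/-- `lam` has the exact order `n`. -/
def HasOrder {π : Eis} (lam : MulChar (Eis ⧸ Ideal.span {π}) ℂ) (n : ℕ) : Prop := orderOf lam = n

/-- The members of the family: the elements of `P` are primes which are `1` modulo `3`, of norm `1`
modulo `3 ^ (k + 1)`, and the characters have exact order `3 ^ k`. -/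
def Mem (k : ℕ) (x : Fam) : Prop :=
  ∀ (σ : Fin (set x).card ≃ set x) (j : Fin (set x).card),
    Adm k (seq x σ j) ∧ HasOrder (chars x σ j) (3 ^ k)

/-- The norm of the conductor of the product of the characters. -/
def cond (x : Fam) : ℝ := ∏ π ∈ set x, (nrm π : ℝ)

/-- The sum of `cond ^ (-s)` over the members of the family with the property `T`. -/
noncomputable def fsum (k : ℕ) (T : Fam → Prop) (s : ℝ) : ℝ :=
  open Classical in ∑' x : Fam, if Mem k x ∧ T x then cond x ^ (-s) else 0

/-- The statement on the twist by the product of the characters (see `Concl`), in any order. -/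
def Nice (k : ℕ) (x : Fam) : Prop :=
  ∀ (σ : Fin (set x).card ≃ set x) (ζ : ℂ), ζ ^ 3 ^ (k - 1) = omega →
    Concl k (set x).card (seq x σ) (chars x σ) ζ

/-- `κ = ∏_{i ≥ 1} (1 + 3 ^ (-i))⁻¹`. -/
noncomputable def kappa : ℝ := ∏' i : ℕ, (1 + ((3 : ℝ) ^ (i + 1))⁻¹)⁻¹

/-- The sum of `cond ^ (-s)` over all members of the family converges for `s > 1`. -/
def Convergent (k : ℕ) : Prop :=
  ∀ s : ℝ, 1 < s → Summable fun x : Fam =>
    open Classical in if Mem k x then cond x ^ (-s) else 0

/-- The sum of `cond ^ (-s)` over all members of the family tends to infinity for `s → 1`. -/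
def Divergent (k : ℕ) : Prop := Tendsto (fun s : ℝ => fsum k (fun _ => True) s) (𝓝[>] 1) atTop

/-- For `s > 1` near `1` the members with the property `T` contribute at least the part `c` of the
sum of `cond ^ (-s)` over all members of the family. -/
def AtLeast (k : ℕ) (T : Fam → Prop) (c : ℝ) : Prop :=
  ∀ᶠ s : ℝ in 𝓝[>] 1, c * fsum k (fun _ => True) s ≤ fsum k T s

end Pool.Agent.T3h73.TK.Def2
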