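import Pool.Agent.T3h73.TK.BKDef
import Pool.Agent.T3h73.TK.Def2

/-!
# The property of the Bloch-Kato Selmer groups
-/

set_option autoImplicit false

namespace Pool.Agent.T3h73.TK.BKDef2

open Pool.Agent.Y715.T.St T2h16.TT.St Pool.Agent.T3h73.TK.BKDef Pool.Agent.T3h73.TK.Def2

/-- For the product `χ` of the characters of `x` (in any numbering) and the corresponding twist `A`:
the group `A(K)` has order `3` and `H ^ 1_f (K, V_3 A)` is zero. -/
def BothZero (k : ℕ) (x : Fam) : Prop :=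
  ∀ (σ : Fin (set x).card ≃ set x) (ζ : ℂ), ζ ^ 3 ^ (k - 1) = omega →
    ∀ i₀ : QBar, i₀ ^ 2 + i₀ + 1 = 0 → ∀ a : GalK i₀ → ZMod (3 ^ k),
      Corresponds ζ (chars x σ) a → (pointsK a).ncard = 3 ∧ BKZero a

end Pool.Agent.T3h73.TK.BKDef2
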