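import Pool.Agent.T3h73.TK.Def2

/-! # The two forms of the definitions agree -/

set_option autoImplicit false

namespace Pool.Agent.T3h73.TK.Eq2

open Pool.Agent.Y715.T.St T2h16.TT.St

theorem mem_iff (k : ℕ) (x : Def.Fam) : Def2.Mem k x ↔ Def.Mem k x := by
  constructor
  · intro h π
    have h1 : ∀ y : x.1, (∃ j, x.1.equivFin.symm j = y) →
        Adm k (y : Eis) ∧ orderOf (x.2 y) = 3 ^ k := by
      rintro y ⟨j, rfl⟩
      exact h x.1.equivFin.symm j
    exact h1 π ⟨_, x.1.equivFin.symm_apply_apply π⟩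
  · intro h σ j
    exact h (σ j)

theorem nice_iff (k : ℕ) (x : Def.Fam) : Def2.Nice k x ↔ Def.Nice k x := Iff.rfl

theorem fsum_eq (k : ℕ) (T : Def.Fam → Prop) (s : ℝ) : Def2.fsum k T s = Def.fsum k T s := by
  classical
  unfold Def2.fsum Def.fsum
  refine tsum_congr fun x => ?_
  by_cases h : Def.Mem k x ∧ T x
  · rw [if_pos h, if_pos ⟨(mem_iff k x).2 h.1, h.2⟩]
    rfl
  · rw [if_neg h, if_neg fun h1 => h ⟨(mem_iff k x).1 h1.1, h1.2⟩]

end Pool.Agent.T3h73.TK.Eq2
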