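import Pool.Agent.T3h73.TK.BK
import Pool.Agent.T3h73.TK.BKDef2
import Pool.Agent.T3h73.TK.Eq2
import Pool.Agent.T3h73.TK.All
import Pool.Agent.T3h73.TK.Num

/-! # Densities -/

set_option autoImplicit false

open Filter Topology

namespace Pool.Agent.T3h73.TK.BKFin

open Pool.Agent.T3h73.TK

theorem both_iff (k : ℕ) (x : Def.Fam) : BKDef2.BothZero k x ↔ BKDef.BothZero k x := Iff.rfl

theorem convergent (k : ℕ) (hk : 2 ≤ k) : Def2.Convergent k := by
  intro s hs
  refine ((all_MAIN k hk).1 s hs).congr fun x => ?_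
  by_cases h : Def.Mem k x
  · rw [if_pos h, if_pos ((Eq2.mem_iff k x).2 h)]
    rfl
  · rw [if_neg h, if_neg fun h1 => h ((Eq2.mem_iff k x).1 h1)]

theorem divergent (k : ℕ) (hk : 2 ≤ k) : Def2.Divergent k :=
  (all_INF k hk).congr fun s => (Eq2.fsum_eq k _ s).symm

theorem atLeast_nice (k : ℕ) (hk : 2 ≤ k) (ε : ℝ) (hε : 0 < ε) :
    Def2.AtLeast k (Def2.Nice k) (2 / 3 * Def2.kappa - ε) := by
  refine ((all_MAIN k hk).2 ε hε).mono fun s hs => ?_
  rw [Eq2.fsum_eq, Eq2.fsum_eq]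
  exact hs.2

theorem cond_nonneg {k : ℕ} (x : Def2.Fam) (h : Def2.Mem k x) : 0 ≤ Def2.cond x :=
  Finset.prod_nonneg fun π _ => by
    have h1 : 0 ≤ Pool.Agent.Y715.T.St.nrm π := by
      unfold Pool.Agent.Y715.T.St.nrm
      nlinarith [sq_nonneg (π.re - π.im), sq_nonneg (π.re), sq_nonneg (π.im)]
    exact_mod_cast h1

open Classical in
theorem mono (k : ℕ) (hc : Def2.Convergent k) (T U : Def2.Fam → Prop) (hTU : ∀ x, T x → U x)
    (s : ℝ) (hs : 1 < s) : Def2.fsum k T s ≤ Def2.fsum k U s := by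
  have hnn : ∀ x : Def2.Fam, 0 ≤ if Def2.Mem k x then Def2.cond x ^ (-s) else 0 := by
    intro x
    split_ifs with h
    · exact Real.rpow_nonneg (cond_nonneg x h) _
    · exact le_rfl
  have hsum : ∀ V : Def2.Fam → Prop,
      Summable fun x : Def2.Fam => if Def2.Mem k x ∧ V x then Def2.cond x ^ (-s) else 0 := by
    intro V
    refine (hc s hs).of_nonneg_of_le (fun x => ?_) fun x => ?_
    · split_ifs with h
      · exact Real.rpow_nonneg (cond_nonneg x h.1) _
      · exact le_rfl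
    · by_cases h : Def2.Mem k x
      · by_cases h1 : V x
        · rw [if_pos ⟨h, h1⟩, if_pos h]
        · rw [if_neg fun h2 => h1 h2.2]
          exact hnn x
      · rw [if_neg fun h2 => h h2.1, if_neg h]
  refine (hsum T).tsum_le_tsum (fun x => ?_) (hsum U)
  by_cases h : Def2.Mem k x ∧ T x
  · rw [if_pos h, if_pos ⟨h.1, hTU x h.2⟩]
  · rw [if_neg h]
    split_ifs with h1
    · exact Real.rpow_nonneg (cond_nonneg x h1.1) _
    · exact le_rfl

theorem atLeast_both (k : ℕ) (hk : 2 ≤ k) (ε : ℝ) (hε : 0 < ε) :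
    Def2.AtLeast k (BKDef2.BothZero k) (2 / 3 * Def2.kappa - ε) := by
  have hev : ∀ᶠ s : ℝ in 𝓝[>] 1, 1 < s := self_mem_nhdsWithin
  filter_upwards [atLeast_nice k hk ε hε, hev] with s h1 h2
  exact h1.trans (mono k (convergent k hk) _ _
    (fun x hx => (both_iff k x).2 (BK.both_of k x ((Eq2.nice_iff k x).1 hx))) s h2)

end Pool.Agent.T3h73.TK.BKFin
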