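import Pool.Agent.T3h73.TK.Def2
import Pool.Agent.T3h73.TK.BKDef2

/-!
# The powers of the characters
-/

set_option autoImplicit false

namespace Pool.Agent.T3h73.TK.Def3

open Pool.Agent.Y715.T.St T2h16.TT.St Pool.Agent.T3h73.TK.Def2 Pool.Agent.T3h73.TK.BKDef2

/-- The `n`-th power of a character. -/
noncomputable def pw {R : Type} [CommRing R] (lam : MulChar R ℂ) (n : ℕ) : MulChar R ℂ := lam ^ n

/-- All the characters are replaced by their `n`-th powers, so that their product `χ` is replaced by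
`χ ^ n`. -/
noncomputable def power (n : ℕ) (x : Fam) : Fam := ⟨x.1, fun π => pw (x.2 π) n⟩

/-- The property `Nice` for `χ` and all its powers of order `3 ^ (k - j) ≥ 9`, the `χ ^ (3 ^ j n)`
with `n` prime to `3`. -/
def NiceTower (k : ℕ) (x : Fam) : Prop :=
  ∀ j n : ℕ, j + 2 ≤ k → ¬ 3 ∣ n → Nice (k - j) (power (3 ^ j * n) x)

/-- The property `BothZero` for `χ` and all its powers of order `3 ^ (k - j) ≥ 9`, the
`χ ^ (3 ^ j n)` with `n` prime to `3`. -/
def ZeroTower (k : ℕ) (x : Fam) : Prop :=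
  ∀ j n : ℕ, j + 2 ≤ k → ¬ 3 ∣ n → BothZero (k - j) (power (3 ^ j * n) x)

end Pool.Agent.T3h73.TK.Def3
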