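import Pool.Agent.T3h73.TK.Stm

/-!
# Project TK (helper73, MP_a43263): two more auxiliary statements
-/

set_option autoImplicit false
set_option linter.all false

open NumberField IsDedekindDomain Filter Topology

namespace Pool.Agent.T3h73.TK

open Pool.Agent.Y715.T.St (Eis nrm omega)
open T2h16.TT.St (Adm IsExp Concl sy)
open Pool.Agent.T3h73.TK.Def

/-- NTR: the characters of `S_CHR` are not trivial. Proof (`sy = cs`, `T2h16.TT.sy_eq`, lemmas of
`Pool.Agent.Y715.T.RecG`): if `B` is not empty choose `b₀ ∈ B` and, by the Chinese remainder theorem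
(`3^(k+1)` and the elements of `B` are pairwise coprime: two primary primes which are associate are
equal), `α ≡ 1` modulo `3^(k+1)` and modulo the other elements of `B`, and `α ≡ x` modulo `b₀` with
`¬ b₀ ∣ x`, `sy b₀ x ≠ 0` (exists: otherwise every nonzero element of the residue field, which has
`nrm b₀ ≡ 1 (mod 3)` elements, would be a cube by `cs_zero_iff`). Then `ap α = 0`, `nrm α ≡ 1`, and the
sum is `j b₀ * sy b₀ x ≠ 0`. If `B = ∅`, `h ≠ 0`: `la = 1 + 2 w`, `la² = -3`, `z = 1 + 3 la`,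
`α = z (star z)^(3^k - 1)`. `star z ≡ 1 (mod 3 la)`, so `(star z)^(3^k) ≡ 1 (mod 3^(k+1))` (by induction
`x ≡ 1 (mod 3^i)` implies `x³ ≡ 1 (mod 3^(i+1))`), `nrm α = (nrm z)^(3^k) ≡ 1 (mod 3^(k+1))`, and
`α * star z ≡ z (mod 9)` implies `α ≡ 1 + 6 la (mod 9)` (`star z = 1 - 3 la`, `3 la * 3 la = -27`), so
`ap α = 6 / 3 = 2 ≠ 0`. -/
def S_NTR : Prop := ∀ (k : ℕ), 1 ≤ k → ∀ (h : ZMod 3) (j : Eis → ZMod 3) (B : Finset Eis),
  (∀ b ∈ B, Prime b ∧ (3 : Eis) ∣ b - 1 ∧ j b ≠ 0) → (h ≠ 0 ∨ B.Nonempty) →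
  ∃ α : Eis, (3 : Eis) ∣ α - 1 ∧ (3 : ℤ) ^ (k + 1) ∣ nrm α - 1 ∧ (∀ b ∈ B, ¬ b ∣ α) ∧
    h * ap α + ∑ b ∈ B, j b * sy b α ≠ 0

open Classical in
/-- the exponents of a family of characters -/
noncomputable def exs (k : ℕ) (P : Finset Eis)
    (lam : ∀ π : P, MulChar (Eis ⧸ Ideal.span {(π : Eis)}) ℂ) (π : P) : EE :=
  if h : ∃ e : EE, IsExp k (lam π) (e : ZMod 3) then h.choose else ⟨1, one_ne_zero⟩

open Classical in
/-- FIB: summation over the families of characters for fixed `P`. Proof: from `S_CHC`. The sum is finite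
(a product of finite sets); the family `lam` is the same as its exponents `e` together with, for each
`π`, one of the `3 ^ (k - 1)` characters with exponent `e π`. -/
def S_FIB : Prop := ∀ k : ℕ, 2 ≤ k → ∀ P : Finset Eis, (∀ π ∈ P, Adm k π) →
  {lam : ∀ π : P, MulChar (Eis ⧸ Ideal.span {(π : Eis)}) ℂ |
    ∀ π, orderOf (lam π) = 3 ^ k}.Finite ∧
  (∀ lam : (∀ π : P, MulChar (Eis ⧸ Ideal.span {(π : Eis)}) ℂ), (∀ π, orderOf (lam π) = 3 ^ k) →
    ∀ π, IsExp k (lam π) (exs k P lam π : ZMod 3)) ∧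
  ∀ F : (P → EE) → ℝ, ∑' lam : (∀ π : P, MulChar (Eis ⧸ Ideal.span {(π : Eis)}) ℂ),
    (if ∀ π, orderOf (lam π) = 3 ^ k then F (exs k P lam) else 0) =
    ((3 ^ (k - 1) : ℕ) : ℝ) ^ P.card * ∑ e : P → EE, F e

end Pool.Agent.T3h73.TK
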