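import Pool.Agent.T3h73.SD.T_AN3
import Pool.Agent.T3h73.TK.Stm

/-! Task AN3Q of project TK: exactly `M` large sets, not linked. Adaptation of `SD/T_AN3.lean`. -/

set_option autoImplicit false
set_option linter.all false

open NumberField IsDedekindDomain Filter Topology

namespace Pool.Agent.T3h73.TK.AN3Q

open Pool.Agent.T3h73.SL (Pl)
open Pool.Agent.T3h73.SD (ee NA gA syA SymSys trm Tup)
open Pool.Agent.T3h73.SD.Fam (wt wt_nonneg norm_ee norm_trm pi_sum lim_log one_var)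
open Pool.Agent.T3h73.SD.TUP (one_le_NA tz summable_tz)
open Pool.Agent.T3h73.SD.AN3 (one_varD pat chi1 ext0 ext0_mem ext0_not ext0_inj trm_ext0 ee_zero
  gA_pos)
open Pool.Agent.T3h73.TK

variable {K : Type} [Field K] [NumberField K] {ℓ : ℕ} {S : Finset (Pl K)} {𝔪 : Ideal (𝓞 K)}
  {Λ : Type} [AddCommGroup Λ] {χ : Λ → Pl K → ZMod ℓ} {sy : Pl K → Pl K → ZMod ℓ}
  {C : Type} [Fintype C] {Q : Set (Pl K)}

theorem disj_of_In (hQS : ∀ q ∈ Q, q ∉ S) {A : Finset (Pl K)} (h : In Q A) : Disjoint A S :=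
  Finset.disjoint_left.2 fun q hq => hQS q (h q hq)

theorem tup_of_TupQ (hQS : ∀ q ∈ Q, q ∉ S) {A : C → Finset (Pl K)} (h : TupQ Q A) : Tup S A :=
  ⟨fun c => disj_of_In hQS (h.1 c), h.2⟩

open Classical in
/-- the term of a family with property `T` and large sets in `W` -/
noncomputable def mq (Q : Set (Pl K)) (χ : Λ → Pl K → ZMod ℓ) (sy : Pl K → Pl K → ZMod ℓ)
    (R : C → C → ZMod ℓ) (m : ℕ) (h : C → Λ) (Z : ℝ) (W : Finset C)
    (T : (C → Finset (Pl K)) → Prop) (s : ℝ) (A : C → Finset (Pl K)) : ℂ :=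
  if (TupQ Q A ∧ ∀ c, c ∈ W ↔ Z < (NA (A c) : ℝ)) ∧ T A then trm χ sy R m h s A else 0

/-- the sum over the families with property `T` and large sets in `W` -/
noncomputable def MQ (Q : Set (Pl K)) (χ : Λ → Pl K → ZMod ℓ) (sy : Pl K → Pl K → ZMod ℓ)
    (R : C → C → ZMod ℓ) (m : ℕ) (h : C → Λ) (Z : ℝ) (W : Finset C)
    (T : (C → Finset (Pl K)) → Prop) (s : ℝ) : ℂ :=
  ∑' A : C → Finset (Pl K), mq Q χ sy R m h Z W T s A

open Classical in
theorem MW_split (R : C → C → ZMod ℓ) (hR : ∀ a, R a a = 0) (m : ℕ) (hm : 1 ≤ m) (h : C → Λ)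
    (Z : ℝ) (W : Finset C) {s : ℝ} (hs : 1 < s) :
    MWQ Q χ sy R m h Z W s = ∑ B0 : Finset C, MQ Q χ sy R m h Z W (fun A => pat W A = B0) s := by
  have hsum : ∀ B0 : Finset C, Summable (mq Q χ sy R m h Z W (fun A => pat W A = B0) s) := by
    intro B0
    refine Summable.of_norm_bounded (summable_tz ∅ χ sy R hR m hm h hs).norm fun A => ?_
    unfold tz mq
    by_cases h1 : (TupQ Q A ∧ ∀ c, c ∈ W ↔ Z < (NA (A c) : ℝ)) ∧ pat W A = B0
    · rw [if_pos h1, if_pos (tup_of_TupQ (fun q _ => Finset.notMem_empty q) h1.1.1)]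
    · rw [if_neg h1, norm_zero]
      exact norm_nonneg _
  have h1 := Summable.tsum_finsetSum (s := (Finset.univ : Finset (Finset C)))
    (f := fun B0 => mq Q χ sy R m h Z W (fun A => pat W A = B0) s) fun B0 _ => hsum B0
  refine Eq.trans ?_ h1
  unfold MWQ
  refine tsum_congr fun A => ?_
  rw [Finset.sum_eq_single (pat W A)]
  · unfold mq
    by_cases h2 : TupQ Q A ∧ ∀ c, c ∈ W ↔ Z < (NA (A c) : ℝ)
    · rw [if_pos h2, if_pos ⟨h2, rfl⟩]
    · rw [if_neg h2, if_neg fun h3 => h2 h3.1]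
  · intro B0 _ hB0
    unfold mq
    rw [if_neg fun h3 => hB0 h3.2.symm]
  · intro h2
    exact absurd (Finset.mem_univ _) h2

open Classical in
/-- a sum with cancellation in one set of a family -/
theorem claim_zero (hOUTQ : S_OUTQ) (hMASSQ : S_MASSQ) (hTQL : S_TQL)
    (hs : SymSys ℓ K S 𝔪 Λ χ sy) (hQS : ∀ q ∈ Q, q ∉ S) {n : ℕ} (hn : 1 ≤ n) (hdens : Dens Q n)
    (hℓ : ℓ.Prime) (R : C → C → ZMod ℓ)
    (hR : ∀ a, R a a = 0) (m M : ℕ) (hm : 1 ≤ m) (hM : 1 ≤ M) (h : C → Λ) {E : ℝ} (hE0 : 0 < E)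
    (hE : ∀ (h : Λ) (j : Pl K → ZMod ℓ) (B F : Finset (Pl K)), Disjoint B S →
      (∀ b, j b ≠ 0 ↔ b ∈ B) → (h ≠ 0 ∨ B.Nonempty) → ∀ s : ℝ, 1 < s → s ≤ 2 →
      ‖∑' A : Finset (Pl K), if In Q A ∧ Disjoint A B ∧ Disjoint A F then
        ((((m : ℝ) ^ A.card)⁻¹ * (NA A : ℝ) ^ (-s) : ℝ) : ℂ) *
          ee ℓ (∑ q ∈ A, (χ h q + ∑ b ∈ B, j b * sy b q)) else 0‖ ≤
        E * (1 + Real.log (NA B)) ^ E * gA F ^ E)
    {κ : ℝ} (hκ : 0 < κ) (W : Finset C) (hWm : W.card = M) (a : C) (ha : a ∈ W)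
    (hW : ∀ c ∈ W, R a c + R c a = 0)
    (T : (C → Finset (Pl K)) → Prop) (hT : ∀ A X, T (Function.update A a X) ↔ T A)
    (hTn : ∀ A, T A → h a ≠ 0 ∨ ∃ c, c ≠ a ∧ R a c + R c a ≠ 0 ∧ (A c).Nonempty) :
    Tendsto (fun s : ℝ => MQ Q χ sy R m h ((1 / (s - 1)) ^ κ) W T s /
      ((TQ Q ((M : ℝ) / m) s : ℝ) : ℂ)) (𝓝[>] 1) (𝓝 0) := by
  obtain ⟨C₁, hC₁, h1, h2⟩ := one_var K m hm
  obtain ⟨C₂, hC₂, h3, h4⟩ := one_varD K m hm E hE0.le
  have hm0 : (0 : ℝ) < m := by exact_mod_cast hm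
  have hn0 : (0 : ℝ) < n := by exact_mod_cast hn
  have hM0 : (0 : ℝ) < M := by exact_mod_cast hM
  set ε : ℝ := 1 / (2 * m * n * M) with hε
  have hε0 : 0 < ε := by positivity
  obtain ⟨C₃', s₀, hC₃', hs₀, h5⟩ := hMASSQ K Q n hn hdens m E ε hm hE0.le hε0
  set C₃ : ℝ := C₃' + 1 with hC₃
  have hC₃1 : 1 ≤ C₃ := by linarith
  obtain ⟨-, hlow⟩ := hTQL K Q n hn hdens ((M : ℝ) / m) (by positivity)
  have hlow' := hlow ε hε0
  set N : ℕ := ⌈E⌉₊ + 1 + Fintype.card C with hN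
  set B : ℝ := (E * (1 + Fintype.card C) ^ E + C₁) * (C₂ ^ Fintype.card C * C₃ ^ (M - 1)) with hB
  have hlim := (lim_log κ (1 / (2 * m * n : ℝ)) hκ (by positivity) N).const_mul B
  rw [mul_zero] at hlim
  rw [tendsto_zero_iff_norm_tendsto_zero]
  refine squeeze_zero' (Eventually.of_forall fun s => norm_nonneg _) ?_ hlim
  have hev : ∀ᶠ s : ℝ in 𝓝[>] 1, s ≤ 2 :=
    (eventually_le_nhds (show (1 : ℝ) < 2 by norm_num)).filter_mono nhdsWithin_le_nhds
  have hev2 : ∀ᶠ s : ℝ in 𝓝[>] 1, s < s₀ :=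
    (eventually_lt_nhds hs₀).filter_mono nhdsWithin_le_nhds
  filter_upwards [self_mem_nhdsWithin, hev, hev2, hlow'] with s hs0' hs2 hss hTlow
  have hs1 : 1 < s := hs0'
  have hs0 : 0 < s - 1 := by linarith
  set u : ℝ := 1 / (s - 1) with hu
  have hu1 : 1 ≤ u := by rw [hu, le_div_iff₀ hs0]; linarith
  have hu0 : 0 < u := by linarith
  set Z : ℝ := u ^ κ with hZ
  have hZ1 : 1 ≤ Z := Real.one_le_rpow hu1 hκ.le
  have hlZ : Real.log Z = κ * Real.log u := by rw [hZ, Real.log_rpow hu0]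
  have hlu : 0 ≤ Real.log u := Real.log_nonneg hu1
  have hlZ0 : 0 ≤ Real.log Z := Real.log_nonneg hZ1
  obtain ⟨hb1, hb2⟩ := h1 s hs1 hs2
  obtain ⟨hc1, hc2⟩ := h2 Z hZ1 s hs1
  obtain ⟨hc3, hc4⟩ := h4 Z hZ1 s hs1
  obtain ⟨hd1, hd2⟩ := h5 s hs1 hss
  set U : ℝ := C₃ * u ^ (1 / ((m : ℝ) * n) + ε) with hU
  have hup1 : 1 ≤ u ^ (1 / ((m : ℝ) * n) + ε) := Real.one_le_rpow hu1 (by positivity)
  have hU1 : 1 ≤ U := by
    rw [hU]
    nlinarith
  have hd2' : ∑' A : Finset (Pl K), (if In Q A then wt m s A * gA A ^ E else 0) ≤ U := by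
    refine le_trans hd2 ?_
    rw [hU]
    exact mul_le_mul_of_nonneg_right (by linarith) (by linarith)
  set V : ℝ := C₂ * (1 + Real.log Z) with hV
  have hV1 : 1 ≤ V := by
    rw [hV]
    nlinarith
  have hout := hOUTQ ℓ hℓ K S 𝔪 Λ χ sy Q hs hQS C R m h hm hR E hE0 hE C₁ s Z U V (by linarith)
    hs1 hs2 hZ1 hU1 hV1 hc2 hd1 hd2' hc3 hc4 W a ha hW T hT hTn
  set G : ℝ := 1 + κ * Real.log u with hG
  have hG1 : 1 ≤ G := by
    have : 0 ≤ κ * Real.log u := by positivity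
    linarith
  have hVG : V = C₂ * G := by rw [hV, hlZ, hG]
  rw [hlZ] at hout
  have hcc : (0 : ℝ) ≤ Fintype.card C := Nat.cast_nonneg _
  have e1 : (1 + Fintype.card C * (κ * Real.log u)) ^ E ≤ (1 + Fintype.card C) ^ E * G ^ ⌈E⌉₊ := by
    have e2 : 1 + Fintype.card C * (κ * Real.log u) ≤ (1 + Fintype.card C) * G := by
      have : 0 ≤ κ * Real.log u := by positivity
      rw [hG]
      nlinarith
    calc (1 + Fintype.card C * (κ * Real.log u)) ^ E ≤ ((1 + Fintype.card C) * G) ^ E :=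
          Real.rpow_le_rpow (by positivity) e2 hE0.le
      _ = (1 + Fintype.card C) ^ E * G ^ E := Real.mul_rpow (by positivity) (by linarith)
      _ ≤ (1 + Fintype.card C) ^ E * G ^ ⌈E⌉₊ := by
          refine mul_le_mul_of_nonneg_left ?_ (Real.rpow_nonneg (by positivity) _)
          rw [← Real.rpow_natCast]
          exact Real.rpow_le_rpow_of_exponent_le hG1 (Nat.le_ceil E)
  have hGN : ∀ k l : ℕ, k ≤ l → G ^ k ≤ G ^ l := fun k l hkl => pow_le_pow_right₀ hG1 hkl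
  have e3 : E * (1 + Fintype.card C * (κ * Real.log u)) ^ E + C₁ * (1 + κ * Real.log u) ≤
      (E * (1 + Fintype.card C) ^ E + C₁) * G ^ (⌈E⌉₊ + 1) := by
    have e4 : E * (1 + Fintype.card C * (κ * Real.log u)) ^ E ≤
        E * ((1 + Fintype.card C) ^ E * G ^ (⌈E⌉₊ + 1)) := by
      refine mul_le_mul_of_nonneg_left (e1.trans ?_) hE0.le
      exact mul_le_mul_of_nonneg_left (hGN _ _ (by omega)) (Real.rpow_nonneg (by positivity) _)
    have e5 : C₁ * (1 + κ * Real.log u) ≤ C₁ * G ^ (⌈E⌉₊ + 1) := by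
      refine mul_le_mul_of_nonneg_left ?_ (by linarith)
      have := hGN 1 (⌈E⌉₊ + 1) (by omega)
      rwa [pow_one] at this
    linarith
  have hVU0 : 0 ≤ V ^ Fintype.card C * U ^ (W.card - 1) := by positivity
  -- the powers of `u`
  have e6 : U ^ (W.card - 1) = C₃ ^ (M - 1) * (u ^ (((M : ℝ) / m) / n - ε) *
      (s - 1) ^ (1 / (2 * m * n : ℝ))) := by
    have h6 : (s - 1) ^ (1 / (2 * m * n : ℝ)) = u ^ (-(1 / (2 * m * n : ℝ))) := by
      rw [hu, one_div (s - 1), Real.inv_rpow hs0.le, Real.rpow_neg hs0.le, inv_inv]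
    rw [hWm, hU, mul_pow, h6, ← Real.rpow_natCast (u ^ _), ← Real.rpow_mul hu0.le,
      ← Real.rpow_add hu0]
    congr 2
    rw [Nat.cast_sub hM, hε]
    field_simp
    push_cast
    ring
  have hTpos : 0 < u ^ (((M : ℝ) / m) / n - ε) := Real.rpow_pos_of_pos hu0 _
  have hTQ0 : 0 < TQ Q ((M : ℝ) / m) s := lt_of_lt_of_le hTpos hTlow
  rw [norm_div, Complex.norm_real, Real.norm_eq_abs, abs_of_pos hTQ0, div_le_iff₀ hTQ0]
  have hs1p : 0 ≤ (s - 1) ^ (1 / (2 * m * n : ℝ)) := Real.rpow_nonneg hs0.le _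
  have hEC : 0 ≤ E * (1 + (Fintype.card C : ℝ)) ^ E + C₁ := by
    have : 0 ≤ (1 + (Fintype.card C : ℝ)) ^ E := Real.rpow_nonneg (by positivity) _
    positivity
  have hB0 : 0 ≤ B := by
    rw [hB]
    have : 0 ≤ C₂ ^ Fintype.card C * C₃ ^ (M - 1) := by positivity
    exact mul_nonneg hEC this
  calc ‖MQ Q χ sy R m h Z W T s‖
      ≤ (E * (1 + Fintype.card C * (κ * Real.log u)) ^ E +
          C₁ * (1 + κ * Real.log u)) * (V ^ Fintype.card C * U ^ (W.card - 1)) := hout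
    _ ≤ ((E * (1 + Fintype.card C) ^ E + C₁) * G ^ (⌈E⌉₊ + 1)) *
          (V ^ Fintype.card C * U ^ (W.card - 1)) := mul_le_mul_of_nonneg_right e3 hVU0
    _ = (B * ((s - 1) ^ (1 / (2 * m * n : ℝ)) * G ^ N)) * u ^ (((M : ℝ) / m) / n - ε) := by
        rw [e6, hVG, hB, hN, mul_pow, pow_add G (⌈E⌉₊ + 1)]
        ring
    _ ≤ (B * ((s - 1) ^ (1 / (2 * m * n : ℝ)) * G ^ N)) * TQ Q ((M : ℝ) / m) s := by
        refine mul_le_mul_of_nonneg_left hTlow ?_
        positivity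

open Classical in
theorem Mh_triv (Q : Set (Pl K)) (ℓ : ℕ) [NeZero ℓ] (C : Type) [Fintype C] (m M : ℕ) (hm : 1 ≤ m)
    (hC : Fintype.card C = M) (s : ℝ) :
    MhQ Q (chi1 ℓ K) (fun _ _ => 0) (fun _ _ : C => 0) m (fun _ => ()) s =
      ((TQ Q ((M : ℝ) / m) s : ℝ) : ℂ) := by
  unfold MhQ TQ
  rw [Complex.ofReal_tsum]
  refine tsum_congr fun P => ?_
  by_cases hP : In Q P
  · rw [if_pos hP, if_pos hP]
    have hm0 : (m : ℝ) ≠ 0 := by exact_mod_cast (by omega : m ≠ 0)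
    have h1 : ∀ col : P → C, ee ℓ (∑ q : P, chi1 ℓ K () q +
        ∑ p : P, ∑ q : P, if p = q then 0 else (0 : ZMod ℓ) * 0) = 1 := by
      intro col
      unfold chi1
      simp [ee_zero]
    rw [Finset.sum_congr rfl fun col _ => h1 col, Finset.sum_const, Finset.card_univ,
      Fintype.card_fun, Fintype.card_coe, hC, nsmul_eq_mul, mul_one]
    have h2 : ((M ^ P.card : ℕ) : ℂ) = ((((M : ℝ) ^ P.card) : ℝ) : ℂ) := by push_cast; rfl
    rw [h2, ← Complex.ofReal_mul]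
    congr 1
    rw [div_pow]
    field_simp
  · rw [if_neg hP, if_neg hP]
    simp

open Classical in
theorem tup_ext0 (W : Finset C) (A : {c // c ∈ W} → Finset (Pl K)) :
    TupQ Q (ext0 W A) ↔ TupQ Q A := by
  unfold TupQ
  constructor
  · rintro ⟨h1, h2⟩
    refine ⟨fun c => ?_, fun c c' hcc => ?_⟩
    · rw [← ext0_mem A c]
      exact h1 c
    · rw [← ext0_mem A c, ← ext0_mem A c']
      exact h2 c c' fun h3 => hcc (Subtype.ext h3)
  · rintro ⟨h1, h2⟩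
    refine ⟨fun c => ?_, fun c c' hcc => ?_⟩
    · by_cases hc : c ∈ W
      · rw [show ext0 W A c = A ⟨c, hc⟩ from ext0_mem A ⟨c, hc⟩]
        exact h1 _
      · rw [ext0_not A hc]
        exact fun q hq => absurd hq (Finset.notMem_empty q)
    · by_cases hc : c ∈ W
      · by_cases hc' : c' ∈ W
        · rw [show ext0 W A c = A ⟨c, hc⟩ from ext0_mem A ⟨c, hc⟩,
            show ext0 W A c' = A ⟨c', hc'⟩ from ext0_mem A ⟨c', hc'⟩]
          exact h2 _ _ fun h3 => hcc (congrArg Subtype.val h3)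
        · rw [ext0_not A hc']
          exact Finset.disjoint_empty_right _
      · rw [ext0_not A hc]
        exact Finset.disjoint_empty_left _

open Classical in
theorem MQ_empty (hs : SymSys ℓ K S 𝔪 Λ χ sy) (hQS : ∀ q ∈ Q, q ∉ S) [NeZero ℓ]
    (R : C → C → ZMod ℓ) (m : ℕ) (h : C → Λ)
    (s : ℝ) (W : Finset C) (hWu : ∀ a ∈ W, ∀ b ∈ W, R a b + R b a = 0) (hW0 : ∀ a ∈ W, h a = 0)
    {Z : ℝ} (hZ : 1 ≤ Z) :
    MQ Q χ sy R m h Z W (fun A => pat W A = ∅) s =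
      MWQ Q (chi1 ℓ K) (fun _ _ => 0) (fun _ _ : {c // c ∈ W} => 0) m (fun _ => ()) Z
        Finset.univ s := by
  unfold MQ MWQ mq
  rw [← (ext0_inj W).tsum_eq]
  · refine tsum_congr fun A => ?_
    have hiff : ((TupQ Q (ext0 W A) ∧ ∀ c, c ∈ W ↔ Z < (NA (ext0 W A c) : ℝ)) ∧
        pat W (ext0 W A) = ∅) ↔ (TupQ Q A ∧ ∀ c, c ∈ Finset.univ ↔ Z < (NA (A c) : ℝ)) := by
      rw [tup_ext0]
      constructor
      · rintro ⟨⟨h1, h2⟩, -⟩
        refine ⟨h1, fun c => ⟨fun _ => ?_, fun _ => Finset.mem_univ _⟩⟩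
        have := (h2 c).1 c.2
        rwa [ext0_mem] at this
      · rintro ⟨h1, h2⟩
        refine ⟨⟨h1, fun c => ⟨fun hc => ?_, fun hc => ?_⟩⟩, ?_⟩
        · rw [show ext0 W A c = A ⟨c, hc⟩ from ext0_mem A ⟨c, hc⟩]
          exact (h2 _).1 (Finset.mem_univ _)
        · by_contra hcn
          rw [ext0_not A hcn] at hc
          simp only [NA, Finset.prod_empty, Nat.cast_one] at hc
          linarith
        · unfold pat
          rw [Finset.filter_eq_empty_iff]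
          rintro c _ ⟨hc, hc2⟩
          rw [ext0_not A hc] at hc2
          exact Finset.not_nonempty_empty hc2
    by_cases h1 : TupQ Q A ∧ ∀ c, c ∈ Finset.univ ↔ Z < (NA (A c) : ℝ)
    · rw [if_pos (hiff.2 h1), if_pos h1]
      exact trm_ext0 hs R m h s W hWu hW0 A (tup_of_TupQ hQS h1.1)
    · rw [if_neg fun h2 => h1 (hiff.1 h2), if_neg h1]
  · intro A hA
    rw [Function.mem_support] at hA
    have h1 : pat W A = ∅ := by
      by_contra h2
      exact hA (if_neg fun h3 => h2 h3.2)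
    refine ⟨fun c => A c, ?_⟩
    funext c
    by_cases hc : c ∈ W
    · exact ext0_mem _ ⟨c, hc⟩
    · rw [ext0_not _ hc]
      by_contra h2
      have h3 : (A c).Nonempty := Finset.nonempty_iff_ne_empty.2 fun h4 => h2 h4.symm
      have h4 : c ∈ pat W A := Finset.mem_filter.2 ⟨Finset.mem_univ _, hc, h3⟩
      rw [h1] at h4
      exact absurd h4 (Finset.notMem_empty c)

open Classical in
/-- the main term -/
theorem main_term (hTQL : S_TQL) (hTUPQ : S_TUPQ) (hAN2Q : S_AN2Q)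
    (hs : SymSys ℓ K S 𝔪 Λ χ sy) (hQS : ∀ q ∈ Q, q ∉ S) {n : ℕ} (hn : 1 ≤ n) (hdens : Dens Q n)
    [NeZero ℓ] (hℓ : ℓ.Prime) (R : C → C → ZMod ℓ)
    (m M : ℕ) (hm : 1 ≤ m) (h : C → Λ) {κ : ℝ} (hκ : 0 < κ) (W : Finset C) (hWm : W.card = M)
    (hWu : ∀ a ∈ W, ∀ b ∈ W, R a b + R b a = 0) (hW0 : ∀ a ∈ W, h a = 0) :
    Tendsto (fun s : ℝ => MQ Q χ sy R m h ((1 / (s - 1)) ^ κ) W (fun A => pat W A = ∅) s /
      ((TQ Q ((M : ℝ) / m) s : ℝ) : ℂ)) (𝓝[>] 1) (𝓝 1) := by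
  set M' : Finset {c // c ∈ W} → ℝ → ℂ := fun W' s => MWQ Q (chi1 ℓ K) (fun _ _ => 0)
    (fun _ _ : {c // c ∈ W} => 0) m (fun _ => ()) ((1 / (s - 1)) ^ κ) W' s with hM'
  have hcard : Fintype.card {c // c ∈ W} = M := by rw [Fintype.card_coe, hWm]
  have h1 : ∀ W' ∈ (Finset.univ : Finset (Finset {c // c ∈ W})).erase Finset.univ,
      Tendsto (fun s : ℝ => M' W' s / ((TQ Q ((M : ℝ) / m) s : ℝ) : ℂ)) (𝓝[>] 1) (𝓝 0) := by
    intro W' hW'
    have h2 : W'.card < M := by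
      rw [← hcard]
      exact Finset.card_lt_card (Finset.ssubset_univ_iff.2 (Finset.mem_erase.1 hW').1)
    exact hAN2Q ℓ hℓ K Q n hn hdens Unit (chi1 ℓ K) (fun _ _ => 0) {c // c ∈ W}
      (fun _ _ => 0) m M (fun _ => ()) hm κ hκ W' h2
  have h2 := (tendsto_finset_sum _ h1).const_sub 1
  rw [Finset.sum_const_zero, sub_zero] at h2
  refine h2.congr' ?_
  have h3 : ∀ᶠ s : ℝ in 𝓝[>] 1, 1 < s ∧ s < 2 := Ioo_mem_nhdsGT one_lt_two
  filter_upwards [h3] with s hs'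
  have hs1 : 1 < s := hs'.1
  have hs2 : s ≤ 2 := hs'.2.le
  have hs0 : 0 < s - 1 := by linarith
  have hT0 : (0 : ℝ) < TQ Q ((M : ℝ) / m) s :=
    lt_of_lt_of_le one_pos ((hTQL K Q n hn hdens ((M : ℝ) / m) (by positivity)).1 s hs1 hs2).2
  have hT0' : ((TQ Q ((M : ℝ) / m) s : ℝ) : ℂ) ≠ 0 := by exact_mod_cast hT0.ne'
  have hZ1 : 1 ≤ (1 / (s - 1)) ^ κ := Real.one_le_rpow (by rw [le_div_iff₀ hs0]; linarith) hκ.le
  have h4 := hTUPQ ℓ hℓ K Q Unit (chi1 ℓ K) (fun _ _ => 0) {c // c ∈ W} (fun _ _ => 0) m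
    (fun _ => ()) hm (fun _ => rfl) s ((1 / (s - 1)) ^ κ) hs1 hs2
  rw [Mh_triv Q ℓ {c // c ∈ W} m M hm hcard s,
    ← Finset.add_sum_erase _ _ (Finset.mem_univ (Finset.univ : Finset {c // c ∈ W}))] at h4
  rw [MQ_empty hs hQS R m h s W hWu hW0 hZ1, ← Finset.sum_div, eq_div_iff hT0', sub_mul, one_mul,
    div_mul_cancel₀ _ hT0', h4]
  exact add_sub_cancel_right _ _

open Classical in
theorem t_AN3Q (hEULQ : S_EULQ) (hOUTQ : S_OUTQ) (hMASSQ : S_MASSQ) (hTQL : S_TQL)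
    (hTUPQ : S_TUPQ) (hAN2Q : S_AN2Q) : S_AN3Q := by
  intro ℓ hℓ K _ _ S 𝔪 Λ _ χ sy Q n ι _ Ψ hsq C _ R m M h hm hM hR hU κ hκ W hWm hWu
  haveI : NeZero ℓ := ⟨hℓ.ne_zero⟩
  have hs := hsq.sys
  have hQS := hsq.disj
  have hn := hsq.pos
  have hdens := hsq.dens
  obtain ⟨E, hE0, hE⟩ := hEULQ ℓ hℓ K S 𝔪 Λ χ sy Q n ι Ψ hsq m hm
  have hWne : W.Nonempty := Finset.card_pos.1 (by omega)
  have hQ : ∀ (a : C), a ∈ W → ∀ (B0 : Finset C) (A : C → Finset (Pl K)) (X : Finset (Pl K)),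
      pat W (Function.update A a X) = B0 ↔ pat W A = B0 := by
    intro a ha B0 A X
    have : pat W (Function.update A a X) = pat W A := by
      unfold pat
      refine Finset.filter_congr fun c _ => ?_
      by_cases hca : c = a
      · subst hca
        exact ⟨fun h1 => absurd ha h1.1, fun h1 => absurd ha h1.1⟩
      · rw [Function.update_of_ne hca]
    rw [this]
  -- the patterns
  have hpat : ∀ B0 : Finset C, Tendsto (fun s : ℝ =>
      MQ Q χ sy R m h ((1 / (s - 1)) ^ κ) W (fun A => pat W A = B0) s /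
        ((TQ Q ((M : ℝ) / m) s : ℝ) : ℂ))
      (𝓝[>] 1) (𝓝 (if B0 = ∅ then (if ∀ a ∈ W, h a = 0 then 1 else 0) else 0)) := by
    intro B0
    by_cases hB0 : B0 = ∅
    · rw [if_pos hB0]
      subst hB0
      by_cases h0 : ∀ a ∈ W, h a = 0
      · rw [if_pos h0]
        exact main_term hTQL hTUPQ hAN2Q hs hQS hn hdens hℓ R m M hm h hκ W hWm hWu h0
      · rw [if_neg h0]
        push Not at h0
        obtain ⟨a, ha, ha0⟩ := h0
        exact claim_zero hOUTQ hMASSQ hTQL hs hQS hn hdens hℓ R hR m M hm hM h hE0 hE hκ W hWm a ha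
          (hWu a ha) _ (hQ a ha ∅) fun A _ => Or.inl ha0
    · rw [if_neg hB0]
      obtain ⟨b, hb⟩ := Finset.nonempty_iff_ne_empty.2 hB0
      by_cases hbW : b ∈ W
      · obtain ⟨a, ha⟩ := hWne
        refine claim_zero hOUTQ hMASSQ hTQL hs hQS hn hdens hℓ R hR m M hm hM h hE0 hE hκ W hWm a ha
          (hWu a ha) _ (hQ a ha B0) fun A hA => ?_
        exfalso
        have : b ∈ pat W A := by
          rw [hA]
          exact hb
        exact (Finset.mem_filter.1 this).2.1 hbW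
      · have h1 : ¬ ∀ x ∈ insert b W, ∀ y ∈ insert b W, R x y + R y x = 0 := by
          intro h2
          have := hU _ h2
          rw [Finset.card_insert_of_notMem hbW] at this
          omega
        have h2 : ∃ a ∈ W, R a b + R b a ≠ 0 := by
          by_contra h3
          push Not at h3
          apply h1
          intro x hx y hy
          rcases Finset.mem_insert.1 hx with hx1 | hx1
          · rcases Finset.mem_insert.1 hy with hy1 | hy1
            · rw [hx1, hy1, hR, add_zero]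
            · rw [hx1, add_comm]
              exact h3 y hy1
          · rcases Finset.mem_insert.1 hy with hy1 | hy1
            · rw [hy1]
              exact h3 x hx1
            · exact hWu x hx1 y hy1
        obtain ⟨a, ha, hab⟩ := h2
        refine claim_zero hOUTQ hMASSQ hTQL hs hQS hn hdens hℓ R hR m M hm hM h hE0 hE hκ W hWm a ha
          (hWu a ha) _ (hQ a ha B0) fun A hA => Or.inr ⟨b, ?_, hab, ?_⟩
        · rintro rfl
          exact hbW ha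
        · have : b ∈ pat W A := by
            rw [hA]
            exact hb
          exact (Finset.mem_filter.1 this).2.2
  have hsum := tendsto_finset_sum (Finset.univ : Finset (Finset C)) fun B0 _ => hpat B0
  rw [Finset.sum_ite_eq' Finset.univ ∅ fun _ => (if ∀ a ∈ W, h a = 0 then (1 : ℂ) else 0),
    if_pos (Finset.mem_univ _)] at hsum
  refine hsum.congr' ?_
  filter_upwards [self_mem_nhdsWithin] with s hs1
  rw [MW_split R hR m hm h _ W hs1, Finset.sum_div]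

end Pool.Agent.T3h73.TK.AN3Q
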