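import Pool.Agent.T3h73.TK.T_FAM
import Pool.Agent.T3h73.TK.T_CRI
import Pool.Agent.T3h73.TK.All
import Pool.Agent.T3h73.TK.Eq2

/-! The criterion for a member of the family, and its proportion (a general form of FAM). -/

set_option autoImplicit false
set_option linter.all false

open NumberField IsDedekindDomain Filter Topology

namespace Pool.Agent.T3h73.TK.FAMT

open Pool.Agent.T3h73.SL (Pl)
open Pool.Agent.T3h73.SD (ee NA gA syA SymSys kap)
open Pool.Agent.Y715.T.St (Eis nrm omega)
open T2h16.TT.St (Adm IsExp Concl sy)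
open Pool.Agent.T3h73.TK.Def (Fam Mem fsum Nice cond)
open Pool.Agent.T3h73.TK.FAM

/-- the criterion -/
def Crit (k : ℕ) (x : Fam) : Prop :=
  ∃ e : x.1 → EE, (∀ π : x.1, IsExp k (x.2 π) (e π : ZMod 3)) ∧ GE x.1 e

open Classical in
theorem t_FAMT (hDIC : S_DIC) (hSYMM : S_SYMM) (hFIB : S_FIB) (K : Type) [Field K] [NumberField K]
    (f : Eis ≃+* 𝓞 K) (k : ℕ) (hk : 2 ≤ k) (s : ℝ) (hs1 : 1 < s) (hs2 : s ≤ 2) :
    Summable (fun x : Fam => if Mem k x then cond x ^ (-s) else 0) ∧
    fsum k (fun _ => True) s = TQ (Qk f k) (2 * ((3 ^ (k - 1) : ℕ) : ℝ)) s ∧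
    SQ (Qk f k) (3 ^ (k - 1)) (fun P e => if nV (fun p q => sy (gn f p) (gn f q)) P e = 3 ∧
      aS (fun q => ap (gn f q)) P e ≠ 0 then 1 else 0) s ≤ fsum k (Crit k) s := by
  have hD := dk hDIC f k
  have hEE : Fintype.card EE = 2 := by decide
  -- everything
  obtain ⟨h1, h2⟩ := total (K := K) (fun _ _ => 1) s hk hFIB hD (fun _ _ => zero_le_one)
    (fun _ _ => le_rfl) hs1 hs2
  have hg1 : ∀ x : Fam, gg k (fun _ _ => 1) s x = if Mem k x then cond x ^ (-s) else 0 := by
    intro x
    unfold gg
    simp only [mul_one]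
  -- the good exponents
  obtain ⟨h3, h4⟩ := total (K := K) (fun P e => if GE P e then 1 else 0) s hk hFIB hD
    (fun P e => by split_ifs <;> norm_num) (fun P e => by split_ifs <;> norm_num) hs1 hs2
  refine ⟨h1.congr fun x => hg1 x, ?_, ?_⟩
  · have e1 : fsum k (fun _ => True) s = ∑' x, gg k (fun _ _ => 1) s x := by
      unfold fsum
      refine tsum_congr fun x => ?_
      rw [hg1]
      simp only [and_true]
    rw [e1, h2]
    unfold TQ
    refine tsum_congr fun P => ?_
    by_cases hP : In (Qk f k) P
    · rw [dif_pos hP, if_pos hP, Finset.sum_const, Finset.card_univ, Fintype.card_fun,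
        Fintype.card_coe, hEE, im_card hD]
      simp only [nsmul_eq_mul, mul_one]
      push_cast
      rw [mul_pow]
      ring
    · rw [dif_neg hP, if_neg hP]
  · have hle : ∀ x : Fam, gg k (fun P e => if GE P e then 1 else 0) s x ≤
        if Mem k x ∧ Crit k x then cond x ^ (-s) else 0 := by
      intro x
      unfold gg
      by_cases hx : Mem k x
      · rw [if_pos hx]
        by_cases hge : GE x.1 (exs k x.1 x.2)
        · have hexp := (hFIB k hk x.1 (fun π hπ => (hx ⟨π, hπ⟩).1)).2.1 x.2 fun π => (hx π).2
          have hn : Crit k x := ⟨exs k x.1 x.2, hexp, hge⟩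
          dsimp only
          rw [if_pos hge, if_pos ⟨hx, hn⟩, mul_one]
        · dsimp only
          rw [if_neg hge, mul_zero]
          split_ifs
          · exact Real.rpow_nonneg (cond_nn x) _
          · exact le_rfl
      · rw [if_neg hx, if_neg fun h => hx h.1]
    have hsn : Summable (fun x : Fam => if Mem k x ∧ Crit k x then cond x ^ (-s) else 0) := by
      refine Summable.of_nonneg_of_le (fun x => ?_) (fun x => ?_) h1
      · split_ifs
        · exact Real.rpow_nonneg (cond_nn x) _
        · exact le_rfl
      · rw [hg1]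
        by_cases hx : Mem k x
        · rw [if_pos hx]
          split_ifs
          · exact le_rfl
          · exact Real.rpow_nonneg (cond_nn x) _
        · rw [if_neg hx, if_neg fun h => hx h.1]
    have h5 : ∑' x, gg k (fun P e => if GE P e then 1 else 0) s x ≤ fsum k (Crit k) s :=
      h3.tsum_le_tsum hle hsn
    refine le_trans ?_ h5
    rw [h4]
    unfold SQ
    -- summability of the right-hand side
    obtain ⟨C, -, hM, -⟩ := SD.MASS.t_MASS K (2 * 3 ^ (k - 1)) 0
      (by have : 1 ≤ 3 ^ (k - 1) := Nat.one_le_pow _ _ (by norm_num)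
          omega) le_rfl
    have hM1 := (hM s hs1 hs2).1
    have hb : ∀ (P : Finset (Pl K)) (T : Type) [Fintype T] (x : ℝ), Fintype.card T = P.card →
        x ≤ 2 ^ P.card → ((3 ^ (k - 1) : ℕ) : ℝ) ^ P.card * (NA P : ℝ) ^ (-s) * x ≤
          ((2 * 3 ^ (k - 1) : ℕ) : ℝ) ^ P.card * (NA P : ℝ) ^ (-s) * gA P ^ (0 : ℝ) := by
      intro P T _ x _ hx
      rw [Real.rpow_zero, mul_one]
      calc ((3 ^ (k - 1) : ℕ) : ℝ) ^ P.card * (NA P : ℝ) ^ (-s) * x
          ≤ ((3 ^ (k - 1) : ℕ) : ℝ) ^ P.card * (NA P : ℝ) ^ (-s) * 2 ^ P.card :=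
            mul_le_mul_of_nonneg_left hx (by positivity)
        _ = _ := by
            push_cast
            rw [mul_pow]
            ring
    refine Summable.tsum_le_tsum (fun P => ?_) ?_ ?_
    · by_cases hP : In (Qk f k) P
      · rw [dif_pos hP, if_pos hP]
        refine mul_le_mul_of_nonneg_left ?_ (by positivity)
        have e2 : ∑ e : (↥(im f k ⟨P, hP⟩)) → EE, (if GE (im f k ⟨P, hP⟩) e then (1 : ℝ) else 0) =
            ∑ e : P → EE, (if GE (im f k ⟨P, hP⟩) (fun π => e ((beta hD ⟨P, hP⟩).symm π)) then
              (1 : ℝ) else 0) := by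
          rw [← (Equiv.arrowCongr (beta hD ⟨P, hP⟩) (Equiv.refl EE)).sum_comp]
          rfl
        rw [e2]
        refine Finset.sum_le_sum fun e _ => ?_
        by_cases h6 : nV (fun p q => sy (gn f p) (gn f q)) P e = 3 ∧
            aS (fun q => ap (gn f q)) P e ≠ 0
        · dsimp only
          rw [if_pos h6, if_pos]
          apply ge_of hD hSYMM
          · simpa using h6.1
          · simpa using h6.2
        · dsimp only
          rw [if_neg h6]
          split_ifs <;> norm_num
      · rw [dif_neg hP, if_neg hP]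
    · refine Summable.of_nonneg_of_le (fun P => ?_) (fun P => ?_) hM1
      · split_ifs
        · refine mul_nonneg (by positivity) (Finset.sum_nonneg fun e _ => ?_)
          dsimp only
          split_ifs <;> norm_num
        · exact le_rfl
      · split_ifs
        · refine hb P P _ (Fintype.card_coe P) ?_
          refine (Finset.sum_le_sum (g := fun _ => (1 : ℝ)) fun e _ => by
            dsimp only
            split_ifs <;> norm_num).trans (le_of_eq ?_)
          rw [Finset.sum_const, Finset.card_univ, Fintype.card_fun, Fintype.card_coe, hEE]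
          simp
        · unfold gA
          positivity
    · refine Summable.of_nonneg_of_le (fun P => ?_) (fun P => ?_) hM1
      · split_ifs
        · refine mul_nonneg (by positivity) (Finset.sum_nonneg fun e _ => ?_)
          split_ifs <;> norm_num
        · exact le_rfl
      · by_cases hP : In (Qk f k) P
        · rw [dif_pos hP]
          refine hb P P _ (Fintype.card_coe P) ?_
          refine (Finset.sum_le_sum (g := fun _ => (1 : ℝ)) fun e _ => by
            split_ifs <;> norm_num).trans (le_of_eq ?_)
          rw [Finset.sum_const, Finset.card_univ, Fintype.card_fun, Fintype.card_coe, hEE,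
            im_card hD]
          simp
        · rw [dif_neg hP]
          unfold gA
          positivity

end Pool.Agent.T3h73.TK.FAMT
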