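import Pool.Agent.T3h73.TK.Def3
import Pool.Agent.T3h73.TK.T_FAMT
import Pool.Agent.T3h73.TK.BKFin

/-! # The whole tower of the powers -/

set_option autoImplicit false
set_option linter.all false

open NumberField Filter Topology

namespace Pool.Agent.T3h73.TK.Tower

open Pool.Agent.T3h73.TK
open Pool.Agent.T3h73.SD (kap)
open Pool.Agent.Y715.T.St (Eis nrm omega)
open T2h16.TT.St (Adm IsExp Concl sy)
open Pool.Agent.T3h73.TK.FAMT (Crit)
open Pool.Agent.T3h73.TK.FAM (GE)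

open Classical in
/-- the proportion of the members which satisfy the criterion -/
theorem crit_main (k : ℕ) (hk : 2 ≤ k) (ε : ℝ) (hε : 0 < ε) : ∀ᶠ s : ℝ in 𝓝[>] 1,
    (2 / 3 * ∏' i : ℕ, (1 + ((3 : ℝ) ^ (i + 1))⁻¹)⁻¹ - ε) * Def.fsum k (fun _ => True) s ≤
      Def.fsum k (Crit k) s := by
  obtain ⟨K, _, _, ⟨f⟩⟩ := FLD.t_FLD
  obtain ⟨S, hS, hQ⟩ := all_SYSQ K f k (by omega)
  have hw : 1 ≤ 3 ^ (k - 1) := Nat.one_le_pow _ _ (by norm_num)
  have hfam := FAMT.t_FAMT DIC.t_DIC SYMM.t_SYMM (FIB.t_FIB CHC.t_CHC) K f k hk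
  have hkap : kap 3 = ∏' i : ℕ, (1 + ((3 : ℝ) ^ (i + 1))⁻¹)⁻¹ := by
    unfold kap
    norm_num
  have hd := all_DISTQ K S _ _ _ _ _ _ _ hQ (3 ^ (k - 1)) hw ε hε
  have hev : ∀ᶠ s : ℝ in 𝓝[>] 1, 1 < s ∧ s ≤ 2 := by
    have h1 : Set.Ioc (1 : ℝ) 2 ∈ 𝓝[>] (1 : ℝ) := Ioc_mem_nhdsGT (by norm_num)
    exact Filter.mem_of_superset h1 fun s hs => hs
  filter_upwards [hd, hev] with s h1 h2
  obtain ⟨-, h3, h4⟩ := hfam s h2.1 h2.2
  rw [← hkap, h3]
  exact h1.trans h4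

theorem adm_of_le {k l : ℕ} (h : l ≤ k) {π : Eis} (hπ : Adm k π) : Adm l π :=
  ⟨hπ.1, hπ.2.1, (pow_dvd_pow _ (by omega)).trans hπ.2.2⟩

theorem mem_power {k j n : ℕ} (hj : j ≤ k) (hn : ¬ 3 ∣ n) {x : Def.Fam} (hx : Def.Mem k x) :
    Def.Mem (k - j) (Def3.power (3 ^ j * n) x) := by
  intro π
  refine ⟨adm_of_le (Nat.sub_le _ _) (hx π).1, ?_⟩
  show orderOf ((x.2 π) ^ (3 ^ j * n)) = 3 ^ (k - j)
  have h1 := (hx π).2
  have h2 : 3 ^ j ∣ orderOf (x.2 π) := by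
    rw [h1]
    exact pow_dvd_pow _ hj
  have h3 : orderOf ((x.2 π) ^ 3 ^ j) = 3 ^ (k - j) := by
    rw [orderOf_pow_of_dvd (by positivity) h2, h1]
    exact Nat.pow_div hj (by norm_num)
  rw [pow_mul, Nat.Coprime.orderOf_pow, h3]
  rw [h3]
  exact ((Nat.prime_three.coprime_iff_not_dvd).2 hn).pow_left _

theorem omega_pow_three : omega ^ 3 = 1 := by
  have h1 : omega.re = -1 / 2 := rfl
  have h2 : omega.im = √3 / 2 := rfl
  have h3 : (√3 : ℝ) * √3 = 3 := Real.mul_self_sqrt (by norm_num)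
  have h4 : omega ^ 2 = starRingEnd ℂ omega := by
    apply Complex.ext
    · rw [sq, Complex.mul_re, Complex.conj_re, h1, h2]
      nlinarith
    · rw [sq, Complex.mul_im, Complex.conj_im, h1, h2]
      ring
  have h5 : Complex.normSq omega = 1 := by
    rw [Complex.normSq_apply, h1, h2]
    nlinarith
  rw [pow_succ, h4, mul_comm, Complex.mul_conj, h5, Complex.ofReal_one]

theorem exp_power {k j n : ℕ} (hj : j + 1 ≤ k) (hn : ¬ 3 ∣ n) {π : Eis}
    {lam : MulChar (Eis ⧸ Ideal.span {π}) ℂ} {e : ZMod 3} (h : IsExp k lam e) :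
    IsExp (k - j) (lam ^ (3 ^ j * n)) ((n : ZMod 3) * e) := by
  intro x hx
  have h1 := h x hx
  have hn0 : n ≠ 0 := fun h0 => hn (h0 ▸ dvd_zero 3)
  have h2 : (lam ^ (3 ^ j * n)) (Ideal.Quotient.mk _ x) =
      lam (Ideal.Quotient.mk _ x) ^ (3 ^ j * n) :=
    MulChar.pow_apply' lam (by positivity) _
  have h3 : 3 ^ j * n * 3 ^ (k - j - 1) = 3 ^ (k - 1) * n := by
    have : k - 1 = j + (k - j - 1) := by omega
    rw [this, pow_add]
    ring
  rw [h2, ← pow_mul, h3, pow_mul, h1, ← pow_mul]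
  have h4 : ∀ a b : ℕ, (a : ZMod 3) = (b : ZMod 3) → omega ^ a = omega ^ b := by
    intro a b hab
    have h5 : a % 3 = b % 3 := (ZMod.natCast_eq_natCast_iff' a b 3).1 hab
    rw [← Nat.div_add_mod a 3, ← Nat.div_add_mod b 3, pow_add, pow_add, pow_mul, pow_mul,
      omega_pow_three, one_pow, one_pow, h5]
  apply h4
  rw [Nat.cast_mul, ZMod.natCast_zmod_val, ZMod.natCast_zmod_val]
  ring

open Pool.Agent.T3h73.TK in
theorem nice_tower {k : ℕ} {x : Def.Fam} (hx : Def.Mem k x) (h : Crit k x) :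
    Def3.NiceTower k x := by
  intro j n hj hn
  obtain ⟨e, he, h1, h2⟩ := h
  have hc : (n : ZMod 3) ≠ 0 := by
    intro h0
    exact hn ((ZMod.natCast_eq_zero_iff n 3).1 h0)
  rw [Eq2.nice_iff]
  have hp : Fact (Nat.Prime 3) := ⟨Nat.prime_three⟩
  refine CRI.t_CRI (k - j) (by omega) (Def3.power (3 ^ j * n) x) (mem_power (by omega) hn hx)
    (fun π => ⟨(n : ZMod 3) * e π, mul_ne_zero hc (e π).2⟩)
    (fun π => exp_power (by omega) hn (he π)) ?_ ?_
  · intro v hv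
    refine h1 v fun j' => ?_
    have h5 := hv j'
    have h6 : (n : ZMod 3) * ∑ i : x.1, (e i : ZMod 3) * sy (j' : Eis) (i : Eis) * (v i - v j') = 0 := by
      rw [Finset.mul_sum]
      refine Eq.trans (Finset.sum_congr rfl fun i _ => ?_) h5
      ring
    exact (mul_eq_zero.1 h6).resolve_left hc
  · intro h5
    apply h2
    have h6 : (n : ZMod 3) * ∑ π : x.1, (e π : ZMod 3) * ap π = 0 := by
      rw [Finset.mul_sum]
      refine Eq.trans (Finset.sum_congr rfl fun i _ => ?_) h5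
      ring
    exact (mul_eq_zero.1 h6).resolve_left hc

theorem zero_tower {k : ℕ} {x : Def.Fam} (h : Def3.NiceTower k x) : Def3.ZeroTower k x := by
  intro j n hj hn
  exact (BKFin.both_iff _ _).2 (BK.both_of _ _ ((Eq2.nice_iff _ _).1 (h j n hj hn)))

open Classical in
theorem mono' (k : ℕ) (hc : Def2.Convergent k) (T U : Def2.Fam → Prop)
    (hTU : ∀ x, Def2.Mem k x → T x → U x) (s : ℝ) (hs : 1 < s) :
    Def2.fsum k T s ≤ Def2.fsum k U s := by
  have h1 : Def2.fsum k T s = Def2.fsum k (fun x => Def2.Mem k x ∧ T x) s := by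
    unfold Def2.fsum
    refine tsum_congr fun x => ?_
    by_cases h : Def2.Mem k x ∧ T x
    · rw [if_pos h, if_pos ⟨h.1, h⟩]
    · rw [if_neg h, if_neg fun h1 => h h1.2]
  rw [h1]
  exact BKFin.mono k hc _ _ (fun x hx => hTU x hx.1 hx.2) s hs

theorem atLeast_niceTower (k : ℕ) (hk : 2 ≤ k) (ε : ℝ) (hε : 0 < ε) :
    Def2.AtLeast k (Def3.NiceTower k) (2 / 3 * Def2.kappa - ε) := by
  have hev : ∀ᶠ s : ℝ in 𝓝[>] 1, 1 < s := self_mem_nhdsWithin
  filter_upwards [crit_main k hk ε hε, hev] with s h1 h2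
  rw [← Eq2.fsum_eq, ← Eq2.fsum_eq] at h1
  exact h1.trans (mono' k (BKFin.convergent k hk) _ _
    (fun x hx hcr => nice_tower ((Eq2.mem_iff k x).1 hx) hcr) s h2)

theorem atLeast_zeroTower (k : ℕ) (hk : 2 ≤ k) (ε : ℝ) (hε : 0 < ε) :
    Def2.AtLeast k (Def3.ZeroTower k) (2 / 3 * Def2.kappa - ε) := by
  have hev : ∀ᶠ s : ℝ in 𝓝[>] 1, 1 < s := self_mem_nhdsWithin
  filter_upwards [atLeast_niceTower k hk ε hε, hev] with s h1 h2
  exact h1.trans (mono' k (BKFin.convergent k hk) _ _ (fun x _ hx => zero_tower hx) s h2)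

end Pool.Agent.T3h73.TK.Tower
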